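import Pool.Agent.H35.ZCL.Vis
import Pool.Agent.H77.S6.LAB

/-!
# The plank zoom: definitions

`GrP`: the fans are near graphs over the other coordinates; `TiltP`: they are near tilted
graphs; `RotP`: the slope of the fans in the coordinate `iu` is a function of the window.
`pkC`: linear coordinates of planks, for the zoom `Fam.zm`.
-/

set_option autoImplicit false

namespace Pool.PZ

open Finset Real
open Pool.Agent.H49.Ent Pool.Agent.H32.Dense Pool.STK Pool.KA Pool.KSAT Pool.K2S Pool.PB Pool.KS6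
open Pool.ZCL

variable {m J : ℕ}

/-! ### Properties of the fans -/

section props

variable {Ω U V : Type}

/-- The fans lie within `ρ` of hyperplanes which are graphs over the coordinates different from
`i`, with slopes at most `K`. -/
def GrP (i : Fin m) (K ρ : ℝ) (pt : Ω → U) (d : Ω → Fin m → ℝ) (B : Ω → Prop) : Prop :=
  ∃ (n : U → ℝ) (s : U → Fin m → ℝ), ∀ ω, B ω → s (pt ω) i = 0 ∧ (∀ j, |s (pt ω) j| ≤ K) ∧
    |d ω i - n (pt ω) - ∑ j, s (pt ω) j * d ω j| ≤ ρ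

/-- The fans lie within `ρ` of graphs `d iu = n + s * d i₀ + t * d iN` with `γ ≤ |t|`. -/
def TiltP (i₀ iu iN : Fin m) (K γ ρ : ℝ) (pt : Ω → U) (d : Ω → Fin m → ℝ) (B : Ω → Prop) :
    Prop :=
  ∃ n s t : U → ℝ, ∀ ω, B ω → |s (pt ω)| ≤ K ∧ |t (pt ω)| ≤ K ∧ γ ≤ |t (pt ω)| ∧
    |d ω iu - n (pt ω) - s (pt ω) * d ω i₀ - t (pt ω) * d ω iN| ≤ ρ

/-- The coordinate `iu` of the fans is a function of the coordinate `i₀`, with a slope which is a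
function of the window, up to `μ`. -/
def RotP (i₀ iu : Fin m) (K μ : ℝ) (pt : Ω → U) (wn : Ω → V) (d : Ω → Fin m → ℝ)
    (A : Ω → Prop) : Prop :=
  ∃ (n s : U → ℝ) (ζ : V → ℝ), ∀ ω, A ω → |s (pt ω)| ≤ K ∧
    |d ω iu - n (pt ω) - s (pt ω) * d ω i₀| ≤ μ ∧ |s (pt ω) - ζ (wn ω)| ≤ μ

/-- The coordinate `j` of the fans is an affine function of the coordinate `i₀`, with a slope at
most `θ`. -/
def AfP (i₀ j : Fin m) (θ ρ : ℝ) (pt : Ω → U) (d : Ω → Fin m → ℝ) (B : Ω → Prop) : Prop :=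
  ∃ a b : U → ℝ, ∀ ω, B ω → |b (pt ω)| ≤ θ ∧ |d ω j - a (pt ω) - b (pt ω) * d ω i₀| ≤ ρ

/-- The coordinate `j` of the fans is an affine function of the coordinate `i₀`. -/
def StP (i₀ j : Fin m) (ρ : ℝ) (pt : Ω → U) (d : Ω → Fin m → ℝ) (B : Ω → Prop) : Prop :=
  ∃ a b : U → ℝ, ∀ ω, B ω → |d ω j - a (pt ω) - b (pt ω) * d ω i₀| ≤ ρ

/-- The coordinate `i₀` of the fans is constant. -/
def CoP (i₀ : Fin m) (ρ : ℝ) (pt : Ω → U) (d : Ω → Fin m → ℝ) (B : Ω → Prop) : Prop :=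
  ∃ a : U → ℝ, ∀ ω, B ω → |d ω i₀ - a (pt ω)| ≤ ρ

theorem GrP.hered (i : Fin m) (K ρ : ℝ) (pt : Ω → U) (d : Ω → Fin m → ℝ) :
    Hered (GrP i K ρ pt d) := by
  rintro A B hB ⟨n, s, h⟩
  exact ⟨n, s, fun ω hω => h ω (hB ω hω)⟩

theorem TiltP.hered (i₀ iu iN : Fin m) (K γ ρ : ℝ) (pt : Ω → U) (d : Ω → Fin m → ℝ) :
    Hered (TiltP i₀ iu iN K γ ρ pt d) := by
  rintro A B hB ⟨n, s, t, h⟩
  exact ⟨n, s, t, fun ω hω => h ω (hB ω hω)⟩

theorem RotP.hered (i₀ iu : Fin m) (K μ : ℝ) (pt : Ω → U) (wn : Ω → V) (d : Ω → Fin m → ℝ) :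
    Hered (RotP i₀ iu K μ pt wn d) := by
  rintro A B hB ⟨n, s, ζ, h⟩
  exact ⟨n, s, ζ, fun ω hω => h ω (hB ω hω)⟩

end props

/-- The chart `i` at the scale `g` (slopes at most `2 m`). -/
def BadC (i : Fin m) (g : ℝ) : Stat m := fun J F B =>
  GrP i (2 * m) (1 / 2 ^ ⌊g * J⌋₊) (Fam.pt F) F.d B

/-- A tilt of size at least `2 ^ (-g J)` at the scale `h`. -/
def Tilt (i₀ iu iN : Fin m) (g h : ℝ) : Stat m := fun J F B =>
  TiltP i₀ iu iN (2 * m) (1 / 2 ^ ⌊g * J⌋₊) (1 / 2 ^ ⌊h * J⌋₊) (Fam.pt F) F.d B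

/-- The slope in the coordinate `iu` is a function of the windows `x`, to precision `μ`. -/
def RotZ (i₀ iu : Fin m) (x μ : ℝ) : Stat m := fun J F A =>
  RotP i₀ iu (2 * m) (1 / 2 ^ ⌊μ * J⌋₊) (Fam.pt F) (slam F ⌊x * J⌋₊) F.d A

/-- No large subevent has the property `Q`. -/
def NoL (S : FCl m) (Q : Stat m) : Prop :=
  ∃ ψ : ℝ, 0 < ψ ∧ Clg S (fun J F A => ∀ B : F.Ω → Prop, Sub B A →
    Real.exp (-(ψ * J)) * Pe F.p A ≤ Pe F.p B → ¬ Q J F B)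

/-- The list of the bad properties of a plank zoom. -/
def pzBad (i₀ iu iN : Fin 3) (r g h : ℝ) (i : ℕ) : Stat 3 := fun J F B =>
  stdBad 3 1 r i J F B ∨ BadC i₀ (1 / ((i : ℝ) + 1)) J F B ∨
    BadC iN (1 / ((i : ℝ) + 1)) J F B ∨ Tilt i₀ iu iN g h J F B

/-- The class of the plank zooms. -/
def pz (i₀ iu iN : Fin 3) (r g h : ℝ) (ψ : ℕ → ℝ) : FCl 3 :=
  zc 3 (fun _ _ => True) (pzBad i₀ iu iN r g h) ψ

/-- **(ZRT)** Leaves and spread fans, which are not tilted: the slope is a function of the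
windows. -/
def ZRTStmt : Prop :=
  ∀ (S : FCl 3) (i₀ iu iN : Fin 3), (∀ j : Fin 3, j = i₀ ∨ j = iu ∨ j = iN) →
    LEAF S → SPS S 1 → (∀ g : ℝ, 0 < g → NoL S (BadC i₀ g)) →
    (∀ g : ℝ, 0 < g → NoL S (BadC iN g)) →
    ∀ g h : ℝ, 0 < g → g < h → h ≤ 1 / 2 → NoL S (Tilt i₀ iu iN g h) →
    ∀ x : ℝ, 0 < x → x ≤ g / 16 → Clg S (RotZ i₀ iu x (g / 2))

/-- **(PZO)** The slope in families with side information: as `zoom_leaf`, with more bad properties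
and a stronger conclusion. -/
def PZOStmt : Prop :=
  (∀ S : FCl 3, SPS S 1 → STP S) → (∀ S : FCl 3, SPS S 1 → SLP S) →
  ∀ (i₀ iu iN : Fin 3), (∀ j : Fin 3, j = i₀ ∨ j = iu ∨ j = iN) →
  ∀ r g h : ℝ, 0 < r → 0 < g → g < h → h ≤ 1 / 2 → ∀ ψ : ℕ → ℝ, (∀ i, 0 < ψ i) →
  ∀ B₀ x : ℝ, 0 < B₀ → 0 < x → x ≤ g / 16 →
  ∀ δ : ℝ, 0 < δ → ∃ η > 0, ∃ n J₁ : ℕ, ∀ J ≥ J₁, ∀ G : Fam 3 J, G.Tm (η * J) →
    (∀ z, 0 < law G.p G.Z z → H (cond G.p G.Z z) G.l ≤ B₀ * J) →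
    (∀ i ≤ n, ∀ B : G.Ω → Prop, Real.exp (-(3 * ψ i * J)) ≤ Pe G.p B →
      ¬ PlU 1 (1 / 2 ^ ⌊1 / ((i : ℝ) + 1) * J⌋₊) (Fam.pt G) G.d B ∧
      ¬ BadC i₀ (1 / ((i : ℝ) + 1)) J G B ∧ ¬ BadC iN (1 / ((i : ℝ) + 1)) J G B ∧
      ¬ Tilt i₀ iu iN g h J G B ∧
      ∀ P : ℕ, P ≤ J → J ≤ 2 * P →
        CH (Pool.Agent.H49.Ent.cond G.p B True) (G.X J) (fun ω => (G.X P ω, G.W ω)) ≤
          (3 * Real.log 2 - r) * ((J : ℝ) - P) + 1 / ((i : ℝ) + 1) * J) →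
    ∃ B : G.Ω → Prop, Real.exp (-(δ * J)) ≤ Pe G.p B ∧ RotZ i₀ iu x (g / 2) J G B

/-! ### Planks -/

/-- Frames of planks: `(e, c, s)`. -/
abbrev Fr : Type := ℝ × ℝ × ℝ

/-- The frame of a plank. -/
def fr (y : Pln) : Fr := (y.e, y.c, y.s)

/-- Plank coordinates `(x i₀, 2 ^ lam * (x iu - e * x i₀), 2 ^ n * (c * x i₀ + s * x iu + x j))`. -/
noncomputable def pkC (lam n : ℕ) (i₀ iu : Fin m) : Crd m Fr where
  L := fun k x j => if j = i₀ then x i₀ else if j = iu then 2 ^ lam * (x iu - k.1 * x i₀)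
    else 2 ^ n * (k.2.1 * x i₀ + k.2.2 * x iu + x j)
  lin := fun k x y t i => by
    simp only
    split_ifs <;> ring
  inj := fun k x y h => by
    have p1 : (0 : ℝ) < 2 ^ lam := by positivity
    have p2 : (0 : ℝ) < 2 ^ n := by positivity
    have h0 : x i₀ = y i₀ := by
      have := congrFun h i₀
      simpa using this
    have h1 : x iu = y iu := by
      by_cases hu : iu = i₀
      · rw [hu]; exact h0
      · have h2 := congrFun h iu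
        simp only [if_neg hu, if_true] at h2
        have h3 := mul_left_cancel₀ p1.ne' h2
        rw [h0] at h3
        linarith
    funext j
    by_cases hj : j = i₀
    · rw [hj]; exact h0
    by_cases hj' : j = iu
    · rw [hj']; exact h1
    have h2 := congrFun h j
    simp only [if_neg hj, if_neg hj'] at h2
    have h3 := mul_left_cancel₀ p2.ne' h2
    rw [h0, h1] at h3
    linarith

/-- **Data of a plank zoom**: a plank label on `A`, visible from the points at precision `r` and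
constant on the windows `w` (constant `20`, so that the slope `e` may be changed by `O(1)` if
`lam = 0`). -/
structure PzF {J : ℕ} (F : Fam 3 J) (i₀ iu iN : Fin 3) (r w lam P : ℕ) (y : F.Ω → Pln)
    (A : F.Ω → Prop) : Prop where
  cov : ∀ j : Fin 3, j = i₀ ∨ j = iu ∨ j = iN
  wP : w + lam ≤ P
  rJ : r ≤ J
  inc : ∀ ω, A ω → Inc i₀ iu iN w lam P 20 (y ω) (F.t ω) (F.x ω) (F.d ω)
  vis : ∃ φ : (Fin 3 → ℤ) × (ℕ × F.ζ) → Pln, ∀ ω, A ω → y ω = φ (ptr F r ω)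
  con : ∃ φ : ((Fin 3 → ℝ) × (Fin 3 → ℝ)) × F.ζ × ℕ → Pln, ∀ ω, A ω → y ω = φ (slam F w ω)

theorem PzF.sub {F : Fam 3 J} {i₀ iu iN : Fin 3} {r w lam P : ℕ} {y : F.Ω → Pln}
    {A B : F.Ω → Prop} (h : PzF F i₀ iu iN r w lam P y A) (hB : Sub B A) :
    PzF F i₀ iu iN r w lam P y B := by
  obtain ⟨φ, hφ⟩ := h.vis
  obtain ⟨φ', hφ'⟩ := h.con
  exact ⟨h.cov, h.wP, h.rJ, fun ω hω => h.inc ω (hB ω hω), ⟨φ, fun ω hω => hφ ω (hB ω hω)⟩,
    ⟨φ', fun ω hω => hφ' ω (hB ω hω)⟩⟩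

/-- The velocity in the coordinates of the plank. -/
noncomputable def pv {J : ℕ} (F : Fam 3 J) (i₀ iu : Fin 3) (lam n : ℕ) (y : F.Ω → Pln)
    (ω : F.Ω) : Fin 3 → ℝ := (pkC lam n i₀ iu).L (fr (y ω)) (F.d ω)

end Pool.PZ
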