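import Pool.Agent.H96.PZ.Stmts3

/-!
# The plank zoom: statement of the row PZT (the tail of the zoom)
-/

set_option autoImplicit false

namespace Pool.PZ

open Finset Real
open Pool.Agent.H49.Ent Pool.Agent.H32.Dense Pool.STK Pool.KA Pool.KSAT Pool.K2S Pool.PB Pool.KS6
open Pool.ZCL Pool.S6C

/-- Fullness of the rows up to `p` in all closed labels of the window `w`, on `B`; `v` is the
entropy of the full rows. -/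
def Ful {J : ℕ} (F : Fam 3 J) (w p : ℕ) (v : ℝ) (B : F.Ω → Prop) : Prop :=
  ∀ (Λ : Type) (y : F.Ω → Λ),
    (∃ φ : (Fin 3 → ℤ) × (ℕ × F.ζ) → Λ, ∀ ω, B ω → y ω = φ (Fam.pt F ω)) →
    (∃ ψ : ((Fin 3 → ℝ) × (Fin 3 → ℝ)) × F.ζ × ℕ → Λ, ∀ ω, B ω → y ω = ψ (slam F w ω)) →
    v ≤ CH (Pool.Agent.H49.Ent.cond F.p B True) (F.X p) (fun ω => (y ω, F.W ω))

/-- **(PZT)** The tail of the plank zoom. `x` is the distance of the rows, `d` bounds the rotation,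
`r` is the deficit of the rate; `ε` is the tolerance of the inputs, `y`, `r'` are the resolution and
the deficit of the zoom; `δ` is the cost of the event `A'`, `κ` the error of the tail; `e` is the
time deficit of `B`. -/
def PZTStmt : Prop :=
  ∃ C : ℝ, 1 ≤ C ∧ ∀ x d r : ℝ, 0 < x → 0 ≤ d → 0 < r → ∃ ε y r' : ℝ, 0 < ε ∧ 0 < y ∧ 0 < r' ∧
    ∀ κ δ : ℝ, 0 < κ → 0 < δ → ∃ J₁ : ℕ, ∀ J ≥ J₁, ∀ (F : Fam 3 J) (i₀ iu iN : Fin 3)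
    (r₀ r₁ w₀ l₀ p₀ w₁ l₁ p₁ q k lam : ℕ) (y0 y1 yz : F.Ω → Pln) (A : F.Ω → Prop),
    0 < Pe F.p A →
    -- the labels, and the frames of the zoom
    N2 F i₀ iu iN r₀ r₁ w₀ l₀ p₀ w₁ l₁ p₁ q k y0 y1 A →
    PzF F i₀ iu iN r₀ w₀ lam p₀ yz A →
    (∀ ω, A ω → (yz ω).c = (y0 ω).c ∧ (yz ω).s = (y0 ω).s ∧
      |(yz ω).e - (y0 ω).e| ≤ 2 ^ k / 2 ^ lam) →
    -- the numbers
    |((r₁ : ℝ) - r₀) - x * J| ≤ ε * J → w₀ + r₁ ≤ w₁ + r₀ → (w₁ : ℝ) + r₀ ≤ w₀ + r₁ + ε * J →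
    p₀ ≤ r₀ → p₀ ≤ p₁ → (r₀ : ℝ) ≤ p₀ + ε * J → p₁ ≤ r₁ → (r₁ : ℝ) ≤ p₁ + ε * J →
    (k : ℝ) ≤ ε * J → l₀ ≤ l₁ → (l₁ : ℝ) ≤ l₀ + d * J → lam ≤ l₀ → (l₀ : ℝ) ≤ lam + ε * J →
    w₁ + l₁ ≤ p₀ → (r₀ : ℝ) + (2 * x + d) * J ≤ J →
    -- full rows, and the rate
    (∀ B : F.Ω → Prop, Sub B A → Real.exp (-(δ * J)) * Pe F.p A ≤ Pe F.p B →
      Ful F w₁ p₁ ((2 * (r₁ : ℝ) - 2 * w₁ - l₁) * Real.log 2 - ε * J) B ∧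
      Ful F w₁ p₀ ((2 * (r₀ : ℝ) - 2 * w₁ - l₁) * Real.log 2 - ε * J) B ∧
      CH (Pool.Agent.H49.Ent.cond F.p B True) (F.X r₁) F.W -
        CH (Pool.Agent.H49.Ent.cond F.p B True) (F.X r₀) F.W ≤
        (3 * Real.log 2 - r) * ((r₁ : ℝ) - r₀) + ε * J) →
    ∃ A' : F.Ω → Prop, Sub A' A ∧ Real.exp (-(δ * J)) * Pe F.p A ≤ Pe F.p A' ∧
      ∃ J' : ℕ, y * J ≤ J' ∧ p₀ + J' ≤ J ∧ ∀ (hA : IsLaw (cond F.p A' True)) (h : w₀ + J' ≤ J)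
        (ψ e : ℝ), 0 ≤ ψ → ∀ B : F.Ω → Prop, Sub B A' →
        Real.exp (-(ψ * J)) * Pe F.p A' ≤ Pe F.p B →
        J * Real.log 2 - e ≤ CH (Pool.Agent.H49.Ent.cond F.p B True) F.T
          (fun ω => (F.l ω, F.Z ω)) → ∀ P : ℕ, P ≤ J' →
        CH (Pool.Agent.H49.Ent.cond F.p B True) ((pzG F i₀ iu w₀ lam p₀ J' yz A' hA h).X J')
          (fun ω => ((pzG F i₀ iu w₀ lam p₀ J' yz A' hA h).X P ω,
            (pzG F i₀ iu w₀ lam p₀ J' yz A' hA h).W ω)) ≤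
          (3 * Real.log 2 - r') * ((J' : ℝ) - P) + (C * ψ + κ) * J + e

end Pool.PZ
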