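import Pool.Agent.H96.PZ.Defs

/-!
# The plank zoom: statements of the rows ZSP
-/

set_option autoImplicit false

namespace Pool.PZ

open Finset Real
open Pool.Agent.H49.Ent Pool.Agent.H32.Dense Pool.STK Pool.KA Pool.KSAT Pool.K2S Pool.PB Pool.KS6
open Pool.ZCL

/-! ### Transfer from the zoom to the coordinates (as `zm_plu`) -/

/-- Graphs, tilts and rotation in the zoom, in terms of the velocities in the coordinates. -/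
def ZSTStmt : Prop :=
  ∀ (J : ℕ) (κ : Type) (F : Fam 3 J) (w J' r : ℕ) (h : w + J' ≤ J) (C : Crd 3 κ) (g : F.Ω → κ)
    (B : F.Ω → Prop),
    (∃ φ : (Fin 3 → ℤ) × (ℕ × F.ζ) → Fin 3 → ℤ, ∀ ω, B ω → F.bvl C g ω = φ (ptr F r ω)) →
    (∃ φ : (Fin 3 → ℤ) × (ℕ × F.ζ) → (Fin 3 → ℤ) × (ℕ × (F.zm w J' h C g).ζ),
        ∀ ω, B ω → Fam.pt (F.zm w J' h C g) ω = φ (ptr F r ω)) →
    (∀ (i : Fin 3) (K ρ : ℝ), 0 ≤ K →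
      GrP i K ρ (Fam.pt (F.zm w J' h C g)) (F.zm w J' h C g).d B →
      GrP i K (ρ + (3 * K + 1) / 2 ^ J') (ptr F r) (fun ω => C.L (g ω) (F.d ω)) B) ∧
    (∀ (i₀ iu iN : Fin 3) (K γ ρ : ℝ), 0 ≤ K →
      TiltP i₀ iu iN K γ ρ (Fam.pt (F.zm w J' h C g)) (F.zm w J' h C g).d B →
      TiltP i₀ iu iN K γ (ρ + (2 * K + 1) / 2 ^ J') (ptr F r) (fun ω => C.L (g ω) (F.d ω)) B) ∧
    (∀ (i₀ iu : Fin 3) (K μ : ℝ) (x : ℕ), 0 ≤ K → x ≤ J' →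
      (∃ φ : ((Fin 3 → ℝ) × (Fin 3 → ℝ)) × F.ζ × ℕ → κ, ∀ ω, B ω → g ω = φ (slam F w ω)) →
      RotP i₀ iu K μ (Fam.pt (F.zm w J' h C g)) (slam (F.zm w J' h C g) x)
        (F.zm w J' h C g).d B →
      RotP i₀ iu K (μ + (K + 1) / 2 ^ J') (ptr F r) (slam F (w + x))
        (fun ω => C.L (g ω) (F.d ω)) B)

/-! ### Algebra of the exclusions: `V` are the velocities in the coordinates -/

/-- The fans are near lines: N-straight, or of constant first coordinate, on one half. -/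
def ZS1Stmt : Prop :=
  ∃ C : ℝ, 1 ≤ C ∧ ∀ (Ω U : Type) (_ : Fintype Ω) (p : Ω → ℝ) (_ : IsLaw p) (i₀ iN : Fin 3)
    (pt : Ω → U) (V : Ω → Fin 3 → ℝ) (B : Ω → Prop) (ρ ρ' M : ℝ), 0 ≤ ρ → 0 < ρ' → ρ' ≤ 1 →
    1 ≤ M → (∀ ω ω', B ω → B ω' → pt ω = pt ω' → ∀ j, |V ω j - V ω' j| ≤ M) →
    PlU 1 ρ pt V B →
    ∃ B' : Ω → Prop, Sub B' B ∧ Pe p B ≤ 2 * Pe p B' ∧
      (StP i₀ iN (C * ρ / ρ') pt V B' ∨ CoP i₀ (C * (M * ρ' + ρ)) pt V B')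

/-- The chart `iN` is N-straight. -/
def ZS2Stmt : Prop :=
  ∀ (Ω U : Type) (i₀ iu iN : Fin 3), (∀ j : Fin 3, j = i₀ ∨ j = iu ∨ j = iN) →
    ∀ (pt : Ω → U) (V : Ω → Fin 3 → ℝ) (B : Ω → Prop) (K ρ θ r₁ : ℝ), 0 ≤ K →
    AfP i₀ iu θ r₁ pt V B → GrP iN K ρ pt V B → StP i₀ iN (ρ + K * r₁) pt V B

/-- The chart `i₀` is N-straight, or of constant first coordinate, on one half. -/
def ZS3Stmt : Prop :=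
  ∃ C : ℝ, 1 ≤ C ∧ ∀ (Ω U : Type) (_ : Fintype Ω) (p : Ω → ℝ) (_ : IsLaw p) (i₀ iu iN : Fin 3),
    (∀ j : Fin 3, j = i₀ ∨ j = iu ∨ j = iN) →
    ∀ (pt : Ω → U) (V : Ω → Fin 3 → ℝ) (B : Ω → Prop) (K ρ ρ' θ r₁ M : ℝ), 1 ≤ K → 0 ≤ ρ →
    0 ≤ r₁ → 0 < ρ' → ρ' ≤ 1 → 1 ≤ M → K * θ ≤ 1 / 2 →
    (∀ ω ω', B ω → B ω' → pt ω = pt ω' → ∀ j, |V ω j - V ω' j| ≤ M) →
    AfP i₀ iu θ r₁ pt V B → GrP i₀ K ρ pt V B →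
    ∃ B' : Ω → Prop, Sub B' B ∧ Pe p B ≤ 2 * Pe p B' ∧
      (StP i₀ iN (C * (ρ + K * r₁) / ρ') pt V B' ∨
        CoP i₀ (C * (M * ρ' + ρ + K * r₁)) pt V B')

/-- Tilted fans are N-straight. -/
def ZS4Stmt : Prop :=
  ∀ (Ω U : Type) (i₀ iu iN : Fin 3) (pt : Ω → U) (V : Ω → Fin 3 → ℝ) (B : Ω → Prop)
    (K γ ρ θ r₁ : ℝ), 0 < γ → AfP i₀ iu θ r₁ pt V B → TiltP i₀ iu iN K γ ρ pt V B →
    StP i₀ iN ((ρ + r₁) / γ) pt V B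

/-- The rotation in the plank coordinates gives the rotation of the exact fans. -/
def ZS5Stmt : Prop :=
  ∃ C : ℝ, 1 ≤ C ∧ ∀ (J : ℕ) (F : Fam 3 J) (i₀ iu iN : Fin 3) (r w lam P v : ℕ)
    (y : F.Ω → Pln) (B : F.Ω → Prop) (K μ : ℝ), 1 ≤ K → 0 ≤ μ → μ ≤ 1 → w ≤ v → v ≤ J →
    PzF F i₀ iu iN r w lam P y B →
    RotP i₀ iu K μ (Fam.pt F) (slam F v) (pv F i₀ iu lam (P - w) y) B →
    RotU i₀ (C * K * (μ / 2 ^ lam + 2 ^ w / 2 ^ P)) (C * K * (μ / 2 ^ lam + 2 ^ w / 2 ^ P))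
      (Fam.pt F) (slam F v) F.d B

/-- N-straightness in the coordinates, for the normal form of the plank; `ρ` is multiplied by
`2 ^ w / 2 ^ P`. -/
def ZS6Stmt : Prop :=
  ∀ (J : ℕ) (F : Fam 3 J) (i₀ iu iN : Fin 3), (∀ j : Fin 3, j = i₀ ∨ j = iu ∨ j = iN) →
    ∀ (w lam P : ℕ) (y : F.Ω → Pln) (B : F.Ω → Prop) (ρ : ℝ), w ≤ P →
    StP i₀ iN ρ (Fam.pt F) (pv F i₀ iu lam (P - w) y) B →
    ∃ a b : (Fin 3 → ℤ) × (ℕ × F.ζ) → ℝ, ∀ ω, B ω →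
      |fn i₀ iu iN (y ω).c (y ω).s (F.d ω) - a (Fam.pt F ω) - b (Fam.pt F ω) * F.d ω i₀| ≤
        ρ * 2 ^ w / 2 ^ P

end Pool.PZ
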