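import Pool.Agent.H96.PZ.Main
import Pool.Agent.H4.KS6.PZV
import Pool.Agent.H4.KS6.Pzh
import Pool.Agent.H99.PZ.Pzn
import Pool.Agent.H60.PZ.Pzo
import Pool.Agent.H74.PZ.Zrt
import Pool.Agent.H34.PZ.Pze
import Pool.Agent.H14.PZ.Ext
import Pool.Agent.H36.S6.Act

/-!
# The plank zoom
-/

set_option autoImplicit false

namespace Pool.PZ

open Pool.PB Pool.KSAT Pool.STK Pool.S6C Pool.ZCL

/-- **PZ** (the plank zoom), from the U-step. -/
theorem pz_thm (hUV : UVStmt) (hSTP : ∀ S : FCl 3, SPS S 1 → STP S)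
    (hSLP : ∀ S : FCl 3, SPS S 1 → SLP S) : PZStmt :=
  pz_of act_stmt (pzo_thm zrt_thm) Pool.ZT.pzt_thm pzn_thm (fvb_thm hUV) (pzh_thm ext_thm)
    pze_thm hSTP hSLP

end Pool.PZ
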