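import Pool.Agent.H96.PZ.Exc

/-!
# The frames of the zoom
-/

set_option autoImplicit false

namespace Pool.PZ

open Finset Real
open Pool.Agent.H49.Ent Pool.Agent.H32.Dense Pool.STK Pool.KA Pool.KSAT Pool.K2S Pool.PB Pool.KS6
open Pool.ZCL Pool.S6C

theorem cov_ne0 {i₀ iu iN : Fin 3} (h : ∀ j : Fin 3, j = i₀ ∨ j = iu ∨ j = iN) :
    iu ≠ i₀ := by
  revert h
  revert i₀ iu iN
  decide

/-- Change of the slope of the plank by `O(1)`, without rotation. -/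
theorem inc_slope {i₀ iu iN : Fin 3} {w l P : ℕ} {y : Pln} {t : ℝ} {x d : Fin 3 → ℝ}
    (h : Inc i₀ iu iN w l P 2 y t x d) {e : ℝ} (he : |e| ≤ 2) :
    Inc i₀ iu iN w 0 P 20 { y with e := e } t x d := by
  have h0 := incC h (by norm_num) (le_refl (2 : ℝ)) (Nat.zero_le l)
  have hd : |e - y.e| ≤ 4 := (abs_sub _ _).trans (by linarith [h.e_le])
  have p1 : (0 : ℝ) < 1 / 2 ^ w := by positivity
  have p2 : (0 : ℝ) < 1 / 2 ^ P := by positivity
  have pe := h0.pe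
  have pu := h0.pu
  have ve := h0.ve
  have vu := h0.vu
  refine ⟨he, h.c_le, h.s_le, ?_, ?_, ?_, ?_, ?_, ?_⟩
  · refine pe.trans ?_
    exact div_le_div_of_nonneg_right (by norm_num) (by positivity)
  · have e1 : fu i₀ iu e x - fu i₀ iu e (fun i => y.xb i + t * y.db i) =
        (fu i₀ iu y.e x - fu i₀ iu y.e (fun i => y.xb i + t * y.db i)) -
          (e - y.e) * (x i₀ - (y.xb i₀ + t * y.db i₀)) := by
      unfold fu
      ring
    change |fu i₀ iu e x - fu i₀ iu e (fun i => y.xb i + t * y.db i)| ≤ 20 / 2 ^ (w + 0)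
    rw [e1, add_zero]
    rw [add_zero] at pu
    refine (abs_sub _ _).trans ?_
    rw [abs_mul]
    have e2 : |e - y.e| * |x i₀ - (y.xb i₀ + t * y.db i₀)| ≤ 4 * (2 / 2 ^ w) :=
      mul_le_mul hd pe (abs_nonneg _) (by norm_num)
    have e3 : (20 : ℝ) / 2 ^ w = 20 * (1 / 2 ^ w) := by ring
    have e4 : (2 : ℝ) / 2 ^ w = 2 * (1 / 2 ^ w) := by ring
    rw [e3]
    rw [e4] at e2 pu
    linarith
  · refine h0.pn.trans ?_
    exact div_le_div_of_nonneg_right (by norm_num) (by positivity)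
  · exact ve.trans (by norm_num)
  · have e1 : fu i₀ iu e d - fu i₀ iu e y.db = (fu i₀ iu y.e d - fu i₀ iu y.e y.db) -
        (e - y.e) * (d i₀ - y.db i₀) := by
      unfold fu
      ring
    change |fu i₀ iu e d - fu i₀ iu e y.db| ≤ 20 / 2 ^ 0
    rw [e1]
    refine (abs_sub _ _).trans ?_
    rw [abs_mul]
    have e2 : |e - y.e| * |d i₀ - y.db i₀| ≤ 4 * 2 := mul_le_mul hd ve (abs_nonneg _) (by norm_num)
    norm_num at vu ⊢
    linarith
  · refine h0.vn.trans ?_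
    exact div_le_div_of_nonneg_right (mul_le_mul_of_nonneg_right (by norm_num) (by positivity))
      (by positivity)

/-- **The frames of the zoom.** -/
theorem frame_ch {J : ℕ} {F : Fam 3 J} {i₀ iu iN : Fin 3}
    {r₀ r₁ w₀ l₀ p₀ w₁ l₁ p₁ q k : ℕ} {y0 y1 : F.Ω → Pln} {A : F.Ω → Prop} (hk : 2 ≤ k)
    (h : N2 F i₀ iu iN r₀ r₁ w₀ l₀ p₀ w₁ l₁ p₁ q k y0 y1 A) :
    ∃ (lam : ℕ) (yz : F.Ω → Pln) (A₁ : F.Ω → Prop), Sub A₁ A ∧ Pe F.p A ≤ 97 * Pe F.p A₁ ∧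
      lam ≤ l₀ ∧ l₀ ≤ lam + (k + 6) ∧ PzF F i₀ iu iN r₀ w₀ lam p₀ yz A₁ ∧
      Slo F i₀ iu lam q yz A₁ ∧ ∀ ω, A₁ ω → (yz ω).c = (y0 ω).c ∧ (yz ω).s = (y0 ω).s ∧
        |(yz ω).e - (y0 ω).e| ≤ 2 ^ k / 2 ^ lam := by
  classical
  have hPe := Pe_nonneg F.isLaw A
  obtain ⟨α, ν, hsl⟩ := h.sl
  rcases le_or_gt (k + 6) l₀ with hl | hl
  · -- rotation
    obtain ⟨lam, hlam⟩ := Nat.exists_eq_add_of_le hl
    have hz0 := h.z0
    refine ⟨lam, y0, A, fun _ h => h, by linarith, by omega, by omega, ?_, ⟨α, ν, ?_⟩, ?_⟩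
    · exact ⟨h.cov, by have := h.wP; omega, h.rJ, fun ω hω => incC (h.i0 ω hω) (by norm_num)
        (by norm_num) (by omega), h.v0, h.c0⟩
    · intro ω hω
      obtain ⟨h1, h2, h3⟩ := hsl ω hω
      refine ⟨h1, h3.trans ?_⟩
      rw [hlam, pow_add, pow_add, div_le_div_iff₀ (by positivity) (by positivity)]
      have p1 : (0 : ℝ) < 2 ^ k * 2 ^ lam := by positivity
      nlinarith
    · intro ω hω
      refine ⟨rfl, rfl, ?_⟩
      rw [sub_self, abs_zero]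
      positivity
  · -- no rotation
    obtain ⟨f, hf⟩ : ∃ f : F.Ω → ℤ, f = fun ω => ⌊24 * ν (Fam.pt F ω)⌋ := ⟨_, rfl⟩
    obtain ⟨κ, hκ⟩ : ∃ κ : F.Ω → Fin 97, κ = fun ω =>
        ⟨min 96 (f ω + 48).toNat, by omega⟩ := ⟨_, rfl⟩
    obtain ⟨-, j₀, hj₀⟩ := Pe_pigeon F.isLaw κ A
    obtain ⟨e, he⟩ : ∃ e : ℝ, e = ((j₀ : ℕ) : ℝ) / 24 - 2 := ⟨_, rfl⟩
    have hj1 : ((j₀ : ℕ) : ℝ) ≤ 96 := by
      have : (j₀ : ℕ) ≤ 96 := by omega
      exact_mod_cast this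
    have hj0 : (0 : ℝ) ≤ ((j₀ : ℕ) : ℝ) := Nat.cast_nonneg _
    have he2 : |e| ≤ 2 := by
      rw [he, abs_le]
      constructor <;> linarith
    -- the slopes
    have hνe : ∀ ω, κ ω = j₀ → A ω → |ν (Fam.pt F ω) - e| ≤ 1 / 24 := by
      intro ω h1 hω
      obtain ⟨-, h2, -⟩ := hsl ω hω
      rw [abs_le] at h2
      have f1 := Int.floor_le (24 * ν (Fam.pt F ω))
      have f2 := Int.lt_floor_add_one (24 * ν (Fam.pt F ω))
      have g1 : (-48 : ℤ) ≤ f ω := by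
        rw [hf]
        refine Int.le_floor.2 ?_
        push_cast
        linarith [h2.1]
      have g2 : f ω ≤ 48 := by
        rw [hf]
        have : ((⌊24 * ν (Fam.pt F ω)⌋ : ℤ) : ℝ) < ((49 : ℤ) : ℝ) := by
          push_cast
          linarith [h2.2]
        have h7 : ⌊24 * ν (Fam.pt F ω)⌋ < 49 := Int.cast_lt.1 this
        beta_reduce
        omega
      have h3 : ((κ ω : Fin 97) : ℕ) = (j₀ : ℕ) := by rw [h1]
      rw [hκ] at h3
      simp only at h3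
      have h4 : ((j₀ : ℕ) : ℤ) = f ω + 48 := by omega
      have h5 : ((j₀ : ℕ) : ℝ) = (f ω : ℝ) + 48 := by exact_mod_cast h4
      rw [he, h5]
      have h6 : (f ω : ℝ) = (⌊24 * ν (Fam.pt F ω)⌋ : ℝ) := by rw [hf]
      rw [h6, abs_le]
      constructor <;> linarith
    refine ⟨0, fun ω => { y0 ω with e := e }, fun ω => κ ω = j₀ ∧ A ω, fun ω hω => hω.2, ?_,
      Nat.zero_le _, by omega, ?_, ⟨α, ν, ?_⟩, ?_⟩
    · have : ((97 : ℕ) : ℝ) = 97 := by norm_num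
      rw [this] at hj₀
      rw [div_le_iff₀ (by norm_num)] at hj₀
      linarith
    · refine ⟨h.cov, by have := h.wP; omega, h.rJ, fun ω hω => inc_slope (h.i0 ω hω.2) he2, ?_, ?_⟩
      · obtain ⟨φ, hφ⟩ := h.v0
        exact ⟨fun u => { φ u with e := e }, fun ω hω => by rw [hφ ω hω.2]⟩
      · obtain ⟨φ, hφ⟩ := h.c0
        exact ⟨fun u => { φ u with e := e }, fun ω hω => by rw [hφ ω hω.2]⟩
    · intro ω hω
      refine ⟨(hsl ω hω.2).1, ?_⟩
      have := hνe ω hω.1 hω.2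
      simpa using this
    · intro ω hω
      refine ⟨rfl, rfl, ?_⟩
      change |e - (y0 ω).e| ≤ 2 ^ k / 2 ^ 0
      have h1 := (h.i0 ω hω.2).e_le
      have h2 : (2 : ℝ) ^ 2 ≤ 2 ^ k := pow_le_pow_right₀ (by norm_num) hk
      norm_num at h2 ⊢
      exact (abs_sub _ _).trans (by linarith)

end Pool.PZ
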