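import Pool.Agent.H96.PZ.Nm
import Pool.Agent.H96.PZ.Frame
import Pool.Agent.H50.K2.Piece

/-!
# Auxiliary lemmas for the assembly of the plank zoom
-/

set_option autoImplicit false

namespace Pool.PZ

open Finset Real
open Pool.Agent.H49.Ent Pool.Agent.H32.Dense Pool.STK Pool.KA Pool.KSAT Pool.K2S Pool.PB Pool.KS6
open Pool.ZCL Pool.S6C

/-- Conditioning twice. -/
theorem cond2 {Ω : Type} [Fintype Ω] {p : Ω → ℝ} {A B : Ω → Prop} (hA : Pe p A ≠ 0) :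
    cond (cond p A True) B True = cond p (fun ω => B ω ∧ A ω) True := by
  have h1 := Piece.cond_inter (p := p) (A := A) (B := B) hA
  rw [h1]
  congr 1
  funext ω
  exact propext and_comm

theorem cond_pos_of {Ω : Type} [Fintype Ω] {p : Ω → ℝ} {A : Ω → Prop} {ω : Ω}
    (h : 0 < cond p A True ω) : A ω := by
  classical
  by_contra hA
  unfold Pool.Agent.H49.Ent.cond at h
  rw [if_neg (fun h => hA (of_eq_true h))] at h
  exact lt_irrefl _ h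

/-- Parts of bounded proportion. -/
theorem st_part {S : PCl 3} {τ κ C : ℝ} {J : ℕ} {F : Fam 3 J} {A B : F.Ω → Prop} (hκ : 0 ≤ κ)
    (hC : 0 < C) (hS : S.St τ J F A) (hB : Sub B A) (hP : Pe F.p A ≤ C * Pe F.p B)
    (hJ : Real.exp (-(κ * (J : ℕ))) ≤ 1 / C) : S.St (τ + κ) J F B := by
  refine S.res hκ hS hB ?_
  calc Real.exp (-(κ * J)) * Pe F.p A ≤ 1 / C * (C * Pe F.p B) :=
        mul_le_mul hJ hP (Pe_nonneg F.isLaw A) (by positivity)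
    _ = Pe F.p B := by field_simp

theorem PzF.row {J : ℕ} {F : Fam 3 J} {i₀ iu iN : Fin 3} {r w lam P : ℕ} {y : F.Ω → Pln}
    {A : F.Ω → Prop} (h : PzF F i₀ iu iN r w lam P y A) : PzF F i₀ iu iN J w lam P y A := by
  obtain ⟨φ, hφ⟩ := h.vis
  obtain ⟨χ, hχ⟩ := ptq_coarse F h.rJ
  refine ⟨h.cov, h.wP, le_rfl, h.inc, ⟨fun u => φ (χ u), fun ω hω => ?_⟩, h.con⟩
  have h1 : ptr F r ω = χ (ptr F J ω) := hχ ω
  rw [hφ ω hω, h1]

theorem Slo.sub {J : ℕ} {F : Fam 3 J} {i₀ iu : Fin 3} {lam q : ℕ} {y : F.Ω → Pln}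
    {A B : F.Ω → Prop} (h : Slo F i₀ iu lam q y A) (hB : Sub B A) : Slo F i₀ iu lam q y B := by
  obtain ⟨α, ν, h⟩ := h
  exact ⟨α, ν, fun ω hω => h ω (hB ω hω)⟩

theorem N2.sub {J : ℕ} {F : Fam 3 J} {i₀ iu iN : Fin 3}
    {r₀ r₁ w₀ l₀ p₀ w₁ l₁ p₁ q k : ℕ} {y0 y1 : F.Ω → Pln} {A B : F.Ω → Prop}
    (h : N2 F i₀ iu iN r₀ r₁ w₀ l₀ p₀ w₁ l₁ p₁ q k y0 y1 A) (hB : Sub B A) :
    N2 F i₀ iu iN r₀ r₁ w₀ l₀ p₀ w₁ l₁ p₁ q k y0 y1 B := by
  obtain ⟨φ0, h0⟩ := h.v0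
  obtain ⟨ψ0, k0⟩ := h.c0
  obtain ⟨φ1, h1⟩ := h.v1
  obtain ⟨ψ1, k1⟩ := h.c1
  obtain ⟨α, ν, hs⟩ := h.sl
  exact ⟨h.cov, h.wP, h.rJ, fun ω hω => h.i0 ω (hB ω hω), ⟨φ0, fun ω hω => h0 ω (hB ω hω)⟩,
    ⟨ψ0, fun ω hω => k0 ω (hB ω hω)⟩, fun ω hω => h.i1 ω (hB ω hω),
    ⟨φ1, fun ω hω => h1 ω (hB ω hω)⟩, ⟨ψ1, fun ω hω => k1 ω (hB ω hω)⟩,
    fun ω hω => h.n1e ω (hB ω hω), fun ω hω => h.n1s ω (hB ω hω),
    fun ω hω => h.n1c ω (hB ω hω), ⟨α, ν, fun ω hω => hs ω (hB ω hω)⟩⟩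

/-- The straightness of the fans bounds `sN` from below. -/
theorem pi_le_sN {S : PCl 3} {a R h₁ : ℝ} {i₀ : Fin 3} {c s₂ : ℝ} {r : ℝ → ℝ} {D : Set ℝ}
    {σ : ℝ → Row} (hC : Cs S a R h₁ i₀ c s₂ r D σ) {K : Set ℝ} {W : ℝ → ℝ} {v₁ t : ℚ} {e₁ : ℝ}
    (hA : Adm σ K W v₁ t e₁) (hv0 : 0 ≤ v₁) : (σ 1).pi ≤ (σ 1).sN v₁ t := by
  have hR1 := hC.row 1 one_pos le_rfl hC.D1
  have ht0 : 0 ≤ t := hA.t0.le
  have ht1 := t1_of_adm hC hA hv0
  have hN := hC.sN v₁ t hv0 hA.v1.le ht0 ht1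
  have hpi1 : (σ 1).pi ≤ 1 := num_le_cap hC.ne zero_le_one hR1.pi
  refine le_of_forall_pos_le_add fun h hh => ?_
  have key : (σ 1).pi - h ≤ (σ 1).sN v₁ t := by
    refine PNum.att hC.ne (fun s J F => capS_hered (fun g J F => qSN_hered _ _ _ _ _ _) s J F) hN
      fun δ hδ => ?_
    have c1 := hR1.pi.1 (h / 2) (half_pos hh)
    have c2 := lab_clp hC hv0 hA.v1.le (t := t) (by exact_mod_cast ht0) hA.lt
    obtain ⟨J₂, hJ₂⟩ := exists_nat_gt (10 / h)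
    refine Clp.mono (J₂ := J₂) (c1.and c2) ?_
    rintro J hJ F A ⟨d1, iu, iN, hi, y, hI, ⟨φ, hφ⟩, ψ, hψ⟩
    have hJr : 10 / h < J := hJ₂.trans_le (by exact_mod_cast hJ)
    rw [div_lt_iff₀ hh] at hJr
    refine ⟨A, fun _ h => h, ?_, ?_⟩
    · have : Real.exp (-(δ * J)) ≤ 1 := by
        rw [Real.exp_le_one_iff]
        have : 0 ≤ δ * J := by positivity
        linarith
      calc _ ≤ 1 * Pe F.p A := mul_le_mul_of_nonneg_right this (Pe_nonneg F.isLaw A)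
        _ = _ := one_mul _
    · rcases le_or_gt ((σ 1).pi - h) 0 with h0 | h0
      · exact Or.inl h0
      rcases d1 with d1 | ⟨-, e, n, hL⟩
      · linarith
      rw [ptq_one F] at hL
      refine Or.inr ⟨by linarith, iu, iN, hi, y, hI, ⟨φ, hφ⟩, ⟨ψ, hψ⟩,
        fun u => (φ u).s * n u iu + n u iN,
        fun u => (φ u).c + (φ u).s * e u iu + e u iN, fun ω hω => ?_⟩
      have hpt : Fam.pt F ω = ptq F J ω := rfl
      have a1 := hL ω hω iu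
      have a2 := hL ω hω iN
      rw [hpt] at a1 a2
      have hs := (hI ω hω).s_le
      beta_reduce
      rw [← hφ ω hω]
      have e1 : fn i₀ iu iN (y ω).c (y ω).s (F.d ω) - ((y ω).s * n (ptq F J ω) iu +
          n (ptq F J ω) iN) - ((y ω).c + (y ω).s * e (ptq F J ω) iu + e (ptq F J ω) iN) * F.d ω i₀ =
          (y ω).s * (F.d ω iu - e (ptq F J ω) iu * F.d ω i₀ - n (ptq F J ω) iu) +
            (F.d ω iN - e (ptq F J ω) iN * F.d ω i₀ - n (ptq F J ω) iN) := by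
        unfold fn
        ring
      rw [e1]
      obtain ⟨q, hq⟩ : ∃ q, q = ⌊((σ 1).pi - h / 2) * (J : ℝ)⌋₊ := ⟨_, rfl⟩
      obtain ⟨q', hq'⟩ : ∃ q, q = ⌊((σ 1).pi - h) * (J : ℝ)⌋₊ := ⟨_, rfl⟩
      rw [← hq] at a1 a2
      rw [← hq']
      have f1 : ((σ 1).pi - h / 2) * J < q + 1 := by rw [hq]; exact Nat.lt_floor_add_one _
      have f2 : (q' : ℝ) ≤ ((σ 1).pi - h) * J := by
        rw [hq']
        exact Nat.floor_le (by positivity)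
      have f3 : q' + 3 ≤ q := by
        have : ((q' + 3 : ℕ) : ℝ) < ((q + 1 : ℕ) : ℝ) := by
          push_cast
          nlinarith
        have := Nat.cast_lt.1 this
        omega
      have f4 : (1 : ℝ) / 2 ^ q ≤ 1 / 2 ^ q' / 8 := by
        have g1 : (1 : ℝ) / 2 ^ q ≤ 1 / 2 ^ (q' + 3) :=
          one_div_le_one_div_of_le (by positivity) (pow_le_pow_right₀ (by norm_num) f3)
        refine g1.trans (le_of_eq ?_)
        rw [pow_add]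
        field_simp
        norm_num
      have f5 : (0 : ℝ) < 1 / 2 ^ q' := by positivity
      refine (abs_add_le _ _).trans ?_
      rw [abs_mul]
      have a3 : |(y ω).s| * |F.d ω iu - e (ptq F J ω) iu * F.d ω i₀ - n (ptq F J ω) iu| ≤
          4 * (1 / 2 ^ q) := mul_le_mul hs a1 (abs_nonneg _) (by norm_num)
      linarith
  linarith

end Pool.PZ
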