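import Pool.Agent.H96.PZ.Stmts3
import Pool.Agent.H80.KS6.Epl

/-!
# The exclusions for the plank zoom, base form
-/

set_option autoImplicit false

namespace Pool.PZ

open Finset Real
open Pool.Agent.H49.Ent Pool.Agent.H32.Dense Pool.STK Pool.KA Pool.KSAT Pool.K2S Pool.PB Pool.KS6
open Pool.ZCL Pool.S6C

/-- Data of the zoom of one family: `y0` is the plank label, `yz` is the same with a changed
slope. -/
structure ZD {J : ℕ} (F : Fam 3 J) (i₀ iu iN : Fin 3) (w lam P q J' : ℕ) (y0 yz : F.Ω → Pln)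
    (A : F.Ω → Prop) : Prop where
  pz : PzF F i₀ iu iN J w lam P yz A
  slo : Slo F i₀ iu lam q yz A
  cs : ∀ ω, A ω → (yz ω).c = (y0 ω).c ∧ (yz ω).s = (y0 ω).s
  inc : ∀ ω, A ω → Inc i₀ iu iN w 0 P 2 (y0 ω) (F.t ω) (F.x ω) (F.d ω)
  vis : ∃ φ : (Fin 3 → ℤ) × (ℕ × F.ζ) → Pln, ∀ ω, A ω → y0 ω = φ (ptq F J ω)
  con : ∃ ψ : ((Fin 3 → ℝ) × (Fin 3 → ℝ)) × F.ζ × ℕ → Pln, ∀ ω, A ω → y0 ω = ψ (slam F w ω)
  room : P + J' ≤ J
  lq : lam ≤ q

/-- The event of the zoom, in the family. -/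
theorem pe_zoom {Ω : Type} [Fintype Ω] {p : Ω → ℝ} (hp : IsLaw p) {A B : Ω → Prop} {x : ℝ}
    (hx : x ≤ Pe (cond p A True) B) : x * Pe p A ≤ Pe p (fun ω => B ω ∧ A ω) := by
  have h1 := Pool.K2S.Pe_cond (p := p) (A := A) B
  have h2 := Pe_nonneg hp A
  have h3 : Pe p (fun ω => A ω ∧ B ω) = Pe p (fun ω => B ω ∧ A ω) := by
    congr 1
    funext ω
    exact propext and_comm
  rcases eq_or_lt_of_le h2 with h4 | h4
  · rw [← h4, mul_zero]
    exact Pe_nonneg hp _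
  · rw [h1, h3, le_div_iff₀ h4] at hx
    exact hx

theorem pow_bd (C : ℝ) : ∃ K : ℕ, C ≤ 2 ^ K := by
  obtain ⟨K, hK⟩ := pow_unbounded_of_one_lt C (one_lt_two : (1 : ℝ) < 2)
  exact ⟨K, hK.le⟩

/-- Numerical bounds. -/
theorem num_exc {C : ℝ} (hC : 1 ≤ C) {a : ℝ} (ha : 0 < a) : ∃ J₁ : ℕ, ∀ J ≥ J₁,
    ∀ (s : ℝ) (A R Q n w P : ℕ), 0 ≤ s → a * J - 1 ≤ A → (A : ℝ) + (7 * a * J - 1) ≤ R →
    (A : ℝ) + (7 * a * J - 1) ≤ Q → (s - a) * J ≤ n → w + n = P →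
    C * ((1 / 2 ^ R + 1 / 2 ^ Q) / (1 / 2 ^ A)) * (2 ^ w / 2 ^ P) ≤
      1 / (2 : ℝ) ^ ⌊(s + a / 2) * J⌋₊ ∧
    C * (1 / 2 ^ A + 1 / 2 ^ R + 1 / 2 ^ Q) ≤ 1 / (2 : ℝ) ^ ⌊a / 2 * J⌋₊ := by
  obtain ⟨K, hK⟩ := pow_bd C
  obtain ⟨J₁, hJ₁⟩ := exists_nat_gt ((2 * K + 20) / a)
  refine ⟨J₁, fun J hJ s A R Q n w P hs hA hR hQ hn hP => ?_⟩
  have hJr : (2 * K + 20) / a < J := hJ₁.trans_le (by exact_mod_cast hJ)
  rw [div_lt_iff₀ ha] at hJr
  have hJ0 : (0 : ℝ) ≤ J := Nat.cast_nonneg J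
  have hK0 : (0 : ℝ) ≤ K := Nat.cast_nonneg K
  have haJ : 2 * (K : ℝ) + 20 < a * J := by linarith only [hJr]
  have f1 : ((⌊(s + a / 2) * J⌋₊ : ℕ) : ℝ) ≤ (s + a / 2) * J := Nat.floor_le (by positivity)
  have f2 : ((⌊a / 2 * (J : ℝ)⌋₊ : ℕ) : ℝ) ≤ a / 2 * J := Nat.floor_le (by positivity)
  obtain ⟨G, hG⟩ : ∃ G, G = ⌊(s + a / 2) * (J : ℝ)⌋₊ := ⟨_, rfl⟩
  obtain ⟨H, hH⟩ : ∃ H, H = ⌊a / 2 * (J : ℝ)⌋₊ := ⟨_, rfl⟩
  rw [← hG] at f1 ⊢
  rw [← hH] at f2 ⊢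
  have n1 : G + K + 1 + A ≤ R + n := by
    have : ((G + K + 1 + A : ℕ) : ℝ) ≤ ((R + n : ℕ) : ℝ) := by
      push_cast
      nlinarith only [hR, hn, hJr, f1]
    exact_mod_cast this
  have n2 : G + K + 1 + A ≤ Q + n := by
    have : ((G + K + 1 + A : ℕ) : ℝ) ≤ ((Q + n : ℕ) : ℝ) := by
      push_cast
      nlinarith only [hQ, hn, hJr, f1]
    exact_mod_cast this
  have m1 : H + K + 2 ≤ A := by
    have : ((H + K + 2 : ℕ) : ℝ) ≤ (A : ℝ) := by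
      push_cast
      nlinarith only [hA, hJr, f2]
    exact_mod_cast this
  have m2 : H + K + 2 ≤ R := by
    have : ((H + K + 2 : ℕ) : ℝ) ≤ (R : ℝ) := by
      push_cast
      nlinarith only [hA, hR, hJr, f2]
    exact_mod_cast this
  have m3 : H + K + 2 ≤ Q := by
    have : ((H + K + 2 : ℕ) : ℝ) ≤ (Q : ℝ) := by
      push_cast
      nlinarith only [hA, hQ, hJr, f2]
    exact_mod_cast this
  have hp2 : ∀ {k l : ℕ}, k ≤ l → (1 : ℝ) / 2 ^ l ≤ 1 / 2 ^ k := fun h =>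
    one_div_le_one_div_of_le (by positivity) (pow_le_pow_right₀ (by norm_num) h)
  constructor
  · have e0 : (2 : ℝ) ^ w / 2 ^ P = 1 / 2 ^ n := by
      rw [← hP, pow_add]
      field_simp
    rw [e0]
    have key : ∀ X : ℕ, G + K + 1 + A ≤ X + n →
        (2 : ℝ) ^ K * ((1 / 2 ^ X) / (1 / 2 ^ A)) * (1 / 2 ^ n) ≤ 1 / 2 ^ G / 2 := by
      intro X hX
      have e1 : (2 : ℝ) ^ K * ((1 / 2 ^ X) / (1 / 2 ^ A)) * (1 / 2 ^ n) =
          2 ^ (K + A) * (1 / 2 ^ (X + n)) := by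
        rw [pow_add, pow_add]
        field_simp
      have e2 := hp2 hX
      rw [e1]
      calc (2 : ℝ) ^ (K + A) * (1 / 2 ^ (X + n)) ≤ 2 ^ (K + A) * (1 / 2 ^ (G + K + 1 + A)) :=
            mul_le_mul_of_nonneg_left e2 (by positivity)
        _ = 1 / 2 ^ G / 2 := by
            rw [show G + K + 1 + A = (K + A) + G + 1 by ring, pow_add _ _ 1, pow_add _ (K + A) G,
              pow_one]
            field_simp
    have k1 := key R n1
    have k2 := key Q n2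
    have e3 : C * ((1 / 2 ^ R + 1 / 2 ^ Q) / (1 / 2 ^ A)) * (1 / 2 ^ n) ≤
        2 ^ K * ((1 / 2 ^ R + 1 / 2 ^ Q) / (1 / (2 : ℝ) ^ A)) * (1 / 2 ^ n) := by
      have : (0 : ℝ) ≤ (1 / 2 ^ R + 1 / 2 ^ Q) / (1 / (2 : ℝ) ^ A) := by positivity
      exact mul_le_mul_of_nonneg_right (mul_le_mul_of_nonneg_right hK this) (by positivity)
    refine e3.trans ?_
    have e4 : (2 : ℝ) ^ K * ((1 / 2 ^ R + 1 / 2 ^ Q) / (1 / (2 : ℝ) ^ A)) * (1 / 2 ^ n) =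
        2 ^ K * ((1 / 2 ^ R) / (1 / 2 ^ A)) * (1 / 2 ^ n) +
          2 ^ K * ((1 / 2 ^ Q) / (1 / 2 ^ A)) * (1 / 2 ^ n) := by ring
    rw [e4]
    linarith only [k1, k2]
  · have k1 := hp2 m1
    have k2 := hp2 m2
    have k3 := hp2 m3
    have e5 : (1 : ℝ) / 2 ^ (H + K + 2) = 1 / 2 ^ H / (4 * 2 ^ K) := by
      rw [pow_add, pow_add]
      field_simp
      norm_num
    have e6 : (0 : ℝ) < 1 / 2 ^ H := by positivity
    calc C * (1 / 2 ^ A + 1 / 2 ^ R + 1 / 2 ^ Q) ≤ 2 ^ K * (3 * (1 / 2 ^ (H + K + 2))) :=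
          mul_le_mul hK (by linarith only [k1, k2, k3]) (by positivity) (by positivity)
      _ = 3 / 4 * (1 / 2 ^ H) := by
          rw [e5]
          field_simp
      _ ≤ 1 / 2 ^ H := by linarith only [e6]

theorem CoP.mono {Ω U : Type} {i₀ : Fin 3} {ρ ρ' : ℝ} {pt : Ω → U} {d : Ω → Fin 3 → ℝ}
    {B : Ω → Prop} (h : CoP i₀ ρ pt d B) (hρ : ρ ≤ ρ') : CoP i₀ ρ' pt d B := by
  obtain ⟨a, ha⟩ := h
  exact ⟨a, fun ω hω => (ha ω hω).trans hρ⟩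

/-- **The exclusions**, base form. The freedom `ψ` and the tolerance `e` depend on the class, on `y`
and on `i` only. -/
theorem ex_bas (hE : EXTStmt) (hN : NSXStmt) (hB : BLXStmt) {S : PCl 3} {a₀ R₀ h₁ : ℝ}
    {i₀ : Fin 3} {c s₂ : ℝ} {r : ℝ → ℝ} {D : Set ℝ} {σ : ℝ → Row}
    (hC : Cs S a₀ R₀ h₁ i₀ c s₂ r D σ) {K : Set ℝ} {W : ℝ → ℝ} {v₁ t : ℚ} {e₁ : ℝ}
    (hA : Adm σ K W v₁ t e₁) (hv0 : 0 ≤ v₁) (hs1 : (σ 1).sN v₁ t < 1)
    (hst : (σ 1).sN v₁ t < t - v₁ + e₁) (hs0 : 0 ≤ (σ 1).sN v₁ t) {y g h β : ℝ} (hy : 0 < y)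
    (hg : 0 < g) (hh : h = 2 * g) (hh1 : h ≤ 1 / 2) (hgβ : g ≤ β / 8) (hβ : 0 < β) (i : ℕ) :
    ∃ e > 0, ∃ ψ > 0, ∃ J₁ : ℕ, ∀ J ≥ J₁, ∀ (F : Fam 3 J) (A : F.Ω → Prop), S.St ψ J F A →
    LineU i₀ (1 / 2 ^ ⌊((σ 1).pi - e) * J⌋₊) (Fam.pt F) F.d A →
    (∃ iu' iN' : Fin 3, (∀ j : Fin 3, j = i₀ ∨ j = iu' ∨ j = iN') ∧
      LABq F J i₀ iu' iN' ⌊(v₁ : ℝ) * J⌋₊ 0 ⌊(t : ℝ) * J⌋₊ 2 A) →
    ∀ (iu iN : Fin 3) (w lam P q J' : ℕ) (y0 yz : F.Ω → Pln),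
    ZD F i₀ iu iN w lam P q J' y0 yz A → w ≤ ⌊(v₁ : ℝ) * J⌋₊ →
    ((σ 1).sN v₁ t - e) * J ≤ (P : ℝ) - w → β / 2 * J + lam ≤ q → y * J ≤ J' →
    ∀ (hA : IsLaw (cond F.p A True)) (h' : w + J' ≤ J) (B : F.Ω → Prop),
    Real.exp (-(3 * ψ * J')) ≤ Pe (cond F.p A True) B →
    ¬ PlU 1 (1 / 2 ^ ⌊1 / ((i : ℝ) + 1) * J'⌋₊) (Fam.pt (pzG F i₀ iu w lam P J' yz A hA h'))
        (pzG F i₀ iu w lam P J' yz A hA h').d B ∧
      ¬ BadC i₀ (1 / ((i : ℝ) + 1)) J' (pzG F i₀ iu w lam P J' yz A hA h') B ∧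
      ¬ BadC iN (1 / ((i : ℝ) + 1)) J' (pzG F i₀ iu w lam P J' yz A hA h') B ∧
      ¬ Tilt i₀ iu iN g h J' (pzG F i₀ iu w lam P J' yz A hA h') B := by
  obtain ⟨C, hC1, hEX⟩ := hE
  obtain ⟨a, haE⟩ : ∃ a, a = min (min (y / (8 * ((i : ℝ) + 1))) (g * y / 8)) (min (β / 32) e₁) :=
    ⟨_, rfl⟩
  have hi0 : (0 : ℝ) < (i : ℝ) + 1 := by positivity
  have ha0 : 0 < a := by
    rw [haE]
    exact lt_min (lt_min (by positivity) (by positivity)) (lt_min (by positivity) hA.e0)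
  have ha1 : a ≤ y / (8 * ((i : ℝ) + 1)) := by
    rw [haE]; exact (min_le_left _ _).trans (min_le_left _ _)
  have ha2 : a ≤ g * y / 8 := by
    rw [haE]; exact (min_le_left _ _).trans (min_le_right _ _)
  have ha3 : a ≤ β / 32 := by
    rw [haE]; exact (min_le_right _ _).trans (min_le_left _ _)
  have ha4 : a ≤ e₁ := by
    rw [haE]; exact (min_le_right _ _).trans (min_le_right _ _)
  obtain ⟨e', he', τN, hτN, JN, hNS⟩ := hN S a₀ R₀ h₁ i₀ c s₂ r D σ hC K W v₁ t e₁ hA hv0 hs1 hst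
    (a / 2) (by positivity)
  obtain ⟨τB, hτB, JB, hBL⟩ := hB S a₀ R₀ h₁ i₀ c s₂ r D σ hC (a / 2) (by positivity)
  obtain ⟨ψ, hψ⟩ : ∃ ψ, ψ = min τN τB / 8 := ⟨_, rfl⟩
  have hψ0 : 0 < ψ := by
    rw [hψ]
    have := lt_min hτN hτB
    linarith only [this]
  have hψN : 8 * ψ ≤ τN := by
    rw [hψ]
    have := min_le_left τN τB
    linarith only [this]
  have hψB : 8 * ψ ≤ τB := by
    rw [hψ]
    have := min_le_right τN τB
    linarith only [this]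
  obtain ⟨Jc, hJc⟩ := Pool.S6K.exp_small (κ := ψ) (C := C) hψ0 hC1
  obtain ⟨Jn, hJn⟩ := num_exc hC1 ha0
  refine ⟨min e' (min a e₁), lt_min he' (lt_min ha0 hA.e0), ψ, hψ0,
    max (max JN JB) (max Jc Jn), ?_⟩
  intro J hJ F A hSt hLU hL1 iu iN w lam P q J' y0 yz hz hwv hPw hlq hyJ hlaw h' B hPB
  have hJN : JN ≤ J := (le_max_left _ _).trans ((le_max_left _ _).trans hJ)
  have hJB : JB ≤ J := (le_max_right _ _).trans ((le_max_left _ _).trans hJ)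
  have hJc' : Jc ≤ J := (le_max_left _ _).trans ((le_max_right _ _).trans hJ)
  have hJn' : Jn ≤ J := (le_max_right _ _).trans ((le_max_right _ _).trans hJ)
  have hp := F.isLaw
  have hJ0 : (0 : ℝ) ≤ J := Nat.cast_nonneg J
  have hJ'0 : (0 : ℝ) ≤ J' := Nat.cast_nonneg J'
  have hJ'J : (J' : ℝ) ≤ J := by
    have : J' ≤ J := by omega
    exact_mod_cast this
  -- the general exclusion
  have key : ∀ (a' R' Q' : ℕ) (ρ ρ' : ℝ), ρ = 1 / 2 ^ R' → ρ' = 1 / 2 ^ a' → R' ≤ J' →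
      a * J - 1 ≤ a' → (a' : ℝ) + (7 * a * J - 1) ≤ R' → (a' : ℝ) + (7 * a * J - 1) ≤ Q' →
      q = lam + Q' →
      ¬ (PlU 1 ρ (Fam.pt (pzG F i₀ iu w lam P J' yz A hlaw h'))
          (pzG F i₀ iu w lam P J' yz A hlaw h').d B ∨
        GrP i₀ 6 ρ (Fam.pt (pzG F i₀ iu w lam P J' yz A hlaw h'))
          (pzG F i₀ iu w lam P J' yz A hlaw h').d B ∨
        GrP iN 6 ρ (Fam.pt (pzG F i₀ iu w lam P J' yz A hlaw h'))
          (pzG F i₀ iu w lam P J' yz A hlaw h').d B ∨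
        TiltP i₀ iu iN 6 ρ' ρ (Fam.pt (pzG F i₀ iu w lam P J' yz A hlaw h'))
          (pzG F i₀ iu w lam P J' yz A hlaw h').d B) := by
    intro a' R' Q' ρ ρ' hρ hρ' hRJ h1 h2 h3 hqQ hcon
    have hρ1 : 1 / 2 ^ J' ≤ ρ := by
      rw [hρ]
      exact one_div_le_one_div_of_le (by positivity) (pow_le_pow_right₀ (by norm_num) hRJ)
    have hone : ∀ k : ℕ, (1 : ℝ) / 2 ^ k ≤ 1 := fun k => by
      rw [div_le_one (by positivity)]
      exact one_le_pow₀ (by norm_num)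
    obtain ⟨B', hB', hPB', hcase⟩ := hEX J F i₀ iu iN w lam P J' q yz A hlaw h' hz.pz hz.room
      hz.lq hz.slo B ρ ρ' hρ1 (by rw [hρ]; exact hone _) (by rw [hρ']; positivity)
      (by rw [hρ']; exact hone _) hcon
    -- the size of `B'`
    have hBA : Sub B' A := fun ω hω => (hB' ω hω).2
    have hsz := pe_zoom hp hPB
    have hPe0 := Pe_nonneg hp A
    have hSt' : S.St (8 * ψ) J F B' := by
      have h4 : Real.exp (-(4 * ψ * J)) * Pe F.p A ≤ Pe F.p B' := by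
        have h5 := hJc J hJc'
        have h6 : Real.exp (-(3 * ψ * J)) * Pe F.p A ≤ C * Pe F.p B' := by
          refine le_trans ?_ hPB'
          refine le_trans ?_ hsz
          refine mul_le_mul_of_nonneg_right (Real.exp_le_exp.2 ?_) hPe0
          have : 3 * ψ * J' ≤ 3 * ψ * J := mul_le_mul_of_nonneg_left hJ'J (by positivity)
          linarith only [this]
        have h7 : Real.exp (-(4 * ψ * J)) = Real.exp (-(ψ * J)) * Real.exp (-(3 * ψ * J)) := by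
          rw [← Real.exp_add]
          congr 1
          ring
        rw [h7, mul_assoc]
        have hC0 : 0 < C := by linarith only [hC1]
        calc Real.exp (-(ψ * J)) * (Real.exp (-(3 * ψ * J)) * Pe F.p A) ≤
            1 / C * (C * Pe F.p B') := mul_le_mul h5 h6
              (mul_nonneg (Real.exp_pos _).le hPe0) (by positivity)
          _ = Pe F.p B' := by field_simp
      have h8 := S.res (τ' := 4 * ψ) (by positivity) hSt hBA h4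
      exact S.mono (by linarith only [hψ0]) h8
    have hqe : (2 : ℝ) ^ lam / 2 ^ q = 1 / 2 ^ Q' := by
      rw [hqQ, pow_add]
      field_simp
    have hwP : w ≤ P := by
      have := hz.pz.wP
      omega
    obtain ⟨nP, hnP⟩ := Nat.exists_eq_add_of_le hwP
    have hPn : ((σ 1).sN v₁ t - a) * J ≤ nP := by
      have h9 : (nP : ℝ) = (P : ℝ) - w := by
        rw [hnP]
        push_cast
        ring
      rw [h9]
      refine le_trans (mul_le_mul_of_nonneg_right ?_ hJ0) hPw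
      have : min e' (min a e₁) ≤ a := (min_le_right _ _).trans (min_le_left _ _)
      linarith only [this]
    obtain ⟨b1, b2⟩ := hJn J hJn' ((σ 1).sN v₁ t) a' R' Q' nP w P hs0 h1 h2 h3 hPn hnP.symm
    rw [hqe, hρ, hρ'] at hcase
    rcases hcase with ⟨α, b, hst'⟩ | hco
    · refine hNS J hJN F B' (S.mono hψN hSt') ?_ ?_ iu iN hz.pz.cov w P hwv ?_ y0
        (fun ω hω => hz.inc ω (hBA ω hω)) ?_ ?_ α b ?_
      · have hLB := LineU.hered (i₀ := i₀) (r := 1 / 2 ^ ⌊((σ 1).pi - min e' (min a e₁)) * J⌋₊)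
          (pt := Fam.pt F) (d := F.d) A B' hBA hLU
        refine LineU.mono hLB ?_
        refine one_div_le_one_div_of_le (by positivity) (pow_le_pow_right₀ (by norm_num) ?_)
        refine Nat.floor_le_floor (mul_le_mul_of_nonneg_right ?_ hJ0)
        have := min_le_left e' (min a e₁)
        linarith only [this]
      · obtain ⟨iu', iN', hc', hL'⟩ := hL1
        exact ⟨iu', iN', hc', LABq.hered _ _ _ _ _ _ _ _ _ _ _ hBA hL'⟩
      · refine le_trans (mul_le_mul_of_nonneg_right ?_ hJ0) hPw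
        have : min e' (min a e₁) ≤ e₁ := (min_le_right _ _).trans (min_le_right _ _)
        linarith only [this]
      · obtain ⟨φ, hφ⟩ := hz.vis
        exact ⟨φ, fun ω hω => hφ ω (hBA ω hω)⟩
      · obtain ⟨φ, hφ⟩ := hz.con
        exact ⟨φ, fun ω hω => hφ ω (hBA ω hω)⟩
      · intro ω hω
        have h10 := hst' ω hω
        obtain ⟨c1, c2⟩ := hz.cs ω (hBA ω hω)
        rw [c1, c2] at h10
        exact h10.trans b1
    · exact hBL J hJB F B' (S.mono hψB hSt') (hco.mono b2)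
  -- the four cases
  obtain ⟨Q', hQ'⟩ := Nat.exists_eq_add_of_le hz.lq
  have hQr : β / 2 * J ≤ Q' := by
    rw [hQ'] at hlq
    push_cast at hlq
    linarith only [hlq]
  have haJ : 0 ≤ a * J := by positivity
  obtain ⟨R, hR⟩ : ∃ R, R = ⌊1 / ((i : ℝ) + 1) * (J' : ℝ)⌋₊ := ⟨_, rfl⟩
  have hRJ : R ≤ J' := by
    rw [hR]
    refine Nat.floor_le_of_le ?_
    refine mul_le_of_le_one_left hJ'0 ?_
    rw [div_le_one hi0]
    have : (0 : ℝ) ≤ i := Nat.cast_nonneg i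
    linarith only
  have hRr : 8 * a * J - 1 ≤ R := by
    have h1 := Nat.lt_floor_add_one (1 / ((i : ℝ) + 1) * (J' : ℝ))
    rw [← hR] at h1
    have h2 : 8 * a * J ≤ 1 / ((i : ℝ) + 1) * J' := by
      have h3 : 8 * a ≤ y / ((i : ℝ) + 1) := by
        have h4 : y / (8 * ((i : ℝ) + 1)) = y / ((i : ℝ) + 1) / 8 := by
          field_simp
        rw [h4] at ha1
        linarith only [ha1]
      calc 8 * a * J ≤ y / ((i : ℝ) + 1) * J := mul_le_mul_of_nonneg_right h3 hJ0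
        _ = 1 / ((i : ℝ) + 1) * (y * J) := by ring
        _ ≤ 1 / ((i : ℝ) + 1) * J' := mul_le_mul_of_nonneg_left hyJ (by positivity)
    linarith only [h1, h2]
  obtain ⟨a', ha'⟩ : ∃ a', a' = ⌊a * (J : ℝ)⌋₊ := ⟨_, rfl⟩
  have ha'1 : (a' : ℝ) ≤ a * J := by rw [ha']; exact Nat.floor_le haJ
  have ha'2 : a * J - 1 ≤ a' := by
    rw [ha']
    have := Nat.lt_floor_add_one (a * (J : ℝ))
    linarith only [this]
  have hβJ : 32 * (a * J) ≤ β * J := by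
    have := mul_le_mul_of_nonneg_right ha3 hJ0
    linarith only [this]
  have k1 := key a' R Q' _ _ rfl rfl hRJ ha'2 (by linarith only [hRr, ha'1]) (by linarith only [hg, hh, hh1, hQr, ha'1, hβJ]) hQ'
  rw [hR] at k1
  -- the tilt
  obtain ⟨R2, hR2⟩ : ∃ R, R = ⌊h * (J' : ℝ)⌋₊ := ⟨_, rfl⟩
  obtain ⟨a2, ha2'⟩ : ∃ R, R = ⌊g * (J' : ℝ)⌋₊ := ⟨_, rfl⟩
  have hR2J : R2 ≤ J' := by
    rw [hR2]
    exact Nat.floor_le_of_le (mul_le_of_le_one_left hJ'0 (by linarith only [hh1]))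
  have hR2r : h * J' - 1 ≤ R2 := by
    rw [hR2]
    have := Nat.lt_floor_add_one (h * (J' : ℝ))
    linarith only [this]
  have ha21 : (a2 : ℝ) ≤ g * J' := by rw [ha2']; exact Nat.floor_le (by positivity)
  have ha22 : g * J' - 1 ≤ a2 := by
    rw [ha2']
    have := Nat.lt_floor_add_one (g * (J' : ℝ))
    linarith only [this]
  have hgJ : 8 * (a * J) ≤ g * J' := by
    have h1 := mul_le_mul_of_nonneg_right ha2 hJ0
    have h2 := mul_le_mul_of_nonneg_left hyJ hg.le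
    linarith only [h1, h2]
  have hgJ2 : g * J' ≤ β / 8 * J := mul_le_mul hgβ hJ'J hJ'0 (by positivity)
  have k2 := key a2 R2 Q' _ _ rfl rfl hR2J (by linarith only [hg, hh, hh1, ha22, hgJ]) (by rw [hh] at hR2r; linarith only [hg, hh, hh1, hR2r, ha21, hgJ])
    (by linarith only [hg, hh, hh1, hQr, hβJ, ha21, hgJ2]) hQ'
  refine ⟨fun h1 => k1 (Or.inl h1), fun h1 => k1 (Or.inr (Or.inl ?_)),
    fun h1 => k1 (Or.inr (Or.inr (Or.inl ?_))), fun h1 => k2 (Or.inr (Or.inr (Or.inr ?_)))⟩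
  · unfold BadC at h1
    norm_num at h1 ⊢
    exact h1
  · unfold BadC at h1
    norm_num at h1 ⊢
    exact h1
  · unfold Tilt at h1
    rw [hR2, ha2']
    norm_num at h1 ⊢
    exact h1

end Pool.PZ
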