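import Pool.Agent.H96.PZ.Poly
import Pool.Agent.H96.PZ.Defs

/-!
# The derivatives of a label at the points and along the lines
-/

set_option autoImplicit false

namespace Pool.PZ

open Finset Real MvPolynomial
open Pool.Agent.H49.Ent Pool.Agent.H32.Dense Pool.STK Pool.KA Pool.KSAT Pool.K2S Pool.PB

variable {m J : ℕ}

theorem pd_comm (i j : Fin m) (Φ : MvPolynomial (Fin m) ℝ) :
    pderiv i (pderiv j Φ) = pderiv j (pderiv i Φ) := by
  classical
  induction Φ using MvPolynomial.induction_on with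
  | C a => simp
  | add p q hp hq => rw [map_add, map_add, map_add, map_add, hp, hq]
  | mul_X p k hp =>
    have h1 : ∀ (i j : Fin m), pderiv i (pderiv j (X k : MvPolynomial (Fin m) ℝ)) = 0 := by
      intro i j
      rw [pderiv_X]
      by_cases h : k = j
      · rw [h, Pi.single_eq_same, pderiv_one]
      · rw [Pi.single_eq_of_ne h, map_zero]
    rw [pderiv_mul, pderiv_mul, map_add, map_add, pderiv_mul, pderiv_mul, pderiv_mul, pderiv_mul,
      hp, h1 i j, h1 j i]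
    ring

/-- The base of the line: position at time zero, with `0` in the slot of the time. -/
noncomputable def sa (i₁ : Fin m) {ζ : Type} (s : ((Fin m → ℝ) × (Fin m → ℝ)) × ζ × ℕ) :
    Fin m → ℝ := Function.update s.1.1 i₁ 0

/-- The direction of the line, with `1` in the slot of the time. -/
noncomputable def sb (i₁ : Fin m) {ζ : Type} (s : ((Fin m → ℝ) × (Fin m → ℝ)) × ζ × ℕ) :
    Fin m → ℝ := Function.update s.1.2 i₁ 1

theorem bp_line (F : Fam m J) (i₁ : Fin m) (w : ℕ) (ω : F.Ω) :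
    bp F i₁ ω = fun j => sa i₁ (slam F w ω) j + F.t ω * sb i₁ (slam F w ω) j := by
  funext j
  unfold bp sa sb
  by_cases hj : j = i₁
  · rw [hj, Function.update_self, Function.update_self, Function.update_self]
    ring
  · rw [Function.update_of_ne hj, Function.update_of_ne hj, Function.update_of_ne hj]
    rfl

/-- **Data of a leaf along the lines.** `g1`, `g2`: first and second derivatives of the ball
label, as functions of the point; `h1`, `h2`: those of the tube label on the line, as functions of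
the time; `R`: deviation of the line from the tube label. -/
structure LD (F : Fam m J) (i₁ : Fin m) (K w : ℕ) (A : F.Ω → Prop) (ε ε₁ ε₂ : ℝ)
    (g1 : (Fin m → ℤ) × (ℕ × F.ζ) → Fin m → ℝ)
    (g2 : (Fin m → ℤ) × (ℕ × F.ζ) → Fin m → Fin m → ℝ)
    (h1 : ((Fin m → ℝ) × (Fin m → ℝ)) × F.ζ × ℕ → Fin m → Polynomial ℝ)
    (h2 : ((Fin m → ℝ) × (Fin m → ℝ)) × F.ζ × ℕ → Fin m → Fin m → Polynomial ℝ)
    (R : ((Fin m → ℝ) × (Fin m → ℝ)) × F.ζ × ℕ → Polynomial ℝ) : Prop where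
  deg1 : ∀ s j, (h1 s j).natDegree ≤ K
  degR : ∀ s, (R s).natDegree ≤ K
  der : ∀ s j t, (h1 s j).derivative.eval t = ∑ l, sb i₁ s l * (h2 s j l).eval t
  sym : ∀ ω, A ω → ∀ j l, g2 (Fam.pt F ω) j l = g2 (Fam.pt F ω) l j
  gb : ∀ ω, A ω → ∀ j, |g1 (Fam.pt F ω) j| ≤ 2 * m
  g1h : ∀ ω, A ω → ∀ j, |g1 (Fam.pt F ω) j - (h1 (slam F w ω) j).eval (F.t ω)| ≤ ε₁
  g2h : ∀ ω, A ω → ∀ j l, |g2 (Fam.pt F ω) j l - (h2 (slam F w ω) j l).eval (F.t ω)| ≤ ε₂
  R0 : ∀ ω, A ω → |(R (slam F w ω)).eval (F.t ω)| ≤ ε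
  R1 : ∀ s t, (R s).derivative.eval t = s.1.2 i₁ - ∑ j, sb i₁ s j * (h1 s j).eval t
  R2 : ∀ s t, (R s).derivative.derivative.eval t =
    -∑ j, ∑ l, sb i₁ s j * sb i₁ s l * (h2 s j l).eval t

theorem pt_close (F : Fam m J) (i₁ : Fin m) {ω ω' : F.Ω} (h : Fam.pt F ω' = Fam.pt F ω)
    (j : Fin m) : |bp F i₁ ω' j - bp F i₁ ω j| ≤ 1 / 2 ^ J := by
  have p0 : (0 : ℝ) < 2 ^ J := by positivity
  have hX : F.X J ω' = F.X J ω := (Prod.ext_iff.1 h).1
  have hT : F.T ω' = F.T ω := (Prod.ext_iff.1 (Prod.ext_iff.1 h).2).1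
  unfold bp
  by_cases hj : j = i₁
  · rw [hj, Function.update_self, Function.update_self]
    unfold Fam.t
    rw [hT, sub_self, abs_zero]
    positivity
  · rw [Function.update_of_ne hj, Function.update_of_ne hj]
    exact Pool.KS6.floor_close (congrFun hX j)

/-- **The data of a label.** -/
theorem lab_dat (m K : ℕ) : ∃ C : ℝ, 1 ≤ C ∧ ∀ (J : ℕ) (F : Fam m J) (i₁ : Fin m)
    (r w P : ℕ) (A : F.Ω → Prop), 1 ≤ K → w + 2 ≤ J → r ≤ J → P ≤ J → Lab F i₁ r K w w P A →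
    ∃ (g1 : (Fin m → ℤ) × (ℕ × F.ζ) → Fin m → ℝ)
      (g2 : (Fin m → ℤ) × (ℕ × F.ζ) → Fin m → Fin m → ℝ)
      (h1 : ((Fin m → ℝ) × (Fin m → ℝ)) × F.ζ × ℕ → Fin m → Polynomial ℝ)
      (h2 : ((Fin m → ℝ) × (Fin m → ℝ)) × F.ζ × ℕ → Fin m → Fin m → Polynomial ℝ)
      (R : ((Fin m → ℝ) × (Fin m → ℝ)) × F.ζ × ℕ → Polynomial ℝ),
      LD F i₁ K w A (2 / 2 ^ P) (C * 2 ^ w / 2 ^ P) (C * (2 ^ w) ^ 2 / 2 ^ P) g1 g2 h1 h2 R := by
  classical
  obtain ⟨C, hC, hmk⟩ := mv_markov (m := m) K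
  refine ⟨(2 + 4 * m ^ 2) * C ^ 2, ?_, ?_⟩
  · have h1 : (1 : ℝ) ≤ C ^ 2 := one_le_pow₀ hC
    have h2 : (0 : ℝ) ≤ 4 * (m : ℝ) ^ 2 := by positivity
    nlinarith
  intro J F i₁ r w P A hK hw hr hP hLab
  obtain ⟨G, H, hG, hH, hGH⟩ := hLab
  obtain ⟨φ, hφ⟩ := ptr_coarse F hr
  have p2w : (0 : ℝ) < 2 ^ w := by positivity
  have p2P : (0 : ℝ) < 2 ^ P := by positivity
  have p2J : (0 : ℝ) < 2 ^ J := by positivity
  obtain ⟨l, hl⟩ : ∃ l : ℝ, l = 1 / 2 ^ w := ⟨_, rfl⟩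
  obtain ⟨ε, hε⟩ : ∃ ε : ℝ, ε = 1 / 2 ^ P := ⟨_, rfl⟩
  have hl0 : 0 < l := by rw [hl]; positivity
  have hε0 : 0 < ε := by rw [hε]; positivity
  have hC0 : 0 < C := by linarith
  have hJl : (1 : ℝ) / 2 ^ J ≤ l / 4 := by
    have h1 : (1 : ℝ) / 2 ^ J ≤ 1 / 2 ^ (w + 2) := inv_mono hw
    have h2 : (1 : ℝ) / 2 ^ (w + 2) = l / 4 := by
      rw [hl, pow_add]
      field_simp
      norm_num
    linarith
  have hJε : (1 : ℝ) / 2 ^ J ≤ ε := by rw [hε]; exact inv_mono hP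
  have hJ0 : (0 : ℝ) ≤ 1 / 2 ^ J := by positivity
  -- the ball polynomial and its derivatives on the balls
  have hball : ∀ ω, A ω → ∀ b : Fin m → ℝ, (∀ j, |b j - bp F i₁ ω j| ≤ l) →
      (∀ j, |eval b (pderiv j (G (ptr F r ω)))| ≤ 2 * m) ∧
        |eval b (G (ptr F r ω)) - eval b (H (slam F w ω))| ≤ ε := by
    intro ω hω b hb
    rw [hε]
    exact (hGH ω hω).2 b (by rw [← hl]; exact hb)
  have hG2 : ∀ ω, A ω → ∀ b : Fin m → ℝ, (∀ j, |b j - bp F i₁ ω j| ≤ l / 2) → ∀ j k,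
      |eval b (pderiv k (pderiv j (G (ptr F r ω))))| ≤ C * (2 * m) / l := by
    intro ω hω b hb j k
    exact hmk _ _ l (2 * m) (td_pderiv (hG _) j) hl0 (fun b' hb' => (hball ω hω b' hb').1 j) b hb k
  have hG3 : ∀ ω, A ω → ∀ b : Fin m → ℝ, (∀ j, |b j - bp F i₁ ω j| ≤ l / 4) → ∀ j k n,
      |eval b (pderiv n (pderiv k (pderiv j (G (ptr F r ω)))))| ≤
        C * (C * (2 * m) / l) / (l / 2) := by
    intro ω hω b hb j k n
    exact hmk _ _ (l / 2) _ (td_pderiv (td_pderiv (hG _) j) k) (by linarith)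
      (fun b' hb' => hG2 ω hω b' hb' j k) b (fun i => (hb i).trans (by linarith)) n
  have hD0 : ∀ ω, A ω → ∀ b : Fin m → ℝ, (∀ j, |b j - bp F i₁ ω j| ≤ l) →
      |eval b (G (ptr F r ω) - H (slam F w ω))| ≤ ε := by
    intro ω hω b hb
    rw [map_sub]
    exact (hball ω hω b hb).2
  have hDd : ∀ ω : F.Ω, (G (ptr F r ω) - H (slam F w ω)).totalDegree ≤ K := fun ω =>
    (totalDegree_sub _ _).trans (max_le (hG _) (hH _))
  have hD1 : ∀ ω, A ω → ∀ b : Fin m → ℝ, (∀ j, |b j - bp F i₁ ω j| ≤ l / 2) → ∀ j,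
      |eval b (pderiv j (G (ptr F r ω) - H (slam F w ω)))| ≤ C * ε / l := fun ω hω b hb j =>
    hmk _ _ l ε (hDd ω) hl0 (hD0 ω hω) b hb j
  have hD2 : ∀ ω, A ω → ∀ b : Fin m → ℝ, (∀ j, |b j - bp F i₁ ω j| ≤ l / 4) → ∀ j k,
      |eval b (pderiv k (pderiv j (G (ptr F r ω) - H (slam F w ω))))| ≤
        C * (C * ε / l) / (l / 2) := by
    intro ω hω b hb j k
    exact hmk _ _ (l / 2) _ (td_pderiv (hDd ω) j) (by linarith)
      (fun b' hb' => hD1 ω hω b' hb' j) b (fun i => (hb i).trans (by linarith)) k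
  -- representatives
  obtain ⟨ex, hex⟩ : ∃ ex : (Fin m → ℤ) × (ℕ × F.ζ) → Prop,
    ex = fun y => ∃ ω, A ω ∧ Fam.pt F ω = y := ⟨_, rfl⟩
  have hrep : ∃ rp : (Fin m → ℤ) × (ℕ × F.ζ) → (Fin m → ℝ) × MvPolynomial (Fin m) ℝ,
      ∀ ω, A ω → ∃ ω', A ω' ∧ Fam.pt F ω' = Fam.pt F ω ∧
        rp (Fam.pt F ω) = (bp F i₁ ω', G (ptr F r ω')) := by
    refine ⟨fun y => if h : ∃ ω, A ω ∧ Fam.pt F ω = y then
      (bp F i₁ h.choose, G (ptr F r h.choose)) else (0, 0), fun ω hω => ?_⟩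
    have h : ∃ ω', A ω' ∧ Fam.pt F ω' = Fam.pt F ω := ⟨ω, hω, rfl⟩
    refine ⟨h.choose, h.choose_spec.1, h.choose_spec.2, ?_⟩
    simp only
    rw [dif_pos h]
  obtain ⟨rp, hrp⟩ := hrep
  have hsame : ∀ ω ω' : F.Ω, Fam.pt F ω' = Fam.pt F ω → ptr F r ω' = ptr F r ω := by
    intro ω ω' h
    rw [hφ ω, hφ ω']
    change φ (Fam.pt F ω') = φ (Fam.pt F ω)
    rw [h]
  refine ⟨fun y j => eval (rp y).1 (pderiv j (rp y).2),
    fun y j k => eval (rp y).1 (pderiv k (pderiv j (rp y).2)),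
    fun s j => lp (sa i₁ s) (sb i₁ s) (pderiv j (H s)),
    fun s j k => lp (sa i₁ s) (sb i₁ s) (pderiv k (pderiv j (H s))),
    fun s => Polynomial.C (s.1.1 i₁) + Polynomial.C (s.1.2 i₁) * Polynomial.X -
      lp (sa i₁ s) (sb i₁ s) (H s), ?_⟩
  have hlp : ∀ (ω : F.Ω) (Φ : MvPolynomial (Fin m) ℝ),
      (lp (sa i₁ (slam F w ω)) (sb i₁ (slam F w ω)) Φ).eval (F.t ω) = eval (bp F i₁ ω) Φ := by
    intro ω Φ
    rw [lp_eval, bp_line F i₁ w ω]
  have hRd : ∀ s : ((Fin m → ℝ) × (Fin m → ℝ)) × F.ζ × ℕ,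
      (Polynomial.C (s.1.1 i₁) + Polynomial.C (s.1.2 i₁) * Polynomial.X -
      lp (sa i₁ s) (sb i₁ s) (H s)).derivative =
      Polynomial.C (s.1.2 i₁) - (lp (sa i₁ s) (sb i₁ s) (H s)).derivative := by
    intro s
    rw [Polynomial.derivative_sub, Polynomial.derivative_add, Polynomial.derivative_C,
      Polynomial.derivative_C_mul, Polynomial.derivative_X, mul_one, zero_add]
  have hm0 : (0 : ℝ) ≤ m := Nat.cast_nonneg m
  refine ⟨?_, ?_, ?_, ?_, ?_, ?_, ?_, ?_, ?_, ?_⟩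
  · exact fun s j => lp_deg _ _ (td_pderiv (hH s) j)
  · intro s
    refine (Polynomial.natDegree_sub_le _ _).trans (max_le ?_ (lp_deg _ _ (hH s)))
    refine (Polynomial.natDegree_add_le _ _).trans (max_le ?_ ?_)
    · rw [Polynomial.natDegree_C]; exact Nat.zero_le _
    · exact (Polynomial.natDegree_C_mul_le _ _).trans (Polynomial.natDegree_X_le.trans hK)
  · exact fun s j t => lp_der _ _ _ _
  · intro ω _ j k
    rw [pd_comm]
  · intro ω hω j
    obtain ⟨ω', h1, h2, h3⟩ := hrp ω hω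
    rw [h3]
    exact (hball ω' h1 (bp F i₁ ω') (fun k => by rw [sub_self, abs_zero]; exact hl0.le)).1 j
  · intro ω hω j
    obtain ⟨ω', h1, h2, h3⟩ := hrp ω hω
    rw [h3, hlp, hsame ω ω' h2]
    simp only
    have a1 := Pool.PB.mvt (pderiv j (G (ptr F r ω))) (x := bp F i₁ ω) (y := bp F i₁ ω')
      (h := l / 2) (M := C * (2 * m) / l) (r := 1 / 2 ^ J) (by positivity)
      (fun b hb k => hG2 ω hω b hb j k) hJ0 (by linarith) (fun k => pt_close F i₁ h2 k)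
    have a2 := hD1 ω hω (bp F i₁ ω) (fun k => by rw [sub_self, abs_zero]; linarith) j
    rw [map_sub, map_sub] at a2
    have a3 : (m : ℝ) * (C * (2 * m) / l) * (1 / 2 ^ J) ≤ 2 * m ^ 2 * C * ε / l := by
      have : (m : ℝ) * (C * (2 * m) / l) * (1 / 2 ^ J) = 2 * m ^ 2 * C * (1 / 2 ^ J) / l := by
        ring
      rw [this]
      refine div_le_div_of_nonneg_right (mul_le_mul_of_nonneg_left hJε (by positivity)) hl0.le
    have a4 : (2 + 4 * (m : ℝ) ^ 2) * C ^ 2 * 2 ^ w / 2 ^ P =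
        (2 + 4 * m ^ 2) * C ^ 2 * ε / l := by
      rw [hε, hl]
      field_simp
    rw [a4]
    have a5 : 2 * (m : ℝ) ^ 2 * C * ε / l + C * ε / l ≤ (2 + 4 * m ^ 2) * C ^ 2 * ε / l := by
      rw [← add_div]
      refine div_le_div_of_nonneg_right ?_ hl0.le
      have : C ≤ C ^ 2 := by nlinarith
      have e1 : 2 * (m : ℝ) ^ 2 * C * ε + C * ε = (1 + 2 * m ^ 2) * (C * ε) := by ring
      have e2 : (2 + 4 * (m : ℝ) ^ 2) * C ^ 2 * ε = (2 + 4 * m ^ 2) * (C ^ 2 * ε) := by ring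
      rw [e1, e2]
      refine mul_le_mul ?_ (mul_le_mul_of_nonneg_right this hε0.le) (by positivity) (by positivity)
      nlinarith [sq_nonneg (m : ℝ)]
    calc |eval (bp F i₁ ω') (pderiv j (G (ptr F r ω))) -
          eval (bp F i₁ ω) (pderiv j (H (slam F w ω)))|
        = |(eval (bp F i₁ ω') (pderiv j (G (ptr F r ω))) -
            eval (bp F i₁ ω) (pderiv j (G (ptr F r ω)))) +
          (eval (bp F i₁ ω) (pderiv j (G (ptr F r ω))) -
            eval (bp F i₁ ω) (pderiv j (H (slam F w ω))))| := by ring_nf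
      _ ≤ _ := (abs_add_le _ _).trans (by linarith)
  · intro ω hω j k
    obtain ⟨ω', h1, h2, h3⟩ := hrp ω hω
    rw [h3, hlp, hsame ω ω' h2]
    simp only
    have a1 := Pool.PB.mvt (pderiv k (pderiv j (G (ptr F r ω)))) (x := bp F i₁ ω)
      (y := bp F i₁ ω') (h := l / 4) (M := C * (C * (2 * m) / l) / (l / 2)) (r := 1 / 2 ^ J)
      (by positivity) (fun b hb n => hG3 ω hω b hb j k n) hJ0 hJl
      (fun k => pt_close F i₁ h2 k)
    have a2 := hD2 ω hω (bp F i₁ ω) (fun k => by rw [sub_self, abs_zero]; linarith) j k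
    rw [map_sub, map_sub, map_sub] at a2
    have a3 : (m : ℝ) * (C * (C * (2 * m) / l) / (l / 2)) * (1 / 2 ^ J) ≤
        4 * m ^ 2 * C ^ 2 * ε / l ^ 2 := by
      have : (m : ℝ) * (C * (C * (2 * m) / l) / (l / 2)) * (1 / 2 ^ J) =
          4 * m ^ 2 * C ^ 2 * (1 / 2 ^ J) / l ^ 2 := by
        field_simp
        ring
      rw [this]
      refine div_le_div_of_nonneg_right (mul_le_mul_of_nonneg_left hJε (by positivity))
        (by positivity)
    have a4 : (2 + 4 * (m : ℝ) ^ 2) * C ^ 2 * (2 ^ w) ^ 2 / 2 ^ P =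
        (2 + 4 * m ^ 2) * C ^ 2 * ε / l ^ 2 := by
      rw [hε, hl]
      field_simp
    have a6 : C * (C * ε / l) / (l / 2) = 2 * C ^ 2 * ε / l ^ 2 := by
      field_simp
    rw [a4]
    rw [a6] at a2
    have a5 : 4 * (m : ℝ) ^ 2 * C ^ 2 * ε / l ^ 2 + 2 * C ^ 2 * ε / l ^ 2 =
        (2 + 4 * m ^ 2) * C ^ 2 * ε / l ^ 2 := by
      ring
    calc |eval (bp F i₁ ω') (pderiv k (pderiv j (G (ptr F r ω)))) -
          eval (bp F i₁ ω) (pderiv k (pderiv j (H (slam F w ω))))|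
        = |(eval (bp F i₁ ω') (pderiv k (pderiv j (G (ptr F r ω)))) -
            eval (bp F i₁ ω) (pderiv k (pderiv j (G (ptr F r ω))))) +
          (eval (bp F i₁ ω) (pderiv k (pderiv j (G (ptr F r ω)))) -
            eval (bp F i₁ ω) (pderiv k (pderiv j (H (slam F w ω)))))| := by ring_nf
      _ ≤ _ := (abs_add_le _ _).trans (by linarith)
  · intro ω hω
    rw [Polynomial.eval_sub, hlp, Polynomial.eval_add, Polynomial.eval_mul, Polynomial.eval_C,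
      Polynomial.eval_C, Polynomial.eval_X]
    have e1 : (slam F w ω).1.1 i₁ + (slam F w ω).1.2 i₁ * F.t ω = F.x ω i₁ := by
      change F.u ω i₁ + F.d ω i₁ * F.t ω = F.u ω i₁ + F.t ω * F.d ω i₁
      ring
    rw [e1]
    have a1 := (hGH ω hω).1
    have a2 := (hball ω hω (bp F i₁ ω) (fun k => by rw [sub_self, abs_zero]; exact hl0.le)).2
    have a3 : (2 : ℝ) / 2 ^ P = ε + ε := by rw [hε]; ring
    rw [← hε] at a1
    rw [a3]
    calc |F.x ω i₁ - eval (bp F i₁ ω) (H (slam F w ω))|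
        = |(F.x ω i₁ - eval (bp F i₁ ω) (G (ptr F r ω))) +
          (eval (bp F i₁ ω) (G (ptr F r ω)) - eval (bp F i₁ ω) (H (slam F w ω)))| := by ring_nf
      _ ≤ _ := (abs_add_le _ _).trans (by linarith)
  · intro s t
    rw [hRd, Polynomial.eval_sub, Polynomial.eval_C, lp_der]
  · intro s t
    rw [hRd, Polynomial.derivative_sub, Polynomial.derivative_C, zero_sub, Polynomial.eval_neg,
      lp_der2]

end Pool.PZ
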