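import Pool.Agent.H96.PZ.Main2
import Pool.Agent.H82.PZ.Fvb

/-!
# The plank zoom: the assembly
-/

set_option autoImplicit false

namespace Pool.PZ

open Finset Real
open Pool.Agent.H49.Ent Pool.Agent.H32.Dense Pool.STK Pool.KA Pool.KSAT Pool.K2S Pool.PB Pool.KS6
open Pool.ZCL Pool.S6C

/-- **The assembly of `PZ`.** -/
theorem pz_of (hAct : Pool.S6C.ACTStmt) (hO : PZOStmt) (hT : PZTStmt) (hN : PZNStmt)
    (hF : FVB2Stmt) (hH : PZHStmt) (hE : PZEStmt) (hSTP : ∀ S : FCl 3, SPS S 1 → STP S) (hSLP : ∀ S : FCl 3, SPS S 1 → SLP S) :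
    PZStmt := by
  intro S₀ a R h₁ i₀ c s₂ r D σ hC₀ K W v₁ t e₁ hK hPR hA hs₀
  -- the subclass
  obtain ⟨S₁, act, κa, hsub₁, hact₁⟩ := actD_of hAct hC₀
  have hC₁ := hC₀.le hsub₁
  obtain ⟨S, hsub, hBR⟩ := brate_sub hC₁
  have hC := hC₁.le hsub
  have hact := hact₁.le hsub.le
  obtain ⟨s, hsE⟩ : ∃ s, s = (σ 1).sN v₁ t := ⟨_, rfl⟩
  have hs : ∀ Q ∈ K, Q - W Q = s := fun Q hQ => by rw [hs₀ Q hQ, hsE]
  obtain ⟨P₀, hP₀K, hc0, hsel⟩ := sel_ex hC hK hPR hA hs
  have hP0 := hPR P₀ hP₀K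
  have hW0 : W P₀ = P₀ - s := by linarith [hs P₀ hP₀K]
  rw [hW0] at hP0
  have hWv : P₀ - s < v₁ := by
    have := hA.ab P₀ hP₀K
    rwa [hW0] at this
  have hWp := hP0.ws0
  have hv0r : (0 : ℝ) < v₁ := by linarith
  have hv0 : 0 ≤ v₁ := by exact_mod_cast hv0r.le
  have hv1 : (v₁ : ℝ) < 1 := by exact_mod_cast hA.v1
  have hpis : (σ 1).pi ≤ s := by
    rw [hsE]
    exact pi_le_sN hC hA hv0
  have hR1 := hC.row 1 one_pos le_rfl hC.D1
  have hrot0 : 0 ≤ (σ 1).rot v₁ := num_nonneg hC.ne (hR1.rot v₁ hv0 hA.v1.le)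
  have hpi1 : (σ 1).pi ≤ 1 := num_le_cap hC.ne zero_le_one hR1.pi
  obtain ⟨β, hβ⟩ : ∃ β, β = (σ 1).pi - (σ 1).rot v₁ := ⟨_, rfl⟩
  have he1 := hA.e0
  have hβe : 8 * e₁ < β := by rw [hβ]; exact hA.e8
  have hβ0 : 0 < β := by linarith
  exact by
   have hs0 : 0 < s := by linarith
   have hs1 : s < 1 := by linarith [hP0.lt1]
   have hst : s < t - v₁ + e₁ := by
     have := hA.vel P₀ hP₀K
     rwa [hs P₀ hP₀K] at this
   -- the second row
   have hP01 := hP0.lt1
   obtain ⟨d, hd⟩ : ∃ d, d = (1 - P₀) / 4 := ⟨_, rfl⟩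
   have hd0 : 0 < d := by rw [hd]; linarith only [hP01]
   obtain ⟨δd, hδd, hδd'⟩ := hc0 (d / 2) (half_pos hd0)
   obtain ⟨P₁, hP₁K, hlt, hlt', hc1⟩ := hsel
     (min (min (δd / 4) ((1 - P₀) / 8)) (min e₁ ((v₁ - (P₀ - s)) / 4)))
     (lt_min (lt_min (by linarith) (by linarith)) (lt_min he1 (by linarith)))
   obtain ⟨x, hx⟩ : ∃ x, x = P₁ - P₀ := ⟨_, rfl⟩
   have hx0 : 0 < x := by rw [hx]; linarith only [hlt]
   have hx1 : x < δd / 4 := by
     have := (min_le_left _ _).trans (min_le_left _ _) |> lt_of_lt_of_le (show x < _ by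
       rw [hx]; linarith only [hlt'])
     exact this
   have hx2 : x < (1 - P₀) / 8 := (show x < _ by rw [hx]; linarith only [hlt'] : x < _).trans_le
     ((min_le_left _ _).trans (min_le_right _ _))
   have hx3 : x < e₁ := (show x < _ by rw [hx]; linarith only [hlt'] : x < _).trans_le
     ((min_le_right _ _).trans (min_le_left _ _))
   have hx4 : x < (v₁ - (P₀ - s)) / 4 := (show x < _ by rw [hx]; linarith only [hlt'] : x < _).trans_le
     ((min_le_right _ _).trans (min_le_right _ _))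
   have hP1 := hPR P₁ hP₁K
   have hW1 : W P₁ = P₁ - s := by linarith only [hs, hP₁K, hs P₁ hP₁K]
   rw [hW1] at hP1
   -- the zoom
   obtain ⟨CT, hCT, hT'⟩ := hT
   exact by
    obtain ⟨εT, y₂, r', hεT, hy₂, hr', hT2⟩ := hT' x d (c * Real.log 2) hx0 hd0.le
      (mul_pos hC.c0 (Real.log_pos (by norm_num)))
    obtain ⟨y, hy⟩ : ∃ y, y = min y₂ 1 := ⟨_, rfl⟩
    have hy0 : 0 < y := by rw [hy]; exact lt_min hy₂ one_pos
    have hy1 : y ≤ 1 := by rw [hy]; exact min_le_right _ _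
    have hyy : y ≤ y₂ := by rw [hy]; exact min_le_left _ _
    obtain ⟨g, hg⟩ : ∃ g, g = min β 1 / 8 := ⟨_, rfl⟩
    have hg0 : 0 < g := by
      rw [hg]
      have := lt_min hβ0 one_pos
      linarith only [this]
    have hgβ : g ≤ β / 8 := by
      rw [hg]
      have := min_le_left β 1
      linarith only [this]
    have hg1 : g ≤ 1 / 8 := by
      rw [hg]
      have := min_le_right β 1
      linarith only [hWp, hpis, hrot0, hβ, hlt, hx, hx2, hg, hgβ]
    have hgy : g * y ≤ β / 8 := by nlinarith only [he1, hy1, hβe, hy0, hgβ]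
    have hgy0 : 0 < g * y := mul_pos hg0 hy0
    -- the window of the contradiction
    obtain ⟨δx, hδx, hδx'⟩ := hc0 (g * y / 16) (by linarith only [hgy0])
    obtain ⟨wx, hwx1, hwx2⟩ := exists_rat_btwn (show P₀ - s < P₀ - s + min δx (v₁ - (P₀ - s)) by
      have := lt_min hδx (show (0 : ℝ) < v₁ - (P₀ - s) by linarith only [hWv])
      linarith only [this])
    have hwx3 : (wx : ℝ) - (P₀ - s) < δx := by
      have := min_le_left δx (v₁ - (P₀ - s))
      linarith only [hwx2, this]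
    have hwx4 : (wx : ℝ) < v₁ := by
      have := min_le_right δx (v₁ - (P₀ - s))
      linarith only [hwx2, this]
    exact by
     have hwx0 : 0 ≤ wx := by
       have : (0 : ℝ) ≤ wx := by linarith only [hWp, hwx1]
       exact_mod_cast this
     have hwx4' : wx ≤ v₁ := by exact_mod_cast hwx4.le
     have hwx5 : wx ≤ 1 := hwx4'.trans hA.v1.le
     have hrx : (σ 1).rot wx ≤ (σ 1).rot v₁ := rot_window hC.ne hR1 hwx0 hwx4' hA.v1.le
     obtain ⟨xP, hxP⟩ : ∃ xP, xP = min (g / 16) ((wx - (P₀ - s)) / 2) := ⟨_, rfl⟩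
     have hxP0 : 0 < xP := by rw [hxP]; exact lt_min (by linarith only [hg0]) (by linarith only [hwx1])
     have hxPg : xP ≤ g / 16 := by rw [hxP]; exact min_le_left _ _
     have hxPw : xP ≤ (wx - (P₀ - s)) / 2 := by rw [hxP]; exact min_le_right _ _
     obtain ⟨z, hz⟩ : ∃ z, z = (σ 1).rot wx + g * y / 16 := ⟨_, rfl⟩
     obtain ⟨z', hz'⟩ : ∃ z', z' = (σ 1).rot wx + g * y / 8 := ⟨_, rfl⟩
     obtain ⟨δE, hδE, τE, hτE, JE, hE2⟩ := hE S a R h₁ i₀ c s₂ r D σ hC wx hwx0 hwx5 z z' xP g y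
       (by rw [hz]; linarith only [hgy0]) (by rw [hz]; linarith only [hWp, hpis, hβ, hlt, hx, hx2, hgβ, hgy, hrx, hxP0, hxPg]) (by rw [hz, hz']; linarith only [hgy0]) hxP0
       (by linarith only [hWv, hWp, hv1, hpis, hrot0, hβ, hlt, hx, hx2, hgβ, hxPg]) hg0 (by linarith only [hWp, hpis, hrot0, hβ, hlt, hx, hx2, hgβ, hxP0, hxPg]) hy0
     obtain ⟨ψ, hψ, hH2⟩ := hH S a R h₁ i₀ c s₂ r D σ hC K W v₁ t e₁ hA hv0 (by rw [← hsE]; exact hs1)
       (by rw [← hsE]; exact hst) (by rw [← hsE]; exact hs0.le) y g (2 * g) β CT r' hy0 hg0 rfl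
       (by linarith only [hWp, hpis, hrot0, hβ, hlt, hx, hx2, hgβ, hxP0, hxPg]) hgβ hβ0 hCT
     obtain ⟨η, hη, n, JO, hO2⟩ := pzo_unif hO hSTP hSLP i₀ hr' hg0 (by linarith only [hxP0, hxPg] : g < 2 * g)
       (by linarith only [hWp, hpis, hrot0, hβ, hlt, hx, hx2, hgβ, hxP0, hxPg]) hψ hxP0 hxPg hδE
     obtain ⟨eH, heH, κ, hκ, τH, hτH, JH, hH3⟩ := hH2 n η hη
     rw [← hsE] at hH3
     -- the tolerance
     obtain ⟨e, he, hele⟩ := fin_low (ι := Fin 5) ![εT / 32, eH / 8, e₁ / 8, β / 32, g * y / 64] (by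
         intro i
         fin_cases i <;> simp <;> linarith)
     have m0 := hele 0
     have m1 := hele 1
     have m2 := hele 2
     have m3 := hele 3
     exact by
      have m4 := hele 4
      simp at m0 m1 m2 m3 m4
      obtain ⟨w₀, w₁, w', hcho, hwe⟩ := cho_ex hC hA.v1 hs0 hP0 hP1 hc1 hc0 hlt hδd hδd'
        (by rw [← hx]; exact hx1) hWv (by rw [← hx]; exact hx4.le) he
        (show 0 < (wx - (P₀ - s)) / 2 by linarith only [hxP0, hxPw])
      rw [← hx] at hcho
      have c_a0 := hcho.a0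
      have c_b0 := hcho.b0
      have c_a1 := hcho.a1
      have c_b1 := hcho.b1
      have c_a2 : (w₁ : ℝ) < w' := by exact_mod_cast hcho.a2
      have c_b2 := hcho.b2
      have c_v := hcho.v
      have w00r : (0 : ℝ) < w₀ := by linarith only [hWp, c_a0]
      have w00 : 0 < w₀ := by exact_mod_cast w00r
      have w01 : w₀ ≤ w₁ := by
        have : (w₀ : ℝ) ≤ w₁ := by linarith only [hlt, hx, c_a1]
        exact_mod_cast this
      have w10 : 0 < w₁ := w00.trans_le w01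
      have w11r : (w₁ : ℝ) < 1 := by linarith only [hpis, hrot0, hβ, hlt, hx, hx2, hgy, he, m4, c_b0, c_b1]
      have w11 : w₁ < 1 := by exact_mod_cast w11r
      have w0v : w₀ ≤ v₁ := by
        have : (w₀ : ℝ) ≤ v₁ := by linarith only [hlt, hx, hx4, hwx4, hwe]
        exact_mod_cast this
      have w1v : w₁ ≤ v₁ := by
        have : (w₁ : ℝ) ≤ v₁ := by linarith only [c_a2, c_v]
        exact_mod_cast this
      have w'v : w' ≤ v₁ := by exact_mod_cast c_v
      have r0v : (σ 1).rot w₀ ≤ (σ 1).rot v₁ := rot_window hC.ne hR1 w00.le w0v hA.v1.le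
      have r1v : (σ 1).rot w₁ ≤ (σ 1).rot v₁ := rot_window hC.ne hR1 w10.le w1v hA.v1.le
      exact by
       have r'v : (σ 1).rot w' ≤ (σ 1).rot v₁ := rot_window hC.ne hR1 (w10.le.trans hcho.a2.le) w'v
         hA.v1.le
       have r01 : (σ 1).rot w₀ ≤ (σ 1).rot w₁ := rot_window hC.ne hR1 w00.le w01 (w1v.trans hA.v1.le)
       have hP0h := hP0.half
       have hP1h := hP1.half
       have hP11 := hP1.lt1
       obtain ⟨l₀, hl₀⟩ : ∃ l₀, l₀ = (σ 1).rot w₀ - e / 8 := ⟨_, rfl⟩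
       obtain ⟨l₁, hl₁⟩ : ∃ l₁, l₁ = (σ 1).rot w₁ - e / 8 := ⟨_, rfl⟩
       have hl1m : max l₁ 0 ≤ (σ 1).rot v₁ := max_le (by linarith only [he, r1v, hl₁]) hrot0
       -- labels
       have cN := hN S a R h₁ i₀ c s₂ r D σ hC P₀ P₁ w₀ w₁ l₀ l₁ (P₀ - e) (P₁ - e) e (by linarith only [hWp, hpis, hrot0, hβ, hgy, he, m4])
         hlt.le hP1.lt1.le hP0.nD hP1.nD w00 w01 w11 (by linarith only [hβ, hgy, he, m4, r1v]) he (by linarith only [r01, hl₀, hl₁])
         (by rw [hl₀]; exact hcho.r0) (by rw [hl₁]; exact hcho.r1) (by linarith only [hl₁]) hcho.t0 hcho.t1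
         (by linarith only [hlt]) (by linarith only [hpis, hβ, hβe, hx3, hgy, he, m4, c_b0, c_b1, hl1m])
       -- fullness and rates
       have f1 := hF S a R h₁ i₀ c s₂ r D σ hC act κa hact (P₁ - e) (by linarith only [hWp, hpis, hrot0, hβ, hlt, hgy, he, m4]) (by linarith only [hP01, hx, hx2, he]) w₁ w' w10 hcho.a2
         (by linarith only [hpis, hrot0, hβ, hlt, hx, hx2, hgy, he, m4, c_b0, c_b1, c_b2]) (by linarith only [hpis, hβ, hx, hgy, he, m4, c_b0, c_b1, c_b2, r'v]) (by linarith only [hβ, hgy, he, m4, r'v]) hcho.u1 e he (by linarith only [c_b2]) hcho.re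
       have f0 := hF S a R h₁ i₀ c s₂ r D σ hC act κa hact (P₀ - e) (by linarith only [hWp, hpis, hrot0, hβ, hgy, he, m4]) (by linarith only [hP01, he]) w₁ w' w10 hcho.a2
         (by linarith only [hpis, hrot0, hβ, hlt, hx, hx2, hgy, he, m4, c_b0, c_b1, c_b2]) (by linarith only [hpis, hβ, hβe, hx3, hgy, he, m4, c_b0, c_b1, c_b2, r'v]) (by linarith only [hβ, hgy, he, m4, r'v]) hcho.u0 e he (by linarith only [c_b2]) hcho.re
       obtain ⟨τF, hτF, JF, hFF⟩ := (f1.and f0).and ((hBR P₀ (by linarith only [hWp, hpis, hrot0, hβ, hgy, he, m4]) (by linarith only [hP01]) e he).and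
         (hBR P₁ (by linarith only [hWp, hpis, hrot0, hβ, hlt, hgy, he, m4]) (by linarith only [hP01, hx, hx2]) e he))
       obtain ⟨δT, hδT, hδTle⟩ := fin_low (ι := Fin 3) ![τF / 8, τH / 8, τE / 8] (by
           intro i
           fin_cases i <;> simp <;> linarith)
       have n0 := hδTle 0
       have n1 := hδTle 1
       have n2 := hδTle 2
       simp at n0 n1 n2
       obtain ⟨JT, hT3⟩ := hT2 κ δT hκ hδT
       -- the resolutions
       exact by
        obtain ⟨J1, hJ1⟩ := ful_num (P := P₁) (e := e) (w := w₁) (l := l₁) (ρ := (σ 1).rot w₁)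
          (ε := εT) he (by linarith only [he, m0]) (by
            have := le_max_left l₁ 0
            linarith only [hl₁, this]) (by linarith only [hWp, hpis, hrot0, hβ, hlt, hgy, he, m4])
        obtain ⟨J2, hJ2⟩ := ful_num (P := P₀) (e := e) (w := w₁) (l := l₁) (ρ := (σ 1).rot w₁)
          (ε := εT) he (by linarith only [he, m0]) (by
            have := le_max_left l₁ 0
            linarith only [hl₁, this]) (by linarith only [hWp, hpis, hrot0, hβ, hgy, he, m4])
        obtain ⟨J3, hJ3⟩ := rate_num (P₀ := P₀) (P₁ := P₁) (R₀ := r P₀) (R₁ := r P₁) (c := c) (e := e)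
          (ε := εT) (by linarith only [hWp, hpis, hrot0, hβ, hgy, he, m4]) hlt.le hεT (by linarith only [he, m0]) (hP1.plr P₀ (by linarith only [hWp, hpis, hrot0, hβ, hgy, he, m4]) hlt.le)
        obtain ⟨J4, hJ4⟩ := npz (P₀ := P₀) (P₁ := P₁) (w₀ := w₀) (w₁ := w₁) (l₀ := l₀) (l₁ := l₁)
          (x := x) (d := d) (e := e) (ε := εT) hx hx0 he (by linarith only [he, m0]) (by linarith only [hWp, hpis, hrot0, hβ, hgy, he, m4]) w00r.le c_a1 c_b1
          (by linarith only [r01, hl₀, hl₁]) hd0 (by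
            have := hcho.rd
            linarith only [hl₀, hl₁, this]) (by linarith only [hpis, hβ, hβe, hx3, hgy, he, m4, c_b0, c_b1, hl1m]) (by linarith only [hP01, hd, hx2])
        have hcx : (σ 1).rot wx ≤ (σ 1).rot w₀ + g * y / 16 := by
          have q0 : |(wx : ℝ) - (P₀ - s)| < δx := by
            rw [abs_of_nonneg (by linarith only [hxP0, hxPw])]
            exact hwx3
          have q1 : |(w₀ : ℝ) - (P₀ - s)| < δx := by
            rw [abs_of_nonneg (by linarith only [c_a0])]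
            linarith only [hwx3, hxP0, hxPw, hwe]
          have := (le_abs_self _).trans (hδx' wx w₀ q0 q1)
          linarith only [this]
        obtain ⟨J5, hJ5⟩ := nph (P₀ := P₀) (s := s) (w₀ := w₀) (l₀ := l₀) (ρ₀ := (σ 1).rot w₀) (e := e)
          (eH := eH) (ϖ := (σ 1).pi) (β := β) (g := g) (y := y) (z' := z') (xP := xP) (wx := wx) he
          (by linarith only [he, m1]) (by linarith only [hgy, he, m4]) hl₀ (by linarith only [hβ, r0v]) (by linarith only [hrot0, hβ]) w00r.le (by linarith only [c_b0]) hg0 hy0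
          (by linarith only [m4]) (by rw [hz']; linarith only [hcx]) (by rw [hz']; linarith only [hpis, hβ, hgy, hrx, he, m4]) hxP0 (by linarith only [hxPw, hwe])
          (by linarith only [hWp, hpis, hrot0, hβ, hgy, he, m4])
        obtain ⟨J6, hJ6⟩ := Pool.S6K.exp_small (κ := δT) (C := 97) hδT (by norm_num)
        exact by
         obtain ⟨J7, hJ7⟩ := exists_nat_gt ((JO : ℝ) / y)
         obtain ⟨JM, hJM⟩ := fin_up (ι := Fin 12) ![J1, J2, J3, J4, J5, J6, J7, JT, JF, JH, JE, 1]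
         -- the family
         obtain ⟨J, hJ, F, A, hSt, hqN, hqP, hqL⟩ := (cN.and ((hR1.pi.1 e he).and
           (lab_clp hC hv0 hA.v1.le (t := t) (by exact_mod_cast hA.t0.le) hA.lt))).real hC.ne hδT JM
         have g0 : J1 ≤ J := (hJM 0).trans hJ
         have g1 : J2 ≤ J := (hJM 1).trans hJ
         have g2 : J3 ≤ J := (hJM 2).trans hJ
         have g3 : J4 ≤ J := (hJM 3).trans hJ
         have g4 : J5 ≤ J := (hJM 4).trans hJ
         have g5 : J6 ≤ J := (hJM 5).trans hJ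
         have g6 : J7 ≤ J := (hJM 6).trans hJ
         have g7 : JT ≤ J := (hJM 7).trans hJ
         have g8 : JF ≤ J := (hJM 8).trans hJ
         have g9 : JH ≤ J := (hJM 9).trans hJ
         have g10 : JE ≤ J := (hJM 10).trans hJ
         obtain ⟨iu, iN, y0, y1, hN2⟩ := hqN
         obtain ⟨hk2, hnpz⟩ := hJ4 J g3
         obtain ⟨lam, yz, A₁, hA₁, hPA₁, hlam1, hlam2, hPz, hSlo, hcs⟩ := frame_ch hk2 hN2
         have hSt1 : S.St (δT + δT) J F A₁ := st_part hδT.le (by norm_num) hSt hA₁ hPA₁ (hJ6 J g5)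
         have hposS : ∀ {τ : ℝ} {B : F.Ω → Prop}, S.St τ J F B → 0 < Pe F.p B := fun h =>
           lt_of_lt_of_le (Real.exp_pos _) (hC.st _ J F _ h).2.2.2
         have hN2' := hN2.sub hA₁
         have hnz := hnpz lam hlam1 hlam2
         have hStB : ∀ B : F.Ω → Prop, Sub B A₁ → Real.exp (-(δT * J)) * Pe F.p A₁ ≤ Pe F.p B →
             S.St (3 * δT) J F B := fun B hB hP => by
           have := S.res hδT.le hSt1 hB hP
           exact S.mono (by linarith only) this
         -- the tail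
         obtain ⟨A', hA', hPA', J', hJ', hroom, htail⟩ := hT3 J g7 F i₀ iu iN _ _ _ _ _ _ _ _ _ _ lam y0
           y1 yz A₁ (hposS hSt1) hN2' hPz hcs hnz.a1 hnz.a2 hnz.a3 hnz.a4 hnz.a5 hnz.a6 hnz.a7 hnz.a8
           hnz.a9 hnz.b1 hnz.b2 hnz.b3 hnz.b4 hnz.b5 hnz.b6 (by
             intro B hB hP
             have hSB := hStB B hB hP
             obtain ⟨⟨q1, q2⟩, q3, q4⟩ := hFF J g8 F B (S.mono (by linarith only [hδT, n0]) hSB)
             refine ⟨fun Λ y h1 h2 => (hJ1 J g0).trans (q1 Λ y h1 h2),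
               fun Λ y h1 h2 => (hJ2 J g1).trans (q2 Λ y h1 h2), hJ3 J g2 _ _ q4 q3⟩)
         exact by
          have hStA' := hStB A' hA' hPA'
          have hlaw : IsLaw (Pool.Agent.H49.Ent.cond F.p A' True) := isLaw_cond F.isLaw (hposS hStA')
          have hwp : ⌊(w₀ : ℝ) * J⌋₊ ≤ ⌊(P₀ - e) * J⌋₊ := by
            have := hPz.wP
            omega
          have hh' : ⌊(w₀ : ℝ) * J⌋₊ + J' ≤ J := by omega
          have hJJ : J' ≤ J := by omega
          have hJ0 : (0 : ℝ) ≤ J := Nat.cast_nonneg J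
          have hyJ : y * J ≤ J' := (mul_le_mul_of_nonneg_right hyy hJ0).trans hJ'
          obtain ⟨h5a, h5b, h5c⟩ := hJ5 J g4
          obtain ⟨h5d, h5e, h5f⟩ := h5c lam J' hlam1 hlam2 hyJ hJJ
          have hlq : lam ≤ ⌊((σ 1).pi - e) * J⌋₊ := by
            have : (lam : ℝ) ≤ (⌊((σ 1).pi - e) * (J : ℝ)⌋₊ : ℝ) := by
              have : 0 ≤ β / 2 * J := by positivity
              linarith only [h5d, this]
            exact_mod_cast this
          have hPz' : PzF F i₀ iu iN J ⌊(w₀ : ℝ) * J⌋₊ lam ⌊(P₀ - e) * J⌋₊ yz A' := (hPz.sub hA').row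
          have hSlo' := hSlo.sub hA'
          have hA'A : Sub A' A := fun ω hω => hA₁ ω (hA' ω hω)
          have hZD : ZD F i₀ iu iN ⌊(w₀ : ℝ) * J⌋₊ lam ⌊(P₀ - e) * J⌋₊ ⌊((σ 1).pi - e) * J⌋₊ J' y0 yz
              A' := by
            obtain ⟨χ, hχ⟩ := ptq_coarse F hN2.rJ
            obtain ⟨φ, hφ⟩ := hN2.v0
            obtain ⟨φ', hφ'⟩ := hN2.c0
            refine ⟨hPz', hSlo', fun ω hω => ⟨(hcs ω (hA' ω hω)).1, (hcs ω (hA' ω hω)).2.1⟩,
              fun ω hω => incC (hN2.i0 ω (hA'A ω hω)) (by norm_num) le_rfl (Nat.zero_le _),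
              ⟨fun u => φ (χ u), fun ω hω => ?_⟩, ⟨φ', fun ω hω => hφ' ω (hA'A ω hω)⟩, hroom, hlq⟩
            have h1 : ptr F ⌊P₀ * (J : ℝ)⌋₊ ω = χ (ptr F J ω) := hχ ω
            have h2 : ptq F J ω = ptr F J ω := rfl
            rw [hφ ω (hA'A ω hω), h1]
            rfl
          -- the fans are straight
          exact by
           have hLU : LineU i₀ (1 / 2 ^ ⌊((σ 1).pi - eH) * J⌋₊) (Fam.pt F) F.d A' := by
             rcases hqP with hq | ⟨-, hq⟩
             · linarith only [hrot0, hβ, hgy, he, m4, hq]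
             · unfold qPi at hq
               rw [ptq_one F] at hq
               refine LineU.mono (LineU.hered (i₀ := i₀) (r := 1 / 2 ^ ⌊((σ 1).pi - e) * J⌋₊)
                 (pt := Fam.pt F) (d := F.d) A A' hA'A hq) ?_
               exact one_div_le_one_div_of_le (by positivity) (pow_le_pow_right₀ (by norm_num)
                 (fl_mono (by linarith only [he, m1]) J))
           have hLab : ∃ iu' iN' : Fin 3, (∀ j : Fin 3, j = i₀ ∨ j = iu' ∨ j = iN') ∧
               LABq F J i₀ iu' iN' ⌊(v₁ : ℝ) * J⌋₊ 0 ⌊(t : ℝ) * J⌋₊ 2 A' := by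
             obtain ⟨iu', iN', hc', hL'⟩ := hqL
             exact ⟨iu', iN', hc', LABq.hered _ _ _ _ _ _ _ _ _ _ _ hA'A hL'⟩
           have hPH := hH3 J g9 F A' (S.mono (by linarith only [hδT, n1]) hStA') hLU hLab iu iN _ lam _ _ J' y0 yz hZD
             (fl_mono (by exact_mod_cast w0v) J) h5a h5d hyJ hlaw hh' (fun ψ e hψ B hB hP hTm P' hP' =>
               htail hlaw hh' ψ e hψ B hB hP hTm P' hP')
           have hJO : JO ≤ J' := by
             have h1 : (JO : ℝ) / y < J := hJ7.trans_le (by exact_mod_cast g6)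
             rw [div_lt_iff₀ hy0] at h1
             have h2 : (JO : ℝ) ≤ J' := by linarith only [hyJ, h1]
             exact_mod_cast h2
           obtain ⟨B, hB, hRot⟩ := hO2 J' hJO _ iu iN hN2.cov hPH
           exact hE2 J g10 F A' (S.mono (by linarith only [hδT, n2]) hStA') iu iN _ lam _ _ J' yz hPz' hroom hlq hSlo' hyJ
             h5f h5e h5b hlaw hh' B hB hRot

end Pool.PZ
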