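import Pool.Agent.H96.PZ.Stmts5
import Pool.Agent.H34.PZ.Sel

/-!
# The plank zoom: choice of the numbers
-/

set_option autoImplicit false

namespace Pool.PZ

open Finset Real
open Pool.Agent.H49.Ent Pool.Agent.H32.Dense Pool.STK Pool.KA Pool.KSAT Pool.K2S Pool.PB Pool.KS6
open Pool.ZCL Pool.S6C

/-- Selection of the rows. -/
theorem sel_ex {S : PCl 3} {a R h₁ : ℝ} {i₀ : Fin 3} {c s₂ : ℝ} {r : ℝ → ℝ} {D : Set ℝ}
    {σ : ℝ → Row} (hC : Cs S a R h₁ i₀ c s₂ r D σ) {K : Set ℝ} {W : ℝ → ℝ} {v₁ t : ℚ} {e₁ s : ℝ}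
    (hK : MeasureTheory.volume K ≠ 0) (hP : ∀ Q ∈ K, PR c r D σ Q (W Q))
    (hA : Adm σ K W v₁ t e₁) (hs : ∀ Q ∈ K, Q - W Q = s) :
    ∃ P₀ ∈ K, CtQ (σ 1).rot (P₀ - s) ∧ ∀ ε : ℝ, 0 < ε → ∃ P₁ ∈ K, P₀ < P₁ ∧ P₁ < P₀ + ε ∧
      CtQ (σ 1).rot (P₁ - s) := by
  refine selp_thm K (σ 1).rot s hK (fun P hPK => ?_) fun u v hu huv hv =>
    rot_window hC.ne (hC.row 1 one_pos le_rfl hC.D1) hu huv hv
  have h1 := hs P hPK
  have h2 := (hP P hPK).ws0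
  have h3 := hA.ab P hPK
  have h4 : (v₁ : ℝ) < 1 := by exact_mod_cast hA.v1
  constructor <;> linarith

/-- The windows. -/
structure Cho (σ : ℝ → Row) (v₁ : ℚ) (W₀ P₀ P₁ x d e : ℝ) (w₀ w₁ w' : ℚ) : Prop where
  a0 : W₀ < w₀
  b0 : (w₀ : ℝ) ≤ W₀ + e
  a1 : (w₀ : ℝ) + x < w₁
  b1 : (w₁ : ℝ) ≤ w₀ + x + e
  a2 : w₁ < w'
  b2 : (w' : ℝ) ≤ w₁ + e
  v : (w' : ℝ) ≤ v₁
  rd : (σ 1).rot w₁ - (σ 1).rot w₀ ≤ d / 2
  re : (σ 1).rot w' - (σ 1).rot w₁ ≤ e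
  r0 : (σ 1).rot w₀ - e / 8 < (σ P₀).rot w₀
  r1 : (σ 1).rot w₁ - e / 8 < (σ P₁).rot w₁
  t0 : P₀ - e < (σ P₀).th w₀
  t1 : P₁ - e < (σ P₁).th w₁
  u1 : P₁ - e < (σ 1).th w₁
  u0 : P₀ - e < (σ 1).th w₁

theorem cho_ex {S : PCl 3} {a R h₁ : ℝ} {i₀ : Fin 3} {c s₂ : ℝ} {r : ℝ → ℝ} {D : Set ℝ}
    {σ : ℝ → Row} (hC : Cs S a R h₁ i₀ c s₂ r D σ) {v₁ : ℚ} (hv : v₁ < 1)
    {P₀ P₁ s d δd e e₂ : ℝ} (hs : 0 < s) (hP0 : PR c r D σ P₀ (P₀ - s))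
    (hP1 : PR c r D σ P₁ (P₁ - s)) (hc1 : CtQ (σ 1).rot (P₁ - s))
    (hc0 : CtQ (σ 1).rot (P₀ - s)) (hx : P₀ < P₁) (hδ : 0 < δd)
    (hd : ∀ u v : ℚ, |(u : ℝ) - (P₀ - s)| < δd → |(v : ℝ) - (P₀ - s)| < δd →
      |(σ 1).rot u - (σ 1).rot v| ≤ d / 2) (hxd : P₁ - P₀ < δd / 4)
    (hv0 : P₀ - s < v₁) (hxv : P₁ - P₀ ≤ (v₁ - (P₀ - s)) / 4) (he : 0 < e) (he2 : 0 < e₂) :
    ∃ w₀ w₁ w' : ℚ, Cho σ v₁ (P₀ - s) P₀ P₁ (P₁ - P₀) d e w₀ w₁ w' ∧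
      (w₀ : ℝ) ≤ (P₀ - s) + e₂ := by
  obtain ⟨δ₀, hδ₀, h0⟩ := turn_row hC hP0 hc0 (e := e / 8) (by linarith only [he])
  obtain ⟨δ₁, hδ₁, h1⟩ := turn_row hC hP1 hc1 (e := e / 8) (by linarith only [he])
  obtain ⟨δ₂, hδ₂, h2⟩ := hc1 e he
  obtain ⟨m, hm, hmle⟩ := fin_low (ι := Fin 8)
    ![e, e₂, δ₀ / 4, δ₁ / 4, δ₂ / 4, δd / 8, (v₁ - (P₀ - s)) / 8, s / 4] (by
      intro i
      fin_cases i <;> simp <;> linarith)
  have m0 := hmle 0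
  have m1 := hmle 1
  have m2 := hmle 2
  have m3 := hmle 3
  have m4 := hmle 4
  have m5 := hmle 5
  have m6 := hmle 6
  have m7 := hmle 7
  simp at m0 m1 m2 m3 m4 m5 m6 m7
  obtain ⟨w₀, ha0, hb0⟩ := exists_rat_btwn (show P₀ - s < P₀ - s + m by linarith only [hm])
  obtain ⟨w₁, ha1, hb1⟩ := exists_rat_btwn (show (w₀ : ℝ) + (P₁ - P₀) < w₀ + (P₁ - P₀) + m by
    linarith only [ha0, hb0])
  obtain ⟨w', ha2, hb2⟩ := exists_rat_btwn (show (w₁ : ℝ) < w₁ + m by linarith only [ha0, hb0])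
  have hW0 := hP0.ws0
  have hv' : (v₁ : ℝ) < 1 := by exact_mod_cast hv
  have w00 : (0 : ℚ) ≤ w₀ := by
    have : (0 : ℝ) ≤ w₀ := by linarith only [ha0, hW0]
    exact_mod_cast this
  have w10 : (0 : ℚ) ≤ w₁ := by
    have : (0 : ℝ) ≤ w₁ := by linarith only [hx, ha0, ha1, hW0]
    exact_mod_cast this
  have hwv : (w' : ℝ) ≤ v₁ := by linarith only [hxv, m6, ha0, hb0, hb1, hb2]
  have w01 : w₀ ≤ 1 := by
    have : (w₀ : ℝ) ≤ 1 := by linarith only [m6, ha0, hb0, hv']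
    exact_mod_cast this
  have w11 : w₁ ≤ 1 := by
    have : (w₁ : ℝ) ≤ 1 := by linarith only [hxv, m6, ha0, hb0, hb1, hv']
    exact_mod_cast this
  have ab : ∀ {p q : ℝ}, 0 ≤ p → p < q → |p| < q := fun h1 h2 => by
    rw [abs_of_nonneg h1]
    exact h2
  have t0 := th_row hC hP0 (w := w₀) ha0 (by linarith only [m7, ha0, hb0]) (p := P₀ - e) (by linarith only [m0, ha0, hb0])
  have t1 := th_row hC hP1 (w := w₁) (by linarith only [ha0, ha1]) (by linarith only [m7, ha0, hb0, hb1]) (p := P₁ - e) (by linarith only [m0, ha0, hb0])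
  have t2 := th_row hC hP1 (w := w₁) (by linarith only [ha0, ha1]) (by linarith only [m7, ha0, hb0, hb1]) (p := P₀ - e) (by linarith only [hx, m0, ha0, hb0])
  refine ⟨w₀, w₁, w', ⟨ha0, by linarith only [m0, hb0], ha1, by linarith only [m0, hb1], by exact_mod_cast ha2, by linarith only [m0, hb2], hwv,
    ?_, ?_, ?_, ?_, t0.1, t1.1, t1.2, t2.2⟩, by linarith only [m1, hb0]⟩
  · exact (le_abs_self _).trans (hd w₁ w₀ (ab (by linarith only [hx, ha0, ha1]) (by linarith only [hxd, m5, ha0, hb0, hb1]))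
      (ab (by linarith only [ha0]) (by linarith only [m5, ha0, hb0])))
  · exact (le_abs_self _).trans (h2 w' w₁ (ab (by linarith only [ha0, ha1, ha2]) (by linarith only [m4, ha0, hb0, hb1, hb2]))
      (ab (by linarith only [ha0, ha1]) (by linarith only [m4, ha0, hb0, hb1])))
  · exact h0 w₀ (ab (by linarith only [ha0]) (by linarith only [m2, ha0, hb0])) w00 w01
  · exact h1 w₁ (ab (by linarith only [ha0, ha1]) (by linarith only [m3, ha0, hb0, hb1])) w10 w11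

/-- Fullness, in integers. -/
theorem ful_num {P e w l ρ ε : ℝ} (he : 0 < e) (heε : 16 * e ≤ ε) (hρ : ρ ≤ max l 0 + e / 8)
    (hP : 0 ≤ P) : ∃ J₁ : ℕ, ∀ J ≥ J₁,
    (2 * (⌊P * (J : ℕ)⌋₊ : ℝ) - 2 * (⌊w * J⌋₊ : ℝ) - (⌊l * J⌋₊ : ℝ)) * Real.log 2 - ε * J ≤
      (2 * (P - e) - 2 * w - ρ - 6 * e) * J * Real.log 2 := by
  obtain ⟨J₁, hJ₁⟩ := exists_nat_gt (8 / ε)
  refine ⟨J₁, fun J hJ => ?_⟩
  have hε : 0 < ε := by linarith only [he, heε]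
  have hJr : 8 / ε < J := hJ₁.trans_le (by exact_mod_cast hJ)
  rw [div_lt_iff₀ hε] at hJr
  have hJ0 : (0 : ℝ) ≤ J := Nat.cast_nonneg J
  have f1 : ((⌊P * (J : ℝ)⌋₊ : ℕ) : ℝ) ≤ P * J := Nat.floor_le (by positivity)
  have f2 := Nat.lt_floor_add_one (w * (J : ℝ))
  have f3 := Nat.lt_floor_add_one (l * (J : ℝ))
  have f4 : max l 0 * J ≤ (⌊l * (J : ℝ)⌋₊ : ℝ) + 1 := by
    rcases le_total l 0 with h | h
    · rw [max_eq_right h]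
      have : (0 : ℝ) ≤ (⌊l * (J : ℝ)⌋₊ : ℝ) := Nat.cast_nonneg _
      linarith only
    · rw [max_eq_left h]
      exact f3.le
  have l0 : 0 < Real.log 2 := Real.log_pos (by norm_num)
  have l1 : Real.log 2 ≤ 1 := by
    have := Real.log_two_lt_d9
    linarith only [l0, this]
  have k1 : 2 * (⌊P * (J : ℝ)⌋₊ : ℝ) - 2 * (⌊w * (J : ℝ)⌋₊ : ℝ) - (⌊l * (J : ℝ)⌋₊ : ℝ) ≤
      (2 * (P - e) - 2 * w - ρ - 6 * e) * J + (3 + 9 * e * J) := by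
    have h1 : ρ * J ≤ (max l 0 + e / 8) * J := mul_le_mul_of_nonneg_right hρ hJ0
    have h2 : 0 ≤ e * J := by positivity
    nlinarith only [f1, f2, f4, h1, h2]
  have k2 : (3 + 9 * e * J) * Real.log 2 ≤ ε * J := by
    have h2 : 0 ≤ 3 + 9 * e * J := by positivity
    have h3 : 16 * e * J ≤ ε * J := mul_le_mul_of_nonneg_right heε hJ0
    calc (3 + 9 * e * J) * Real.log 2 ≤ (3 + 9 * e * J) * 1 := mul_le_mul_of_nonneg_left l1 h2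
      _ ≤ ε * J := by linarith only [hJr, h3]
  have k3 := mul_le_mul_of_nonneg_right k1 l0.le
  linarith only [k2, k3]

/-- The rate, in integers. -/
theorem rate_num {P₀ P₁ R₀ R₁ c e ε : ℝ} (hP0 : 0 ≤ P₀) (hP : P₀ ≤ P₁) (hε : 0 < ε)
    (heε : 4 * e ≤ ε) (hR : R₁ - R₀ ≤ (3 - c) * (P₁ - P₀)) : ∃ J₁ : ℕ, ∀ J ≥ J₁,
    ∀ H₀ H₁ : ℝ, |H₁ - R₁ * Real.log 2 * (J : ℕ)| ≤ e * J → |H₀ - R₀ * Real.log 2 * J| ≤ e * J →
    H₁ - H₀ ≤ (3 * Real.log 2 - c * Real.log 2) * ((⌊P₁ * J⌋₊ : ℝ) - ⌊P₀ * J⌋₊) + ε * J := by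
  obtain ⟨J₁, hJ₁⟩ := exists_nat_gt (2 * (|3 - c| + 1) / ε)
  refine ⟨J₁, fun J hJ H₀ H₁ h1 h0 => ?_⟩
  have hJr : 2 * (|3 - c| + 1) / ε < J := hJ₁.trans_le (by exact_mod_cast hJ)
  rw [div_lt_iff₀ hε] at hJr
  have hJ0 : (0 : ℝ) ≤ J := Nat.cast_nonneg J
  have l0 : 0 < Real.log 2 := Real.log_pos (by norm_num)
  have l1 : Real.log 2 ≤ 1 := by
    have := Real.log_two_lt_d9
    linarith only [l0, this]
  have f1 : ((⌊P₀ * (J : ℝ)⌋₊ : ℕ) : ℝ) ≤ P₀ * J := Nat.floor_le (by positivity)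
  have f2 := Nat.lt_floor_add_one (P₀ * (J : ℝ))
  have f3 : ((⌊P₁ * (J : ℝ)⌋₊ : ℕ) : ℝ) ≤ P₁ * J := by
    have : 0 ≤ P₁ := hP0.trans hP
    exact Nat.floor_le (by positivity)
  have f4 := Nat.lt_floor_add_one (P₁ * (J : ℝ))
  obtain ⟨a, ha⟩ : ∃ a : ℝ, a = (⌊P₁ * (J : ℝ)⌋₊ : ℝ) - (⌊P₀ * (J : ℝ)⌋₊ : ℝ) := ⟨_, rfl⟩
  rw [← ha]
  have h2 : |(P₁ - P₀) * J - a| ≤ 1 := by
    rw [ha, abs_le]
    constructor <;> nlinarith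
  have h3 : (3 - c) * ((P₁ - P₀) * J) ≤ (3 - c) * a + |3 - c| := by
    have h4 : (3 - c) * ((P₁ - P₀) * J - a) ≤ |3 - c| * 1 := by
      refine (le_abs_self _).trans ?_
      rw [abs_mul]
      exact mul_le_mul_of_nonneg_left h2 (abs_nonneg _)
    linarith only [h4]
  have h5 : (R₁ - R₀) * J ≤ (3 - c) * a + |3 - c| := by
    have := mul_le_mul_of_nonneg_right hR hJ0
    linarith only [h3, this]
  have h6 := mul_le_mul_of_nonneg_right h5 l0.le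
  have h7 : |3 - c| * Real.log 2 ≤ |3 - c| := mul_le_of_le_one_right (abs_nonneg _) l1
  rw [abs_le] at h1 h0
  have h8 : 4 * e * J ≤ ε * J := mul_le_mul_of_nonneg_right heε hJ0
  nlinarith only [h1, h0, hJr, h6, h7, h8, h1.2, h0.1]

end Pool.PZ
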