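import Pool.Agent.H96.PZ.Main1

/-!
# The plank zoom: the numbers, in integers
-/

set_option autoImplicit false

namespace Pool.PZ

open Finset Real
open Pool.Agent.H49.Ent Pool.Agent.H32.Dense Pool.STK Pool.KA Pool.KSAT Pool.K2S Pool.PB Pool.KS6
open Pool.ZCL Pool.S6C

/-- The numbers for `PZT`. -/
structure NPZ (J r₀ r₁ w₀ l₀ p₀ w₁ l₁ p₁ k lam : ℕ) (x d ε : ℝ) : Prop where
  a1 : |((r₁ : ℝ) - r₀) - x * J| ≤ ε * J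
  a2 : w₀ + r₁ ≤ w₁ + r₀
  a3 : (w₁ : ℝ) + r₀ ≤ w₀ + r₁ + ε * J
  a4 : p₀ ≤ r₀
  a5 : p₀ ≤ p₁
  a6 : (r₀ : ℝ) ≤ p₀ + ε * J
  a7 : p₁ ≤ r₁
  a8 : (r₁ : ℝ) ≤ p₁ + ε * J
  a9 : (k : ℝ) ≤ ε * J
  b1 : l₀ ≤ l₁
  b2 : (l₁ : ℝ) ≤ l₀ + d * J
  b3 : lam ≤ l₀
  b4 : (l₀ : ℝ) ≤ lam + ε * J
  b5 : w₁ + l₁ ≤ p₀
  b6 : (r₀ : ℝ) + (2 * x + d) * J ≤ J

theorem fl_mono {a b : ℝ} (h : a ≤ b) (J : ℕ) : ⌊a * (J : ℝ)⌋₊ ≤ ⌊b * (J : ℝ)⌋₊ :=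
  Nat.floor_le_floor (mul_le_mul_of_nonneg_right h (Nat.cast_nonneg J))

theorem fl_pos {a : ℝ} (J : ℕ) : ((⌊a * (J : ℝ)⌋₊ : ℕ) : ℝ) ≤ max a 0 * J := by
  have h : ⌊a * (J : ℝ)⌋₊ ≤ ⌊max a 0 * (J : ℝ)⌋₊ := fl_mono (le_max_left _ _) J
  have h1 : ((⌊a * (J : ℝ)⌋₊ : ℕ) : ℝ) ≤ ⌊max a 0 * (J : ℝ)⌋₊ := by exact_mod_cast h
  refine h1.trans (Nat.floor_le ?_)
  have := le_max_right a 0
  positivity

theorem fl_low {a : ℝ} (J : ℕ) : max a 0 * J - 1 ≤ ((⌊a * (J : ℝ)⌋₊ : ℕ) : ℝ) := by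
  rcases le_total a 0 with h | h
  · rw [max_eq_right h]
    have : (0 : ℝ) ≤ ((⌊a * (J : ℝ)⌋₊ : ℕ) : ℝ) := Nat.cast_nonneg _
    linarith only
  · rw [max_eq_left h]
    have := Nat.lt_floor_add_one (a * (J : ℝ))
    linarith only [this]

theorem npz {P₀ P₁ w₀ w₁ l₀ l₁ x d e ε : ℝ} (hx : x = P₁ - P₀) (hx0 : 0 < x) (he : 0 < e)
    (heε : 8 * e ≤ ε) (hP0 : 0 ≤ P₀ - e) (hw0 : 0 ≤ w₀) (h1 : w₀ + x < w₁)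
    (h2 : w₁ ≤ w₀ + x + e) (hl : l₀ ≤ l₁) (hd : 0 < d) (hl' : l₁ - l₀ ≤ d / 2)
    (h3 : w₁ + max l₁ 0 + e < P₀ - e) (h4 : P₀ + 2 * x + d ≤ 1) : ∃ J₁ : ℕ, ∀ J ≥ J₁,
    2 ≤ ⌊e * (J : ℕ)⌋₊ ∧ ∀ lam : ℕ, lam ≤ ⌊l₀ * J⌋₊ → ⌊l₀ * J⌋₊ ≤ lam + (⌊e * J⌋₊ + 6) →
      NPZ J ⌊P₀ * J⌋₊ ⌊P₁ * J⌋₊ ⌊w₀ * J⌋₊ ⌊l₀ * J⌋₊ ⌊(P₀ - e) * J⌋₊ ⌊w₁ * J⌋₊ ⌊l₁ * J⌋₊
        ⌊(P₁ - e) * J⌋₊ ⌊e * J⌋₊ lam x d ε := by
  obtain ⟨J₁, hJ₁⟩ := exists_nat_gt (8 / e + 8 / d + 8 / (w₁ - w₀ - x))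
  refine ⟨J₁, fun J hJ => ?_⟩
  have q1 : 0 < w₁ - w₀ - x := by linarith only [h1]
  have q2 : 0 < 8 / e := by positivity
  have q3 : 0 < 8 / d := by positivity
  have q4 : 0 < 8 / (w₁ - w₀ - x) := by positivity
  have hJr : 8 / e + 8 / d + 8 / (w₁ - w₀ - x) < J := hJ₁.trans_le (by exact_mod_cast hJ)
  have j1 : 8 / e < J := by linarith only [q3, q4, hJr]
  have j2 : 8 / d < J := by linarith only [q2, q4, hJr]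
  have j3 : 8 / (w₁ - w₀ - x) < J := by linarith only [q2, q3, hJr]
  rw [div_lt_iff₀ he] at j1
  rw [div_lt_iff₀ hd] at j2
  rw [div_lt_iff₀ q1] at j3
  have hJ0 : (0 : ℝ) ≤ J := Nat.cast_nonneg J
  have hεJ : 8 * e * J ≤ ε * J := mul_le_mul_of_nonneg_right heε hJ0
  have P0u : ((⌊P₀ * (J : ℝ)⌋₊ : ℕ) : ℝ) ≤ P₀ * J := Nat.floor_le (by
    have : 0 ≤ P₀ := by linarith only [he, hP0]
    positivity)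
  have P0l := Nat.lt_floor_add_one (P₀ * (J : ℝ))
  have P1u : ((⌊P₁ * (J : ℝ)⌋₊ : ℕ) : ℝ) ≤ P₁ * J := Nat.floor_le (by
    have : 0 ≤ P₁ := by linarith only [hx, hx0, he, hP0]
    positivity)
  have P1l := Nat.lt_floor_add_one (P₁ * (J : ℝ))
  have p0u : ((⌊(P₀ - e) * (J : ℝ)⌋₊ : ℕ) : ℝ) ≤ (P₀ - e) * J := Nat.floor_le (by positivity)
  have p0l := Nat.lt_floor_add_one ((P₀ - e) * (J : ℝ))
  have p1l := Nat.lt_floor_add_one ((P₁ - e) * (J : ℝ))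
  have w0u : ((⌊w₀ * (J : ℝ)⌋₊ : ℕ) : ℝ) ≤ w₀ * J := Nat.floor_le (by positivity)
  have w0l := Nat.lt_floor_add_one (w₀ * (J : ℝ))
  have w1u : ((⌊w₁ * (J : ℝ)⌋₊ : ℕ) : ℝ) ≤ w₁ * J := Nat.floor_le (by
    have : 0 ≤ w₁ := by linarith only [hx0, hw0, h1]
    positivity)
  have w1l := Nat.lt_floor_add_one (w₁ * (J : ℝ))
  have eu : ((⌊e * (J : ℝ)⌋₊ : ℕ) : ℝ) ≤ e * J := Nat.floor_le (by positivity)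
  have el := Nat.lt_floor_add_one (e * (J : ℝ))
  have l0l := fl_low (a := l₀) J
  have l0u := fl_pos (a := l₀) J
  have l1u := fl_pos (a := l₁) J
  have k1 : (x : ℝ) * J = P₁ * J - P₀ * J := by rw [hx]; ring
  have k2 : (w₀ + x) * J ≤ w₁ * J := mul_le_mul_of_nonneg_right h1.le hJ0
  have k3 : w₁ * J ≤ (w₀ + x + e) * J := mul_le_mul_of_nonneg_right h2 hJ0
  have k4 : max l₁ 0 - max l₀ 0 ≤ d / 2 := by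
    rcases le_total l₁ 0 with h | h
    · rw [max_eq_right h]
      have := le_max_right l₀ 0
      linarith only [hd, this]
    · rw [max_eq_left h]
      have := le_max_left l₀ 0
      linarith only [hl', this]
  have k5 := mul_le_mul_of_nonneg_right k4 hJ0
  have k6 := mul_le_mul_of_nonneg_right h3.le hJ0
  have k7 := mul_le_mul_of_nonneg_right h4 hJ0
  refine ⟨?_, fun lam hm1 hm2 => ?_⟩
  · have : ((2 : ℕ) : ℝ) < ((⌊e * (J : ℝ)⌋₊ + 1 : ℕ) : ℝ) := by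
      push_cast
      linarith only [hx0, he, hP0, hd, h4, j1, el]
    have := Nat.cast_lt.1 this
    omega
  have hm2' : ((⌊l₀ * (J : ℝ)⌋₊ : ℕ) : ℝ) ≤ (lam : ℝ) + (⌊e * (J : ℝ)⌋₊ + 6) := by
    exact_mod_cast hm2
  refine ⟨?_, ?_, ?_, fl_mono (by linarith only [he]) J, fl_mono (by linarith only [hx, hx0]) J, ?_,
    fl_mono (by linarith only [he]) J, ?_, ?_, fl_mono hl J, ?_, hm1, ?_, ?_, ?_⟩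
  · rw [abs_le]
    constructor <;> linarith
  · have : ((⌊w₀ * (J : ℝ)⌋₊ + ⌊P₁ * (J : ℝ)⌋₊ : ℕ) : ℝ) ≤
        ((⌊w₁ * (J : ℝ)⌋₊ + ⌊P₀ * (J : ℝ)⌋₊ : ℕ) : ℝ) := by
      push_cast
      nlinarith only [hx0, he, hP0, hd, h4, j3, P0l, P1u, w0u, w1l, k1]
    exact_mod_cast this
  · linarith only [hx0, he, hP0, hd, h4, j1, hεJ, P0u, P1l, w0l, w1u, k1, k3]
  · linarith only [hx0, he, hP0, hd, h4, j1, hεJ, P0u, p0l]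
  · linarith only [hx0, he, hP0, hd, h4, j1, hεJ, P1u, p1l]
  · linarith only [hx0, he, hP0, hd, h4, j1, hεJ, eu]
  · linarith only [hx0, he, hP0, hd, h4, j2, l0l, l1u, k5]
  · linarith only [hx0, he, hP0, hd, h4, j1, hεJ, eu, hm2']
  · have : ((⌊w₁ * (J : ℝ)⌋₊ + ⌊l₁ * (J : ℝ)⌋₊ : ℕ) : ℝ) ≤
        ((⌊(P₀ - e) * (J : ℝ)⌋₊ : ℕ) : ℝ) := by
      push_cast
      linarith only [hx0, he, hP0, hd, h4, j1, p0l, w1u, l1u, k6]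
    exact_mod_cast this
  · linarith only [P0u, k7]

/-- The numbers for `PZH`, `PZE`. -/
theorem nph {P₀ s w₀ l₀ ρ₀ e eH ϖ β g y z' xP wx : ℝ} (he : 0 < e) (heH : 4 * e ≤ eH)
    (heb : 16 * e ≤ β) (hl₀ : l₀ = ρ₀ - e / 8) (hρ : ρ₀ ≤ ϖ - β) (hϖ : 0 ≤ ϖ - β) (hw0 : 0 ≤ w₀)
    (hw : w₀ ≤ P₀ - s + e) (hg : 0 < g) (hy : 0 < y) (hegy : 64 * e ≤ g * y)
    (hz : z' ≤ ρ₀ + 3 * g * y / 16) (hz2 : z' + β / 2 ≤ s) (hxP : 0 < xP) (hwx : w₀ + xP ≤ wx)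
    (hP0 : 0 ≤ P₀ - e) :
    ∃ J₁ : ℕ, ∀ J ≥ J₁, (s - eH) * (J : ℕ) ≤ (⌊(P₀ - e) * J⌋₊ : ℝ) - ⌊w₀ * J⌋₊ ∧
      z' * J ≤ (⌊(P₀ - e) * J⌋₊ : ℝ) - ⌊w₀ * J⌋₊ ∧ ∀ lam J' : ℕ, lam ≤ ⌊l₀ * J⌋₊ →
      ⌊l₀ * J⌋₊ ≤ lam + (⌊e * J⌋₊ + 6) → y * J ≤ J' → J' ≤ J →
      β / 2 * J + lam ≤ (⌊(ϖ - e) * J⌋₊ : ℝ) ∧ z' * J ≤ lam + g / 2 * J' ∧
      (⌊w₀ * J⌋₊ : ℝ) + xP * J' ≤ wx * J := by
  obtain ⟨J₁, hJ₁⟩ := exists_nat_gt (16 / e)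
  refine ⟨J₁, fun J hJ => ?_⟩
  have hJr : 16 / e < J := hJ₁.trans_le (by exact_mod_cast hJ)
  rw [div_lt_iff₀ he] at hJr
  have hJ0 : (0 : ℝ) ≤ J := Nat.cast_nonneg J
  have p0l := Nat.lt_floor_add_one ((P₀ - e) * (J : ℝ))
  have w0u : ((⌊w₀ * (J : ℝ)⌋₊ : ℕ) : ℝ) ≤ w₀ * J := Nat.floor_le (by positivity)
  have k1 := mul_le_mul_of_nonneg_right hw hJ0
  have k2 := mul_le_mul_of_nonneg_right heH hJ0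
  have k3 := mul_le_mul_of_nonneg_right heb hJ0
  have k4 := mul_le_mul_of_nonneg_right hz2 hJ0
  have k5 := mul_le_mul_of_nonneg_right hz hJ0
  have k6 := mul_le_mul_of_nonneg_right hegy hJ0
  refine ⟨by linarith only [hJr, p0l, w0u, k1, k2], by linarith only [hJr, p0l, w0u, k1, k3, k4], fun lam J' hm1 hm2 hJ1 hJ2 => ?_⟩
  have hm1' : (lam : ℝ) ≤ max l₀ 0 * J := by
    have : (lam : ℝ) ≤ (⌊l₀ * (J : ℝ)⌋₊ : ℝ) := by exact_mod_cast hm1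
    exact this.trans (fl_pos J)
  have hm2' : ((⌊l₀ * (J : ℝ)⌋₊ : ℕ) : ℝ) ≤ (lam : ℝ) + (⌊e * (J : ℝ)⌋₊ + 6) := by
    exact_mod_cast hm2
  have eu : ((⌊e * (J : ℝ)⌋₊ : ℕ) : ℝ) ≤ e * J := Nat.floor_le (by positivity)
  have k7 : max l₀ 0 ≤ ϖ - β := max_le (by linarith only [he, hl₀, hρ]) hϖ
  have k8 := mul_le_mul_of_nonneg_right k7 hJ0
  have pl := Nat.lt_floor_add_one ((ϖ - e) * (J : ℝ))
  have l0l := Nat.lt_floor_add_one (l₀ * (J : ℝ))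
  have k9 : l₀ * J = ρ₀ * J - e / 8 * J := by rw [hl₀]; ring
  have kJ : (J' : ℝ) ≤ J := by exact_mod_cast hJ2
  have k10 : g / 2 * (y * J) ≤ g / 2 * J' := mul_le_mul_of_nonneg_left hJ1 (by positivity)
  have k11 : xP * J' ≤ xP * J := mul_le_mul_of_nonneg_left kJ hxP.le
  have k12 := mul_le_mul_of_nonneg_right hwx hJ0
  refine ⟨by linarith only [hJr, k3, hm1', k8, pl], ?_, by linarith only [w0u, k11, k12]⟩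
  nlinarith only [hJr, k5, k6, hm2', eu, l0l, k9, k10]

end Pool.PZ
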