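import Pool.Agent.H96.PZ.Stmts4
import Pool.Agent.H75.S6C.Ths
import Pool.Agent.H75.S6C.SNB

/-!
# Numbers near the critical windows
-/

set_option autoImplicit false

namespace Pool.PZ

open Finset Real
open Pool.Agent.H49.Ent Pool.Agent.H32.Dense Pool.STK Pool.KA Pool.KSAT Pool.K2S Pool.PB Pool.KS6
open Pool.ZCL Pool.S6C

/-- The rotation at the row `Q` near the critical window is the rotation at exact points. -/
theorem turn_row {S : PCl 3} {a R h₁ : ℝ} {i₀ : Fin 3} {c s₂ : ℝ} {r : ℝ → ℝ} {D : Set ℝ}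
    {σ : ℝ → Row} (hC : Cs S a R h₁ i₀ c s₂ r D σ) {Q ws : ℝ} (hP : PR c r D σ Q ws)
    (hct : CtQ (σ 1).rot ws) {e : ℝ} (he : 0 < e) : ∃ δ > 0, ∀ w : ℚ, |(w : ℝ) - ws| < δ →
      0 ≤ w → w ≤ 1 → (σ 1).rot w - e < (σ Q).rot w := by
  obtain ⟨δ, hδ, hcd⟩ := hct (e / 2) (half_pos he)
  refine ⟨δ, hδ, fun w hw hw0 hw1 => ?_⟩
  have hQ0 : 0 < Q := lt_of_lt_of_le (by norm_num) hP.half
  have hρ := hC.row Q hQ0 hP.lt1.le hP.nD
  -- a window below the critical one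
  obtain ⟨w', hw'1, hw'2⟩ := exists_rat_btwn (max_lt (by linarith : ws - δ < ws) hP.ws0)
  have hw'0 : (0 : ℝ) < w' := (le_max_right _ _).trans_lt hw'1
  have hw'δ : ws - δ < w' := (le_max_left _ _).trans_lt hw'1
  obtain ⟨e', he', hG⟩ := hP.isWs.2 w' hw'2
  obtain ⟨v, hv0, hvQ, hrv, -, hth⟩ := hP.pk e' he'
  have hv1 : v ≤ 1 := by
    have : (v : ℝ) ≤ 1 := (hvQ.trans hP.lt1).le
    exact_mod_cast this
  have hvw : (w' : ℝ) < v := by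
    by_contra hcon
    push Not at hcon
    have := hG v hv0.le hcon
    linarith
  have hvw' : w' ≤ v := by exact_mod_cast hvw.le
  have hw'0' : 0 ≤ w' := by exact_mod_cast hw'0.le
  have h1 := rot_min hC hQ0.le hP.lt1.le hρ v hv0.le hv1
  have h2 : (σ 1).rot v < (σ Q).pi := by
    by_contra hcon
    push Not at hcon
    rw [min_eq_right hcon] at h1
    linarith
  have h3 := rot_window hC.ne (hC.row 1 one_pos le_rfl hC.D1) hw'0' hvw' hv1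
  have h4 := rot_min hC hQ0.le hP.lt1.le hρ w hw0 hw1
  have h5 := hcd w w' hw (by rw [abs_lt]; constructor <;> linarith)
  rw [abs_le] at h5
  rcases min_choice ((σ 1).rot w) (σ Q).pi with h6 | h6
  · rw [h6] at h4
    linarith
  · rw [h6] at h4
    linarith [h5.2]

/-- The thickness at the row `Q` above the critical window. -/
theorem th_row {S : PCl 3} {a R h₁ : ℝ} {i₀ : Fin 3} {c s₂ : ℝ} {r : ℝ → ℝ} {D : Set ℝ}
    {σ : ℝ → Row} (hC : Cs S a R h₁ i₀ c s₂ r D σ) {Q ws : ℝ} (hP : PR c r D σ Q ws) {w : ℚ}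
    (hw : ws < w) (hwQ : (w : ℝ) ≤ Q) {p : ℝ} (hp : p < Q) :
    p < (σ Q).th w ∧ p < (σ 1).th w := by
  have hQ0 : 0 < Q := lt_of_lt_of_le (by norm_num) hP.half
  obtain ⟨v, hv0, hv1, hvw, hv⟩ := hP.isWs.1 ((Q - p) / 2) (by linarith) w hw
  have hvw' : v ≤ w := by exact_mod_cast hvw.le
  have h1 := (ths_thm hC hQ0 hP.lt1.le hP.nD hv0 hvw' hwQ).1
  have hw1 : w ≤ 1 := by
    have : (w : ℝ) ≤ 1 := hwQ.trans hP.lt1.le
    exact_mod_cast this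
  have h2 := ((rw_row hC.ne hP.lt1.le (hC.row Q hQ0 hP.lt1.le hP.nD)
    (hC.row 1 one_pos le_rfl hC.D1)).2 w (hv0.trans hvw') hw1).2
  have h3 : p < (σ Q).th w := by
    refine lt_of_lt_of_le ?_ h1
    exact lt_min hp (by linarith)
  exact ⟨h3, h3.trans_le h2⟩

/-- A positive lower bound of finitely many positive numbers. -/
theorem fin_low {ι : Type} [Finite ι] (f : ι → ℝ) (hf : ∀ i, 0 < f i) :
    ∃ m > 0, ∀ i, m ≤ f i := by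
  classical
  have := Fintype.ofFinite ι
  by_cases hι : Nonempty ι
  · obtain ⟨i, hi⟩ := Finite.exists_min f
    exact ⟨f i, hf i, hi⟩
  · exact ⟨1, one_pos, fun i => absurd ⟨i⟩ hι⟩

/-- An upper bound of finitely many natural numbers. -/
theorem fin_up {ι : Type} [Finite ι] (f : ι → ℕ) : ∃ m, ∀ i, f i ≤ m := by
  classical
  have := Fintype.ofFinite ι
  exact ⟨∑ i, f i, fun i => Finset.single_le_sum (f := f) (fun _ _ => Nat.zero_le _)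
    (Finset.mem_univ i)⟩

/-- The hypotheses of `PZOStmt`. -/
structure PHyp {J : ℕ} (G : Fam 3 J) (i₀ iu iN : Fin 3) (r g h : ℝ) (ψ : ℕ → ℝ) (η : ℝ)
    (n : ℕ) : Prop where
  tm : G.Tm (η * J)
  ln : ∀ z, 0 < law G.p G.Z z → H (cond G.p G.Z z) G.l ≤ 6 * J
  ex : ∀ i ≤ n, ∀ B : G.Ω → Prop, Real.exp (-(3 * ψ i * J)) ≤ Pe G.p B →
    ¬ PlU 1 (1 / 2 ^ ⌊1 / ((i : ℝ) + 1) * J⌋₊) (Fam.pt G) G.d B ∧
      ¬ BadC i₀ (1 / ((i : ℝ) + 1)) J G B ∧ ¬ BadC iN (1 / ((i : ℝ) + 1)) J G B ∧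
      ¬ Tilt i₀ iu iN g h J G B
  tl : ∀ i ≤ n, ∀ B : G.Ω → Prop, Real.exp (-(3 * ψ i * J)) ≤ Pe G.p B →
    ∀ P : ℕ, P ≤ J → J ≤ 2 * P →
        CH (Pool.Agent.H49.Ent.cond G.p B True) (G.X J) (fun ω => (G.X P ω, G.W ω)) ≤
          (3 * Real.log 2 - r) * ((J : ℝ) - P) + 1 / ((i : ℝ) + 1) * J

/-- `PZOStmt`, with constants which do not depend on the order of the coordinates. -/
theorem pzo_unif (hO : PZOStmt) (hSTP : ∀ S : FCl 3, SPS S 1 → STP S)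
    (hSLP : ∀ S : FCl 3, SPS S 1 → SLP S) (i₀ : Fin 3) {r g h : ℝ} (hr : 0 < r) (hg : 0 < g)
    (hgh : g < h) (hh : h ≤ 1 / 2) {ψ : ℕ → ℝ} (hψ : ∀ i, 0 < ψ i) {x : ℝ} (hx : 0 < x)
    (hxg : x ≤ g / 16) {δ : ℝ} (hδ : 0 < δ) : ∃ η > 0, ∃ n J₁ : ℕ, ∀ J ≥ J₁, ∀ G : Fam 3 J,
      ∀ iu iN : Fin 3, (∀ j : Fin 3, j = i₀ ∨ j = iu ∨ j = iN) →
      PHyp G i₀ iu iN r g h ψ η n →
      ∃ B : G.Ω → Prop, Real.exp (-(δ * J)) ≤ Pe G.p B ∧ RotZ i₀ iu x (g / 2) J G B := by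
  classical
  have h0 : ∀ u : Fin 3 × Fin 3, ∃ η : ℝ, 0 < η ∧ ∃ n J₁ : ℕ,
      (∀ j : Fin 3, j = i₀ ∨ j = u.1 ∨ j = u.2) → ∀ J ≥ J₁, ∀ G : Fam 3 J,
      PHyp G i₀ u.1 u.2 r g h ψ η n →
      ∃ B : G.Ω → Prop, Real.exp (-(δ * J)) ≤ Pe G.p B ∧ RotZ i₀ u.1 x (g / 2) J G B := by
    intro u
    by_cases hu : ∀ j : Fin 3, j = i₀ ∨ j = u.1 ∨ j = u.2
    · obtain ⟨η, hη, n, J₁, h1⟩ := hO hSTP hSLP i₀ u.1 u.2 hu r g h hr hg hgh hh ψ hψ 6 x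
        (by norm_num) hx hxg δ hδ
      refine ⟨η, hη, n, J₁, fun _ J hJ G hG => h1 J hJ G hG.tm hG.ln fun i hi B hB => ?_⟩
      obtain ⟨k1, k2, k3, k4⟩ := hG.ex i hi B hB
      exact ⟨k1, k2, k3, k4, hG.tl i hi B hB⟩
    · exact ⟨1, one_pos, 0, 0, fun h => absurd h hu⟩
  choose η hη n J₁ h1 using h0
  obtain ⟨η', hη', hη2⟩ := fin_low η hη
  obtain ⟨n', hn'⟩ := fin_up n
  obtain ⟨J', hJ'⟩ := fin_up J₁
  refine ⟨η', hη', n', J', fun J hJ G iu iN hc hG => ?_⟩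
  refine h1 (iu, iN) hc J ((hJ' _).trans hJ) G ⟨?_, hG.ln, fun i hi => hG.ex i (hi.trans (hn' _)),
    fun i hi => hG.tl i (hi.trans (hn' _))⟩
  have h2 := hG.tm
  unfold Fam.Tm at h2 ⊢
  have h3 : η' * J ≤ η (iu, iN) * J := mul_le_mul_of_nonneg_right (hη2 _) (Nat.cast_nonneg J)
  linarith

end Pool.PZ
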