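import Pool.Agent.H33.KAL.RMG
import Pool.Agent.H40.BFL.MKO
import Pool.Agent.H62.OVN.Ovc
import Pool.Agent.H18.PB.EndLab
import Pool.Agent.H50.PW.Det

/-!
# Polynomials: derivatives from values

`seg_bound`: derivatives of a polynomial in one variable from its values at separated nodes.
`mv_markov`: derivatives of a polynomial in several variables from its values on a cube.
`lp`: the restriction to a line.
-/

set_option autoImplicit false

namespace Pool.PZ

open Finset MvPolynomial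

/-! ### One variable -/

/-- Values and derivatives on an interval from the values at separated nodes. -/
theorem seg_bound (K : ℕ) : ∃ C : ℝ, 1 ≤ C ∧ ∀ (q : Polynomial ℝ) (v : Fin (K + 1) → ℝ)
    (a l s M : ℝ), q.natDegree ≤ K → 0 < s → s ≤ l → (∀ i, a ≤ v i ∧ v i ≤ a + l) →
    (∀ i j, i ≠ j → s ≤ |v i - v j|) → (∀ i, |q.eval (v i)| ≤ M) → ∀ t, a ≤ t → t ≤ a + l →
    |q.eval t| ≤ C * (l / s) ^ K * M ∧ |q.derivative.eval t| ≤ C * (l / s) ^ K * M / l ∧
      |q.derivative.derivative.eval t| ≤ C * (l / s) ^ K * M / l ^ 2 := by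
  obtain ⟨C, hC, h⟩ := Pool.Agent.H40.BFL.mko_thm K
  have hK : (1 : ℝ) ≤ (K : ℝ) + 1 := by
    have : (0 : ℝ) ≤ K := Nat.cast_nonneg K
    linarith
  refine ⟨((K : ℝ) + 1) * C ^ 2, ?_, ?_⟩
  · have : (1 : ℝ) ≤ C ^ 2 := one_le_pow₀ hC
    nlinarith
  intro q v a l s M hq hs hsl hv hsep hM t ht0 ht1
  have hl : 0 < l := hs.trans_le hsl
  have hM0 : 0 ≤ M := (abs_nonneg _).trans (hM 0)
  obtain ⟨S, hS⟩ : ∃ S, S = ((K : ℝ) + 1) * (l / s) ^ K * M := ⟨_, rfl⟩
  have hS0 : 0 ≤ S := by rw [hS]; positivity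
  have h0 : ∀ t ∈ Set.Icc a (a + l), |q.eval t| ≤ S := by
    intro t ht
    rw [hS]
    refine Pool.KAL.RMG.lagrange_bound K q v t l s M hq hs hsep (fun i => ?_) hM
    have h1 := hv i
    rw [abs_le]
    constructor <;> linarith [ht.1, ht.2, h1.1, h1.2]
  have h1 : ∀ t ∈ Set.Icc a (a + l), |q.derivative.eval t| ≤ C * S / l :=
    h q a l S hq hl h0
  have hq' : q.derivative.natDegree ≤ K :=
    (Polynomial.natDegree_derivative_le q).trans ((Nat.sub_le _ _).trans hq)
  have h2 : ∀ t ∈ Set.Icc a (a + l), |q.derivative.derivative.eval t| ≤ C * (C * S / l) / l :=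
    h q.derivative a l (C * S / l) hq' hl h1
  have hC0 : 0 < C := by linarith
  have hC2 : C ≤ C ^ 2 := by nlinarith
  refine ⟨(h0 t ⟨ht0, ht1⟩).trans ?_, (h1 t ⟨ht0, ht1⟩).trans ?_, (h2 t ⟨ht0, ht1⟩).trans ?_⟩
  · have e : ((K : ℝ) + 1) * C ^ 2 * (l / s) ^ K * M = C ^ 2 * S := by rw [hS]; ring
    rw [e]
    nlinarith
  · have e : ((K : ℝ) + 1) * C ^ 2 * (l / s) ^ K * M = C ^ 2 * S := by rw [hS]; ring
    rw [e]
    exact div_le_div_of_nonneg_right (mul_le_mul_of_nonneg_right hC2 hS0) hl.le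
  · refine le_of_eq ?_
    rw [hS]
    field_simp

/-! ### Restriction to a line -/

/-- The polynomial on the line `a + t b`. -/
noncomputable def lp {m : ℕ} (a b : Fin m → ℝ) (Φ : MvPolynomial (Fin m) ℝ) : Polynomial ℝ :=
  aeval (fun j => Polynomial.C (a j) + Polynomial.C (b j) * Polynomial.X) Φ

variable {m : ℕ}

theorem lp_eval (a b : Fin m → ℝ) (Φ : MvPolynomial (Fin m) ℝ) (t : ℝ) :
    (lp a b Φ).eval t = eval (fun j => a j + t * b j) Φ := by
  unfold lp
  induction Φ using MvPolynomial.induction_on with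
  | C c => simp
  | add p q hp hq => rw [map_add, Polynomial.eval_add, hp, hq, map_add]
  | mul_X p i hp =>
    rw [map_mul, Polynomial.eval_mul, hp, map_mul, aeval_X, eval_X, Polynomial.eval_add,
      Polynomial.eval_mul, Polynomial.eval_C, Polynomial.eval_C, Polynomial.eval_X]
    ring

theorem lp_deg (a b : Fin m → ℝ) {Φ : MvPolynomial (Fin m) ℝ} {K : ℕ} (h : Φ.totalDegree ≤ K) :
    (lp a b Φ).natDegree ≤ K := by
  have h1 := aeval_natDegree_le (n := 1) Φ h
    (fun j => Polynomial.C (a j) + Polynomial.C (b j) * Polynomial.X) (fun j => by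
      refine (Polynomial.natDegree_add_le _ _).trans (max_le ?_ ?_)
      · rw [Polynomial.natDegree_C]; exact Nat.zero_le _
      · exact (Polynomial.natDegree_C_mul_le _ _).trans Polynomial.natDegree_X_le)
  rw [mul_one] at h1
  exact h1

theorem lp_der (a b : Fin m → ℝ) (Φ : MvPolynomial (Fin m) ℝ) (t : ℝ) :
    (lp a b Φ).derivative.eval t = ∑ j, b j * (lp a b (pderiv j Φ)).eval t := by
  have h1 := (lp a b Φ).hasDerivAt t
  have h2 := Pool.OVN.hasDerivAt_line Φ a b t
  have e : (fun s : ℝ => eval (fun i => a i + s * b i) Φ) = fun s => (lp a b Φ).eval s := by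
    funext s
    rw [lp_eval]
  rw [e] at h2
  have h3 := h1.unique h2
  rw [h3]
  exact Finset.sum_congr rfl fun j _ => by rw [lp_eval]

theorem lp_der2 (a b : Fin m → ℝ) (Φ : MvPolynomial (Fin m) ℝ) (t : ℝ) :
    (lp a b Φ).derivative.derivative.eval t =
      ∑ j, ∑ l, b j * b l * (lp a b (pderiv l (pderiv j Φ))).eval t := by
  have e : (lp a b Φ).derivative = ∑ j, Polynomial.C (b j) * lp a b (pderiv j Φ) := by
    refine Polynomial.funext fun s => ?_
    rw [lp_der, Polynomial.eval_finsetSum]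
    exact Finset.sum_congr rfl fun j _ => by rw [Polynomial.eval_mul, Polynomial.eval_C]
  rw [e, Polynomial.derivative_sum, Polynomial.eval_finsetSum]
  refine Finset.sum_congr rfl fun j _ => ?_
  rw [Polynomial.derivative_C_mul, Polynomial.eval_mul, Polynomial.eval_C, lp_der,
    Finset.mul_sum]
  exact Finset.sum_congr rfl fun l _ => by ring

/-! ### Several variables -/

theorem td_pderiv {Φ : MvPolynomial (Fin m) ℝ} {K : ℕ} (h : Φ.totalDegree ≤ K) (j : Fin m) :
    (pderiv j Φ).totalDegree ≤ K :=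
  (Pool.Agent.H50.PW.totalDegree_pderiv_le Φ j).trans h

/-- Derivatives from the values on a cube. -/
theorem mv_markov (K : ℕ) : ∃ C : ℝ, 1 ≤ C ∧ ∀ (Φ : MvPolynomial (Fin m) ℝ)
    (b₀ : Fin m → ℝ) (ρ M : ℝ), Φ.totalDegree ≤ K → 0 < ρ →
    (∀ b : Fin m → ℝ, (∀ j, |b j - b₀ j| ≤ ρ) → |eval b Φ| ≤ M) →
    ∀ b : Fin m → ℝ, (∀ j, |b j - b₀ j| ≤ ρ / 2) → ∀ j, |eval b (pderiv j Φ)| ≤ C * M / ρ := by
  classical
  obtain ⟨C, hC, h⟩ := Pool.Agent.H40.BFL.mko_thm K
  refine ⟨2 * C, by linarith, fun Φ b₀ ρ M hΦ hρ hM b hb j => ?_⟩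
  -- the line in the direction `j`
  obtain ⟨e, he⟩ : ∃ e : Fin m → ℝ, e = Pi.single j 1 := ⟨_, rfl⟩
  have hej : e j = 1 := by rw [he, Pi.single_eq_same]
  have hei : ∀ i, i ≠ j → e i = 0 := fun i hi => by rw [he, Pi.single_eq_of_ne hi]
  have h1 := h (lp b e Φ) 0 (ρ / 2) M (lp_deg _ _ hΦ) (by linarith) (fun t ht => by
    rw [lp_eval]
    refine hM _ fun i => ?_
    have h2 := hb i
    by_cases hi : i = j
    · rw [hi, hej]
      rw [hi] at h2
      rw [abs_le] at h2 ⊢
      constructor <;> linarith [h2.1, h2.2, ht.1, ht.2]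
    · rw [hei i hi, mul_zero, add_zero]
      linarith) 0 ⟨le_rfl, by linarith⟩
  rw [lp_der, Finset.sum_eq_single j (fun i _ hi => by rw [hei i hi, zero_mul])
    (fun hj => absurd (Finset.mem_univ _) hj), hej, one_mul, lp_eval] at h1
  have e1 : (fun i => b i + 0 * e i) = b := by
    funext i
    rw [zero_mul, add_zero]
  rw [e1] at h1
  refine h1.trans (le_of_eq ?_)
  field_simp

end Pool.PZ
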