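import Pool.Agent.H96.PZ.Defs
import Pool.Agent.H77.S6C.Ust
import Pool.Agent.H60.ZCL.BTail

/-!
# The plank zoom: statements at the level of the class (rows PZN, FVB, SELP)
-/

set_option autoImplicit false

namespace Pool.PZ

open Finset Real
open Pool.Agent.H49.Ent Pool.Agent.H32.Dense Pool.STK Pool.KA Pool.KSAT Pool.K2S Pool.PB Pool.KS6
open Pool.ZCL Pool.S6C

/-- The position `x` at time `t` lies in the plank `y`, of precisions `(w, U, P)`. -/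
structure IncP (i₀ iu iN : Fin 3) (w U P : ℕ) (B C : ℝ) (y : Pln) (t : ℝ) (x : Fin 3 → ℝ) :
    Prop where
  e_le : |y.e| ≤ B
  c_le : |y.c| ≤ B
  s_le : |y.s| ≤ B
  pe : |x i₀ - (y.xb i₀ + t * y.db i₀)| ≤ C / 2 ^ w
  pu : |fu i₀ iu y.e x - fu i₀ iu y.e (fun i => y.xb i + t * y.db i)| ≤ C / 2 ^ U
  pn : |fn i₀ iu iN y.c y.s x - fn i₀ iu iN y.c y.s (fun i => y.xb i + t * y.db i)| ≤ C / 2 ^ P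

/-- **Two labels in one normal form**: the plank `y0` at the window `w₀`, visible at the row `r₀`,
of thickness `p₀`; `y1` at the window `w₁`, visible at the row `r₁`, of thickness `p₁`. The frames
agree, up to the factor `2 ^ k`, and the slope `y0.e` is the slope `ν` of the fans at exact
points. -/
structure N2 {J : ℕ} (F : Fam 3 J) (i₀ iu iN : Fin 3) (r₀ r₁ w₀ l₀ p₀ w₁ l₁ p₁ q k : ℕ)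
    (y0 y1 : F.Ω → Pln) (A : F.Ω → Prop) : Prop where
  cov : ∀ j : Fin 3, j = i₀ ∨ j = iu ∨ j = iN
  wP : w₀ + l₀ ≤ p₀
  rJ : r₀ ≤ J
  i0 : ∀ ω, A ω → Inc i₀ iu iN w₀ l₀ p₀ 2 (y0 ω) (F.t ω) (F.x ω) (F.d ω)
  v0 : ∃ φ : (Fin 3 → ℤ) × (ℕ × F.ζ) → Pln, ∀ ω, A ω → y0 ω = φ (ptr F r₀ ω)
  c0 : ∃ ψ : ((Fin 3 → ℝ) × (Fin 3 → ℝ)) × F.ζ × ℕ → Pln, ∀ ω, A ω → y0 ω = ψ (slam F w₀ ω)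
  i1 : ∀ ω, A ω → IncP i₀ iu iN w₁ (w₁ + l₁) p₁ 20 20 (y1 ω) (F.t ω) (F.x ω)
  v1 : ∃ φ : (Fin 3 → ℤ) × (ℕ × F.ζ) → Pln, ∀ ω, A ω → y1 ω = φ (ptr F r₁ ω)
  c1 : ∃ ψ : ((Fin 3 → ℝ) × (Fin 3 → ℝ)) × F.ζ × ℕ → Pln, ∀ ω, A ω → y1 ω = ψ (slam F w₁ ω)
  n1e : ∀ ω, A ω → |(y0 ω).e - (y1 ω).e| ≤ 2 ^ k * (1 / 2 ^ l₀ + 1 / 2 ^ l₁)
  n1s : ∀ ω, A ω → |(y0 ω).s - (y1 ω).s| ≤ 2 ^ k * (2 ^ l₁ * (2 ^ w₀ / 2 ^ p₀ + 2 ^ w₁ / 2 ^ p₁))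
  n1c : ∀ ω, A ω → |((y0 ω).c - (y1 ω).c) + ((y0 ω).s - (y1 ω).s) * (y1 ω).e| ≤
    2 ^ k * (2 ^ w₀ / 2 ^ p₀ + 2 ^ w₁ / 2 ^ p₁)
  sl : ∃ α ν : (Fin 3 → ℤ) × (ℕ × F.ζ) → ℝ, ∀ ω, A ω →
    |F.d ω iu - α (Fam.pt F ω) - ν (Fam.pt F ω) * F.d ω i₀| ≤ 1 / 2 ^ q ∧
      |ν (Fam.pt F ω)| ≤ 2 ∧ |ν (Fam.pt F ω) - (y0 ω).e| ≤ 2 ^ k / 2 ^ l₀

theorem incC {i₀ iu iN : Fin 3} {w lam lam' P : ℕ} {C C' : ℝ} {y : Pln} {t : ℝ}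
    {x d : Fin 3 → ℝ} (h : Inc i₀ iu iN w lam P C y t x d) (hC : 0 ≤ C) (hCC : C ≤ C')
    (hl : lam' ≤ lam) : Inc i₀ iu iN w lam' P C' y t x d := by
  have key : ∀ {a b : ℕ}, b ≤ a → C / (2 : ℝ) ^ a ≤ C' / 2 ^ b := fun {a b} hab =>
    div_le_div₀ (hC.trans hCC) hCC (by positivity) (pow_le_pow_right₀ (by norm_num) hab)
  exact ⟨h.e_le, h.c_le, h.s_le, h.pe.trans (key le_rfl), h.pu.trans (key (by omega)),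
    h.pn.trans (key le_rfl), h.ve.trans hCC, h.vu.trans (key hl),
    h.vn.trans (div_le_div_of_nonneg_right (mul_le_mul_of_nonneg_right hCC (by positivity))
      (by positivity))⟩

theorem N2.z0 {J : ℕ} {F : Fam 3 J} {i₀ iu iN : Fin 3} {r₀ r₁ w₀ l₀ p₀ w₁ l₁ p₁ q k : ℕ}
    {y0 y1 : F.Ω → Pln} {A : F.Ω → Prop}
    (h : N2 F i₀ iu iN r₀ r₁ w₀ l₀ p₀ w₁ l₁ p₁ q k y0 y1 A) :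
    PzF F i₀ iu iN r₀ w₀ l₀ p₀ y0 A :=
  ⟨h.cov, h.wP, h.rJ, fun ω hω => incC (h.i0 ω hω) (by norm_num) (by norm_num) le_rfl,
    h.v0, h.c0⟩

/-- There are two labels in one normal form (rows `P₀`, `P₁`, windows `w₀`, `w₁`, rotation
`l₀`, `l₁`, thickness `p₀`, `p₁`; the fans are straight to precision `q`). -/
def qN2 (i₀ : Fin 3) (P₀ P₁ w₀ l₀ p₀ w₁ l₁ p₁ q h : ℝ) : Stat 3 := fun J F A =>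
  ∃ (iu iN : Fin 3) (y0 y1 : F.Ω → Pln), N2 F i₀ iu iN ⌊P₀ * J⌋₊ ⌊P₁ * J⌋₊ ⌊w₀ * J⌋₊ ⌊l₀ * J⌋₊
    ⌊p₀ * J⌋₊ ⌊w₁ * J⌋₊ ⌊l₁ * J⌋₊ ⌊p₁ * J⌋₊ ⌊q * J⌋₊ ⌊h * J⌋₊ y0 y1 A

/-- **(PZN)** Labels in one normal form exist. (`l₀`, `l₁` may be negative: then there is no
rotation.) -/
def PZNStmt : Prop :=
  ∀ (S : PCl 3) (a R h₁ : ℝ) (i₀ : Fin 3) (c s₂ : ℝ) (r : ℝ → ℝ) (D : Set ℝ) (σ : ℝ → Row),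
    Cs S a R h₁ i₀ c s₂ r D σ → ∀ (P₀ P₁ : ℝ) (w₀ w₁ : ℚ) (l₀ l₁ p₀ p₁ h : ℝ),
    0 < P₀ → P₀ ≤ P₁ → P₁ ≤ 1 → P₀ ∉ D → P₁ ∉ D → 0 < w₀ → w₀ ≤ w₁ → w₁ < 1 →
    (σ 1).rot w₁ < (σ 1).pi → 0 < h → l₀ ≤ l₁ →
    l₀ < (σ P₀).rot w₀ → l₁ < (σ P₁).rot w₁ → (σ 1).rot w₁ ≤ l₁ + h / 8 →
    p₀ < (σ P₀).th w₀ → p₁ < (σ P₁).th w₁ → p₀ ≤ p₁ → w₁ + max l₁ 0 + h < p₀ →
    Clp S (qN2 i₀ P₀ P₁ w₀ l₀ p₀ w₁ l₁ p₁ ((σ 1).pi - h) h)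

/-- **(FVB)** Fullness of the rows in closed labels at a fixed window, base form. -/
def FVBStmt : Prop :=
  ∀ (S : PCl 3) (a R h₁ : ℝ) (i₀ : Fin 3) (c s₂ : ℝ) (r : ℝ → ℝ) (D : Set ℝ) (σ : ℝ → Row),
    Cs S a R h₁ i₀ c s₂ r D σ → ∀ p : ℝ, 0 < p → p < 1 → ∀ w w' : ℚ, 0 < w → w < w' → w' ≤ 1 →
    (w' : ℝ) + (σ 1).rot w' < p → (σ 1).rot w' < (σ 1).pi → p < (σ 1).th w → ∀ h : ℝ, 0 < h →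
    (w' : ℝ) - w ≤ h → (σ 1).rot w' - (σ 1).rot w ≤ h →
    Bas S (fun J F A => ∀ (Λ : Type) (y : F.Ω → Λ),
      (∃ φ : (Fin 3 → ℤ) × (ℕ × F.ζ) → Λ, ∀ ω, A ω → y ω = φ (Fam.pt F ω)) →
      (∃ ψ : ((Fin 3 → ℝ) × (Fin 3 → ℝ)) × F.ζ × ℕ → Λ, ∀ ω, A ω →
        y ω = ψ (slam F ⌊(w : ℝ) * J⌋₊ ω)) →
      (2 * p - 2 * w - (σ 1).rot w - 6 * h) * J * Real.log 2 ≤
        CH (Pool.Agent.H49.Ent.cond F.p A True) (F.X ⌊p * J⌋₊) (fun ω => (y ω, F.W ω)))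

/-- Continuity of the number `ρ` at `x`. -/
def CtQ (ρ : ℚ → ℝ) (x : ℝ) : Prop :=
  ∀ ε : ℝ, 0 < ε → ∃ δ : ℝ, 0 < δ ∧ ∀ u v : ℚ, |(u : ℝ) - x| < δ → |(v : ℝ) - x| < δ →
    |ρ u - ρ v| ≤ ε

/-- **(SELP)** Selection of the row: pure. -/
def SELPStmt : Prop :=
  ∀ (K : Set ℝ) (ρ : ℚ → ℝ) (s : ℝ), MeasureTheory.volume K ≠ 0 →
    (∀ P ∈ K, 0 < P - s ∧ P - s < 1) → (∀ u v : ℚ, 0 ≤ u → u ≤ v → v ≤ 1 → ρ u ≤ ρ v) →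
    ∃ P₀ ∈ K, CtQ ρ (P₀ - s) ∧ ∀ ε : ℝ, 0 < ε → ∃ P₁ ∈ K, P₀ < P₁ ∧ P₁ < P₀ + ε ∧
      CtQ ρ (P₁ - s)

end Pool.PZ
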