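import Pool.Agent.H96.PZ.Stmts2
import Pool.Agent.H51.S6.Loc

/-!
# The plank zoom: statements of the rows EXT, ROX (one family) and NSX, BLX (base form)
-/

set_option autoImplicit false

namespace Pool.PZ

open Finset Real
open Pool.Agent.H49.Ent Pool.Agent.H32.Dense Pool.STK Pool.KA Pool.KSAT Pool.K2S Pool.PB Pool.KS6
open Pool.ZCL Pool.S6C

/-- The slope `y.e` of the plank is the slope of the fans at exact points, up to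
`1 / (24 * 2 ^ lam)`; the fans are straight in the coordinate `iu` to precision `q`. -/
def Slo {J : ℕ} (F : Fam 3 J) (i₀ iu : Fin 3) (lam q : ℕ) (y : F.Ω → Pln) (A : F.Ω → Prop) :
    Prop :=
  ∃ α ν : (Fin 3 → ℤ) × (ℕ × F.ζ) → ℝ, ∀ ω, A ω →
    |F.d ω iu - α (Fam.pt F ω) - ν (Fam.pt F ω) * F.d ω i₀| ≤ 1 / 2 ^ q ∧
      |ν (Fam.pt F ω) - (y ω).e| ≤ 1 / (24 * 2 ^ lam)

/-- The plank zoom of `F` inside `A`. -/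
noncomputable abbrev pzG {J : ℕ} (F : Fam 3 J) (i₀ iu : Fin 3) (w lam P J' : ℕ) (y : F.Ω → Pln)
    (A : F.Ω → Prop) (hA : IsLaw (cond F.p A True)) (h : w + J' ≤ J) : Fam 3 J' :=
  (F.res A True hA).zm w J' h (pkC lam (P - w) i₀ iu) (fun ω => fr (y ω))

/-- **(EXT)** One family: the exclusions, from the zoom to the exact points of the family. -/
def EXTStmt : Prop :=
  ∃ C : ℝ, 1 ≤ C ∧ ∀ (J : ℕ) (F : Fam 3 J) (i₀ iu iN : Fin 3) (w lam P J' q : ℕ)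
    (y : F.Ω → Pln) (A : F.Ω → Prop) (hA : IsLaw (cond F.p A True)) (h : w + J' ≤ J),
    PzF F i₀ iu iN J w lam P y A → P + J' ≤ J → lam ≤ q → Slo F i₀ iu lam q y A →
    ∀ (B : F.Ω → Prop) (ρ ρ' : ℝ), 1 / 2 ^ J' ≤ ρ → ρ ≤ 1 → 0 < ρ' → ρ' ≤ 1 →
    (PlU 1 ρ (Fam.pt (pzG F i₀ iu w lam P J' y A hA h)) (pzG F i₀ iu w lam P J' y A hA h).d B ∨
      GrP i₀ 6 ρ (Fam.pt (pzG F i₀ iu w lam P J' y A hA h))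
        (pzG F i₀ iu w lam P J' y A hA h).d B ∨
      GrP iN 6 ρ (Fam.pt (pzG F i₀ iu w lam P J' y A hA h))
        (pzG F i₀ iu w lam P J' y A hA h).d B ∨
      TiltP i₀ iu iN 6 ρ' ρ (Fam.pt (pzG F i₀ iu w lam P J' y A hA h))
        (pzG F i₀ iu w lam P J' y A hA h).d B) →
    ∃ B' : F.Ω → Prop, Sub B' (fun ω => B ω ∧ A ω) ∧
      Pe F.p (fun ω => B ω ∧ A ω) ≤ C * Pe F.p B' ∧
      ((∃ a b : (Fin 3 → ℤ) × (ℕ × F.ζ) → ℝ, ∀ ω, B' ω →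
          |fn i₀ iu iN (y ω).c (y ω).s (F.d ω) - a (Fam.pt F ω) - b (Fam.pt F ω) * F.d ω i₀| ≤
            C * ((ρ + 2 ^ lam / 2 ^ q) / ρ') * (2 ^ w / 2 ^ P)) ∨
        CoP i₀ (C * (ρ' + ρ + 2 ^ lam / 2 ^ q)) (Fam.pt F) F.d B')

/-- **(ROX)** One family: the rotation, from the zoom to the exact points of the family. -/
def ROXStmt : Prop :=
  ∃ C : ℝ, 1 ≤ C ∧ ∀ (J : ℕ) (F : Fam 3 J) (i₀ iu iN : Fin 3) (w lam P J' q x' v : ℕ)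
    (y : F.Ω → Pln) (A : F.Ω → Prop) (hA : IsLaw (cond F.p A True)) (h : w + J' ≤ J),
    PzF F i₀ iu iN J w lam P y A → P + J' ≤ J → lam ≤ q → Slo F i₀ iu lam q y A →
    ∀ (B : F.Ω → Prop) (μ : ℝ), 1 / 2 ^ J' ≤ μ → 8 * μ ≤ 1 → x' ≤ J' → w + x' ≤ v → v ≤ J →
    RotP i₀ iu 6 μ (Fam.pt (pzG F i₀ iu w lam P J' y A hA h))
      (slam (pzG F i₀ iu w lam P J' y A hA h) x') (pzG F i₀ iu w lam P J' y A hA h).d B →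
    ∃ B' : F.Ω → Prop, Sub B' (fun ω => B ω ∧ A ω) ∧
      Pe F.p (fun ω => B ω ∧ A ω) ≤ C * Pe F.p B' ∧
      RotU i₀ (C * (μ / 2 ^ lam + 2 ^ w / 2 ^ P)) (C * (μ / 2 ^ lam + 2 ^ w / 2 ^ P))
        (Fam.pt F) (slam F v) F.d B'

/-- **(NSX)** The velocities are not straight to a precision above `sN` in the direction of the
normals of any plank, base form. The tolerance `e'` and the defect `τ` depend on `γ` only. -/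
def NSXStmt : Prop :=
  ∀ (S : PCl 3) (a R h₁ : ℝ) (i₀ : Fin 3) (c s₂ : ℝ) (r : ℝ → ℝ) (D : Set ℝ) (σ : ℝ → Row),
    Cs S a R h₁ i₀ c s₂ r D σ → ∀ (K : Set ℝ) (W : ℝ → ℝ) (v₁ t : ℚ) (e₁ : ℝ),
    Adm σ K W v₁ t e₁ → 0 ≤ v₁ → (σ 1).sN v₁ t < 1 → (σ 1).sN v₁ t < t - v₁ + e₁ →
    ∀ γ : ℝ, 0 < γ → ∃ e' > 0, ∃ τ > 0, ∃ J₁ : ℕ, ∀ J ≥ J₁, ∀ (F : Fam 3 J) (B : F.Ω → Prop),
    S.St τ J F B →
    LineU i₀ (1 / 2 ^ ⌊((σ 1).pi - e') * J⌋₊) (Fam.pt F) F.d B →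
    (∃ iu' iN' : Fin 3, (∀ j : Fin 3, j = i₀ ∨ j = iu' ∨ j = iN') ∧
      LABq F J i₀ iu' iN' ⌊(v₁ : ℝ) * J⌋₊ 0 ⌊(t : ℝ) * J⌋₊ 2 B) →
    ∀ iu iN : Fin 3, (∀ j : Fin 3, j = i₀ ∨ j = iu ∨ j = iN) → ∀ w P : ℕ,
    w ≤ ⌊(v₁ : ℝ) * J⌋₊ → ((σ 1).sN v₁ t - e₁) * J ≤ (P : ℝ) - w → ∀ y : F.Ω → Pln,
    (∀ ω, B ω → Inc i₀ iu iN w 0 P 2 (y ω) (F.t ω) (F.x ω) (F.d ω)) →
    (∃ φ : (Fin 3 → ℤ) × (ℕ × F.ζ) → Pln, ∀ ω, B ω → y ω = φ (ptq F J ω)) →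
    (∃ ψ : ((Fin 3 → ℝ) × (Fin 3 → ℝ)) × F.ζ × ℕ → Pln, ∀ ω, B ω → y ω = ψ (slam F w ω)) →
    ∀ b k : (Fin 3 → ℤ) × (ℕ × F.ζ) → ℝ, ¬ ∀ ω, B ω →
      |fn i₀ iu iN (y ω).c (y ω).s (F.d ω) - b (Fam.pt F ω) - k (Fam.pt F ω) * F.d ω i₀| ≤
        1 / 2 ^ ⌊((σ 1).sN v₁ t + γ) * J⌋₊

/-- **(BLX)** The coordinate `i₀` of the fans is not constant, base form. -/
def BLXStmt : Prop :=
  ∀ (S : PCl 3) (a R h₁ : ℝ) (i₀ : Fin 3) (c s₂ : ℝ) (r : ℝ → ℝ) (D : Set ℝ) (σ : ℝ → Row),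
    Cs S a R h₁ i₀ c s₂ r D σ → ∀ x : ℝ, 0 < x → ∃ τ > 0, ∃ J₁ : ℕ, ∀ J ≥ J₁, ∀ (F : Fam 3 J)
    (B : F.Ω → Prop), S.St τ J F B → ¬ CoP i₀ (1 / 2 ^ ⌊x * J⌋₊) (Fam.pt F) F.d B

end Pool.PZ
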