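import Pool.Agent.H96.PZ.Aux1

/-!
# The plank zoom: statements of the rows PZH, PZE (pieces of the assembly)
-/

set_option autoImplicit false

namespace Pool.PZ

open Finset Real
open Pool.Agent.H49.Ent Pool.Agent.H32.Dense Pool.STK Pool.KA Pool.KSAT Pool.K2S Pool.PB Pool.KS6
open Pool.ZCL Pool.S6C

/-- **(PZH)** The plank zoom satisfies the hypotheses of `PZOStmt`. The freedoms `ψ` do not depend on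
`n`, `η`. -/
def PZHStmt : Prop :=
  ∀ (S : PCl 3) (a R h₁ : ℝ) (i₀ : Fin 3) (c s₂ : ℝ) (r : ℝ → ℝ) (D : Set ℝ) (σ : ℝ → Row),
    Cs S a R h₁ i₀ c s₂ r D σ → ∀ (K : Set ℝ) (W : ℝ → ℝ) (v₁ t : ℚ) (e₁ : ℝ),
    Adm σ K W v₁ t e₁ → 0 ≤ v₁ → (σ 1).sN v₁ t < 1 → (σ 1).sN v₁ t < t - v₁ + e₁ →
    0 ≤ (σ 1).sN v₁ t → ∀ y g h β C r' : ℝ, 0 < y → 0 < g → h = 2 * g → h ≤ 1 / 2 →
    g ≤ β / 8 → 0 < β → 1 ≤ C → ∃ ψ : ℕ → ℝ, (∀ i, 0 < ψ i) ∧ ∀ (n : ℕ) (η : ℝ), 0 < η →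
    ∃ e > 0, ∃ κ > 0, ∃ τ > 0, ∃ J₁ : ℕ, ∀ J ≥ J₁, ∀ (F : Fam 3 J) (A : F.Ω → Prop),
    S.St τ J F A → LineU i₀ (1 / 2 ^ ⌊((σ 1).pi - e) * J⌋₊) (Fam.pt F) F.d A →
    (∃ iu' iN' : Fin 3, (∀ j : Fin 3, j = i₀ ∨ j = iu' ∨ j = iN') ∧
      LABq F J i₀ iu' iN' ⌊(v₁ : ℝ) * J⌋₊ 0 ⌊(t : ℝ) * J⌋₊ 2 A) →
    ∀ (iu iN : Fin 3) (w lam P q J' : ℕ) (y0 yz : F.Ω → Pln),
    ZD F i₀ iu iN w lam P q J' y0 yz A → w ≤ ⌊(v₁ : ℝ) * J⌋₊ →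
    ((σ 1).sN v₁ t - e) * J ≤ (P : ℝ) - w → β / 2 * J + lam ≤ q → y * J ≤ J' →
    ∀ (hA : IsLaw (cond F.p A True)) (h' : w + J' ≤ J),
    (∀ ψ e : ℝ, 0 ≤ ψ → ∀ B : F.Ω → Prop, Sub B A →
      Real.exp (-(ψ * J)) * Pe F.p A ≤ Pe F.p B →
      J * Real.log 2 - e ≤ CH (Pool.Agent.H49.Ent.cond F.p B True) F.T
        (fun ω => (F.l ω, F.Z ω)) → ∀ P' : ℕ, P' ≤ J' →
      CH (Pool.Agent.H49.Ent.cond F.p B True) ((pzG F i₀ iu w lam P J' yz A hA h').X J')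
        (fun ω => ((pzG F i₀ iu w lam P J' yz A hA h').X P' ω,
          (pzG F i₀ iu w lam P J' yz A hA h').W ω)) ≤
        (3 * Real.log 2 - r') * ((J' : ℝ) - P') + (C * ψ + κ) * J + e) →
    PHyp (pzG F i₀ iu w lam P J' yz A hA h') i₀ iu iN r' g h ψ η n

/-- **(PZE)** The end: the rotation of the zoom contradicts the number `rot`. -/
def PZEStmt : Prop :=
  ∀ (S : PCl 3) (a R h₁ : ℝ) (i₀ : Fin 3) (c s₂ : ℝ) (r : ℝ → ℝ) (D : Set ℝ) (σ : ℝ → Row),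
    Cs S a R h₁ i₀ c s₂ r D σ → ∀ wx : ℚ, 0 ≤ wx → wx ≤ 1 → ∀ z z' x g y : ℝ,
    (σ 1).rot wx < z → z ≤ 1 → z < z' → 0 < x → x ≤ 1 → 0 < g → g ≤ 1 → 0 < y →
    ∃ δ > 0, ∃ τ > 0, ∃ J₁ : ℕ, ∀ J ≥ J₁, ∀ (F : Fam 3 J) (A : F.Ω → Prop), S.St τ J F A →
    ∀ (iu iN : Fin 3) (w lam P q J' : ℕ) (yz : F.Ω → Pln), PzF F i₀ iu iN J w lam P yz A →
    P + J' ≤ J → lam ≤ q → Slo F i₀ iu lam q yz A → y * J ≤ J' →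
    (w : ℝ) + x * J' ≤ wx * J → z' * J ≤ lam + g / 2 * J' → z' * J ≤ (P : ℝ) - w →
    ∀ (hA : IsLaw (cond F.p A True)) (h' : w + J' ≤ J) (B : F.Ω → Prop),
    Real.exp (-(δ * J')) ≤ Pe (cond F.p A True) B →
    ¬ RotZ i₀ iu x (g / 2) J' (pzG F i₀ iu w lam P J' yz A hA h') B

end Pool.PZ
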